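import Pool.Agent.H.MP_072fb1_ag.Model

/-! # Maps commuting with the transcendental part -/

namespace Pool.Agent.H.MP_072fb1_ag

open Matrix

abbrev M42 := Matrix (Fin 4) (Fin 2) ℚ

theorem mW_zero : mW (0 : Fin 3 → ℚ) = 0 := by
  ext i j; fin_cases i <;> fin_cases j <;> simp [mW]

theorem kap0_VV (t t' : Fin 6 → ℚ) (s : S0) :
    kap0 (t, 0) (t', 0) s = (-(toMat (dualV t) * toMat t' * s.1), -(toMat t * toMat (dualV t') * s.2)) := by
  rw [kap0_apply]
  simp [kapFun, mW_zero]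

/-- `G` commutes with left multiplication by `N` -/
def Cm (G : M42 →ₗ[ℚ] M42) (N : Matrix (Fin 4) (Fin 4) ℚ) : Prop := ∀ x, G (N * x) = N * G x

theorem Cm.mul {G : M42 →ₗ[ℚ] M42} {N N' : Matrix (Fin 4) (Fin 4) ℚ} (h : Cm G N) (h' : Cm G N') :
    Cm G (N * N') := by
  intro x
  rw [Matrix.mul_assoc, h, h', Matrix.mul_assoc]

theorem Cm.smul {G : M42 →ₗ[ℚ] M42} {N : Matrix (Fin 4) (Fin 4) ℚ} (c : ℚ) (h : Cm G N) :
    Cm G (c • N) := by
  intro x
  rw [Matrix.smul_mul, map_smul, h, Matrix.smul_mul]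

theorem Cm.unit {G : M42 →ₗ[ℚ] M42} {i j k : Fin 4} (h : Cm G (Matrix.single i j 1))
    (h' : Cm G (Matrix.single j k 1)) : Cm G (Matrix.single i k 1) := by
  have := h.mul h'
  rwa [Matrix.single_mul_single_same, one_mul] at this

theorem right_mul_of_comm (G : M42 →ₗ[ℚ] M42) (h : ∀ i j, Cm G (Matrix.single i j 1)) :
    ∃ A : Matrix (Fin 2) (Fin 2) ℚ, ∀ x, G x = x * A := by
  refine ⟨Matrix.of fun p q => G (Matrix.single 0 p 1) 0 q, fun x => ?_⟩
  have key : ∀ (i : Fin 4) (p : Fin 2) (k : Fin 4) (q : Fin 2),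
      G (Matrix.single i p 1) k q = if k = i then G (Matrix.single 0 p 1) 0 q else 0 := by
    intro i p k q
    have h1 : (Matrix.single i p (1 : ℚ) : M42) =
        Matrix.single i (0 : Fin 4) (1 : ℚ) * (Matrix.single (0 : Fin 4) p (1 : ℚ) : M42) := by
      rw [Matrix.single_mul_single_same, one_mul]
    rw [h1, h i 0]
    by_cases hk : k = i
    · subst hk
      simp [Matrix.mul_apply, Matrix.single_apply]
    · simp [Matrix.mul_apply, Ne.symm hk, hk]
  conv_lhs => rw [Matrix.matrix_eq_sum_single x]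
  ext k q
  simp only [map_sum]
  rw [Matrix.sum_apply]
  simp only [Matrix.sum_apply]
  have h2 : ∀ (i : Fin 4) (p : Fin 2), G (Matrix.single i p (x i p)) k q =
      x i p * (if k = i then G (Matrix.single 0 p 1) 0 q else 0) := by
    intro i p
    have : (Matrix.single i p (x i p) : M42) = x i p • Matrix.single i p 1 := by
      rw [Matrix.smul_single, smul_eq_mul, mul_one]
    rw [this, map_smul, Matrix.smul_apply, smul_eq_mul, key]
  simp only [h2]
  simp [Matrix.mul_apply]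

theorem commC (a b : ℚ) (ha : a ≠ 0) (hb : b ≠ 0) (G : M42 →ₗ[ℚ] M42)
    (hG : ∀ t t' : Fin 6 → ℚ, pairV t ![a, 0, 0, 0, 0, b] = 0 → pairV t' ![a, 0, 0, 0, 0, b] = 0 →
      Cm G (toMat (dualV t) * toMat t')) :
    ∃ A : Matrix (Fin 2) (Fin 2) ℚ, ∀ x, G x = x * A := by
  apply right_mul_of_comm
  have e13 : pairV (![0, 1, 0, 0, 0, 0] : Fin 6 → ℚ) ![a, 0, 0, 0, 0, b] = 0 := by simp [pairV]
  have e14 : pairV (![0, 0, 1, 0, 0, 0] : Fin 6 → ℚ) ![a, 0, 0, 0, 0, b] = 0 := by simp [pairV]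
  have e23 : pairV (![0, 0, 0, 1, 0, 0] : Fin 6 → ℚ) ![a, 0, 0, 0, 0, b] = 0 := by simp [pairV]
  have e24 : pairV (![0, 0, 0, 0, 1, 0] : Fin 6 → ℚ) ![a, 0, 0, 0, 0, b] = 0 := by simp [pairV]
  have e5 : pairV (![a, 0, 0, 0, 0, -b] : Fin 6 → ℚ) ![a, 0, 0, 0, 0, b] = 0 := by
    simp [pairV]; ring
  have h10 : Cm G (Matrix.single 1 0 1) := by
    have := hG _ _ e13 e14
    convert this using 1
    ext i j; fin_cases i <;> fin_cases j <;> simp [toMat, dualV, Matrix.mul_apply, Fin.sum_univ_four]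
  have h32 : Cm G (Matrix.single 3 2 1) := by
    have := hG _ _ e13 e23
    convert this using 1
    ext i j; fin_cases i <;> fin_cases j <;> simp [toMat, dualV, Matrix.mul_apply, Fin.sum_univ_four]
  have h01 : Cm G (Matrix.single 0 1 1) := by
    have := hG _ _ e24 e23
    convert this using 1
    ext i j; fin_cases i <;> fin_cases j <;> simp [toMat, dualV, Matrix.mul_apply, Fin.sum_univ_four]
  have h23 : Cm G (Matrix.single 2 3 1) := by
    have := hG _ _ e24 e14
    convert this using 1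
    ext i j; fin_cases i <;> fin_cases j <;> simp [toMat, dualV, Matrix.mul_apply, Fin.sum_univ_four]
  have hX : Cm G (toMat (dualV ![0, 1, 0, 0, 0, 0]) * toMat ![a, 0, 0, 0, 0, -b]) := hG _ _ e13 e5
  have h00 := h01.unit h10
  have h11 := h10.unit h01
  have h22 := h23.unit h32
  have h33 := h32.unit h23
  have hXe : toMat (dualV ![0, 1, 0, 0, 0, 0]) * toMat ![a, 0, 0, 0, 0, -b] =
      (-a) • Matrix.single (3 : Fin 4) (0 : Fin 4) (1 : ℚ) - b • Matrix.single (1 : Fin 4) (2 : Fin 4) (1 : ℚ) := by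
    ext i j; fin_cases i <;> fin_cases j <;>
      simp [toMat, dualV, Matrix.mul_apply, Fin.sum_univ_four]
  have h30 : Cm G (Matrix.single 3 0 1) := by
    have := (hX.mul h00).smul (-a⁻¹)
    rw [hXe, Matrix.sub_mul, Matrix.smul_mul, Matrix.smul_mul, Matrix.single_mul_single_same,
      Matrix.single_mul_single_of_ne _ _ _ _ (by decide)] at this
    simpa [smul_smul, ha] using this
  have h12 : Cm G (Matrix.single 1 2 1) := by
    have := (hX.mul h22).smul (-b⁻¹)
    rw [hXe, Matrix.sub_mul, Matrix.smul_mul, Matrix.smul_mul, Matrix.single_mul_single_same,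
      Matrix.single_mul_single_of_ne _ _ _ _ (by decide)] at this
    simpa [smul_smul, hb, smul_sub] using this
  have h02 := h01.unit h12
  have h03 := h02.unit h23
  have h13 := h10.unit h03
  have h31 := h30.unit h01
  have h20 := h23.unit h30
  have h21 := h20.unit h01
  intro i j
  fin_cases i <;> fin_cases j
  exacts [h00, h01, h02, h03, h10, h11, h12, h13, h20, h21, h22, h23, h30, h31, h32, h33]

theorem commC' (a b : ℚ) (ha : a ≠ 0) (hb : b ≠ 0) (G : M42 →ₗ[ℚ] M42)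
    (hG : ∀ t t' : Fin 6 → ℚ, pairV t ![a, 0, 0, 0, 0, b] = 0 → pairV t' ![a, 0, 0, 0, 0, b] = 0 →
      Cm G (toMat t * toMat (dualV t'))) :
    ∃ A : Matrix (Fin 2) (Fin 2) ℚ, ∀ x, G x = x * A := by
  refine commC b a hb ha G fun t t' ht ht' => ?_
  have hd : ∀ v : Fin 6 → ℚ, dualV (dualV v) = v := by
    intro v; ext i; fin_cases i <;> simp [dualV]
  have hp : ∀ v : Fin 6 → ℚ, pairV v ![b, 0, 0, 0, 0, a] = 0 → pairV (dualV v) ![a, 0, 0, 0, 0, b] = 0 := by
    intro v hv
    simp only [pairV, dualV, Matrix.cons_val] at hv ⊢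
    linarith
  have := hG (dualV t) (dualV t') (hp t ht) (hp t' ht')
  rwa [hd] at this

theorem toMat_dual_anti (v w : Fin 6 → ℚ) :
    toMat (dualV v) * toMat w + toMat (dualV w) * toMat v = -(pairV v w) • (1 : Matrix (Fin 4) (Fin 4) ℚ) := by
  ext i j
  fin_cases i <;> fin_cases j <;>
    simp [toMat, dualV, pairV] <;> ring

theorem toMat_anti_dual (v w : Fin 6 → ℚ) :
    toMat v * toMat (dualV w) + toMat w * toMat (dualV v) = -(pairV v w) • (1 : Matrix (Fin 4) (Fin 4) ℚ) := by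
  ext i j
  fin_cases i <;> fin_cases j <;>
    simp [toMat, dualV, pairV] <;> ring

theorem block (a b : ℚ) (ha : a ≠ 0) (hb : b ≠ 0) (F : S0 →ₗ[ℚ] S0)
    (hF : ∀ t t' : Fin 6 → ℚ, pairV t ![a, 0, 0, 0, 0, b] = 0 → pairV t' ![a, 0, 0, 0, 0, b] = 0 →
      ∀ s, F (kap0 (t, 0) (t', 0) s) = kap0 (t, 0) (t', 0) (F s)) :
    ∃ A B C E : Matrix (Fin 2) (Fin 2) ℚ, ∀ x y : Matrix (Fin 4) (Fin 2) ℚ,
      F (x, y) = (x * A + toMat (dualV ![a, 0, 0, 0, 0, b]) * y * B,
        toMat ![a, 0, 0, 0, 0, b] * x * C + y * E) := by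
  set h : Fin 6 → ℚ := ![a, 0, 0, 0, 0, b] with hh
  have hhh : pairV h h = 2 * (a * b) := by simp [hh, pairV]; ring
  -- the two anticommutation rules
  have r1 : ∀ t : Fin 6 → ℚ, pairV t h = 0 →
      toMat (dualV h) * toMat t = -(toMat (dualV t) * toMat h) := by
    intro t ht
    have := toMat_dual_anti t h
    rw [ht, neg_zero, zero_smul] at this
    exact eq_neg_of_add_eq_zero_right this
  have r2 : ∀ t : Fin 6 → ℚ, pairV t h = 0 →
      toMat h * toMat (dualV t) = -(toMat t * toMat (dualV h)) := by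
    intro t ht
    have := toMat_anti_dual t h
    rw [ht, neg_zero, zero_smul] at this
    exact eq_neg_of_add_eq_zero_right this
  have c1 : toMat h * toMat (dualV h) = -(a * b) • (1 : Matrix (Fin 4) (Fin 4) ℚ) := by
    have := toMat_anti_dual h h
    rw [hhh] at this
    have h2 : (2 : ℚ) • (toMat h * toMat (dualV h)) = (2 : ℚ) • (-(a * b) • (1 : Matrix (Fin 4) (Fin 4) ℚ)) := by
      rw [two_smul, this, smul_smul]; congr 1; ring
    exact smul_right_injective _ (by norm_num : (2 : ℚ) ≠ 0) h2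
  have c2 : toMat (dualV h) * toMat h = -(a * b) • (1 : Matrix (Fin 4) (Fin 4) ℚ) := by
    have := toMat_dual_anti h h
    rw [hhh] at this
    have h2 : (2 : ℚ) • (toMat (dualV h) * toMat h) = (2 : ℚ) • (-(a * b) • (1 : Matrix (Fin 4) (Fin 4) ℚ)) := by
      rw [two_smul, this, smul_smul]; congr 1; ring
    exact smul_right_injective _ (by norm_num : (2 : ℚ) ≠ 0) h2
  have hab : a * b ≠ 0 := mul_ne_zero ha hb
  -- the basic relations
  have q1 : ∀ t t' : Fin 6 → ℚ, pairV t h = 0 → pairV t' h = 0 → ∀ x : M42,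
      F (toMat (dualV t) * toMat t' * x, 0) =
        (toMat (dualV t) * toMat t' * (F (x, 0)).1, toMat t * toMat (dualV t') * (F (x, 0)).2) := by
    intro t t' ht ht' x
    have := hF t t' ht ht' (x, 0)
    rw [kap0_VV, kap0_VV] at this
    simp only [Matrix.mul_zero, neg_zero] at this
    have h3 : ((-(toMat (dualV t) * toMat t' * x) : M42), (0 : M42)) =
      -((toMat (dualV t) * toMat t' * x : M42), (0 : M42)) := by simp
    rw [h3, map_neg] at this
    rw [← neg_inj, this]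
    rfl
  have q2 : ∀ t t' : Fin 6 → ℚ, pairV t h = 0 → pairV t' h = 0 → ∀ y : M42,
      F (0, toMat t * toMat (dualV t') * y) =
        (toMat (dualV t) * toMat t' * (F (0, y)).1, toMat t * toMat (dualV t') * (F (0, y)).2) := by
    intro t t' ht ht' y
    have := hF t t' ht ht' (0, y)
    rw [kap0_VV, kap0_VV] at this
    simp only [Matrix.mul_zero, neg_zero] at this
    have h3 : ((0 : M42), (-(toMat t * toMat (dualV t') * y) : M42)) =
      -((0 : M42), (toMat t * toMat (dualV t') * y : M42)) := by simp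
    rw [h3, map_neg] at this
    rw [← neg_inj, this]
    rfl
  -- F11
  obtain ⟨A, hA⟩ := commC a b ha hb ((LinearMap.fst ℚ M42 M42) ∘ₗ F ∘ₗ (LinearMap.inl ℚ M42 M42)) (by
    intro t t' ht ht' x
    show (F ((toMat (dualV t) * toMat t' * x : M42), (0 : M42))).1 = _ * (F (x, 0)).1
    rw [q1 t t' ht ht' x])
  -- F21
  obtain ⟨C, hC⟩ := commC a b ha hb ((mulLeftLinearMap (Fin 2) ℚ (toMat (dualV h))) ∘ₗ
      (LinearMap.snd ℚ M42 M42) ∘ₗ F ∘ₗ (LinearMap.inl ℚ M42 M42)) (by
    intro t t' ht ht' x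
    show toMat (dualV h) * (F ((toMat (dualV t) * toMat t' * x : M42), (0 : M42))).2 =
      _ * (toMat (dualV h) * (F (x, 0)).2)
    rw [q1 t t' ht ht' x]
    simp only
    have e1 : toMat (dualV h) * (toMat t * toMat (dualV t')) =
        (toMat (dualV t) * toMat t') * toMat (dualV h) := by
      rw [← Matrix.mul_assoc, r1 t ht, Matrix.neg_mul, Matrix.mul_assoc, r2 t' ht', Matrix.mul_neg,
        neg_neg, Matrix.mul_assoc]
    rw [← Matrix.mul_assoc, e1, Matrix.mul_assoc, Matrix.mul_assoc])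
  -- F12
  obtain ⟨B, hB⟩ := commC' a b ha hb ((mulLeftLinearMap (Fin 2) ℚ (toMat h)) ∘ₗ
      (LinearMap.fst ℚ M42 M42) ∘ₗ F ∘ₗ (LinearMap.inr ℚ M42 M42)) (by
    intro t t' ht ht' y
    show toMat h * (F ((0 : M42), (toMat t * toMat (dualV t') * y : M42))).1 =
      _ * (toMat h * (F (0, y)).1)
    rw [q2 t t' ht ht' y]
    simp only
    have e1 : toMat h * (toMat (dualV t) * toMat t') =
        (toMat t * toMat (dualV t')) * toMat h := by
      rw [← Matrix.mul_assoc, r2 t ht, Matrix.neg_mul, Matrix.mul_assoc, r1 t' ht', Matrix.mul_neg,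
        neg_neg, Matrix.mul_assoc]
    rw [← Matrix.mul_assoc, e1, Matrix.mul_assoc, Matrix.mul_assoc])
  -- F22
  obtain ⟨E, hE⟩ := commC' a b ha hb ((LinearMap.snd ℚ M42 M42) ∘ₗ F ∘ₗ (LinearMap.inr ℚ M42 M42)) (by
    intro t t' ht ht' y
    show (F ((0 : M42), (toMat t * toMat (dualV t') * y : M42))).2 = _ * (F (0, y)).2
    rw [q2 t t' ht ht' y])
  refine ⟨A, -(a * b)⁻¹ • B, -(a * b)⁻¹ • C, E, fun x y => ?_⟩
  have hsum : ((x, y) : S0) = (x, 0) + (0, y) := by simp
  have k1 : (F (x, 0)).1 = x * A := hA x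
  have k2 : toMat (dualV h) * (F (x, 0)).2 = x * C := hC x
  have k3 : toMat h * (F (0, y)).1 = y * B := hB y
  have k4 : (F (0, y)).2 = y * E := hE y
  have k2' : (F (x, 0)).2 = toMat h * x * (-(a * b)⁻¹ • C) := by
    have : toMat h * (toMat (dualV h) * (F (x, 0)).2) = toMat h * (x * C) := by rw [k2]
    rw [← Matrix.mul_assoc, c1, Matrix.smul_mul, Matrix.one_mul] at this
    rw [Matrix.mul_smul, Matrix.mul_assoc, ← this, smul_smul]
    have : -(a * b)⁻¹ * -(a * b) = 1 := by field_simp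
    rw [this, one_smul]
  have k3' : (F (0, y)).1 = toMat (dualV h) * y * (-(a * b)⁻¹ • B) := by
    have : toMat (dualV h) * (toMat h * (F (0, y)).1) = toMat (dualV h) * (y * B) := by rw [k3]
    rw [← Matrix.mul_assoc, c2, Matrix.smul_mul, Matrix.one_mul] at this
    rw [Matrix.mul_smul, Matrix.mul_assoc, ← this, smul_smul]
    have : -(a * b)⁻¹ * -(a * b) = 1 := by field_simp
    rw [this, one_smul]
  rw [hsum, map_add]
  refine Prod.ext ?_ ?_
  · show (F (x, 0)).1 + (F (0, y)).1 = _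
    rw [k1, k3']
  · show (F (x, 0)).2 + (F (0, y)).2 = _
    rw [k2', k4]

end Pool.Agent.H.MP_072fb1_ag
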