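import Pool.Agent.H.MP_072fb1_ag.Model

/-! # Canonical anticommutation relations: uniqueness of the Fock representation -/

namespace Pool.Agent.H.MP_072fb1_ag

section
variable {S : Type*} [AddCommGroup S] [Module ℚ S] {S' : Type*} [AddCommGroup S'] [Module ℚ S']

/-- canonical anticommutation relations -/
structure Car (n : ℕ) (a a' : Fin n → Module.End ℚ S) : Prop where
  aa : ∀ i j, a i * a j + a j * a i = 0
  bb : ∀ i j, a' i * a' j + a' j * a' i = 0
  ab : ∀ i j, a i * a' j + a' j * a i = if i = j then 1 else 0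

theorem eq_zero_of_add_self {x : S} (h : x + x = 0) : x = 0 := by
  have h2 : (2 : ℚ) • x = 0 := by rw [two_smul]; exact h
  exact (smul_eq_zero.1 h2).resolve_left (by norm_num)

/-- anticommuting with `A` -/
def Anti (A f : Module.End ℚ S) : Prop := ∀ s, A (f s) = -(f (A s))

theorem Anti.mem {A f : Module.End ℚ S} (h : Anti A f) : ∀ v ∈ LinearMap.ker A,
    f v ∈ LinearMap.ker A := by
  intro v hv
  rw [LinearMap.mem_ker] at hv ⊢
  rw [h v, hv, map_zero, neg_zero]

/-- restriction to the kernel -/
def res {A f : Module.End ℚ S} (h : Anti A f) : Module.End ℚ (LinearMap.ker A) :=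
  f.restrict h.mem

theorem res_coe {A f : Module.End ℚ S} (h : Anti A f) (v : LinearMap.ker A) :
    ((res h v : LinearMap.ker A) : S) = f v := rfl

/-- the pair of a creation and an annihilation operator -/
structure Pair (A B : Module.End ℚ S) : Prop where
  aa : ∀ s, A (A s) = 0
  bb : ∀ s, B (B s) = 0
  ab : ∀ s, A (B s) + B (A s) = s

/-- splitting off one pair -/
noncomputable def Pair.equiv {A B : Module.End ℚ S} (h : Pair A B) :
    S ≃ₗ[ℚ] LinearMap.ker A × LinearMap.ker A where
  toFun s := (⟨A (B s), LinearMap.mem_ker.2 (h.aa _)⟩, ⟨A s, LinearMap.mem_ker.2 (h.aa _)⟩)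
  map_add' s t := by ext <;> simp
  map_smul' c s := by ext <;> simp
  invFun p := p.1 + B p.2
  left_inv s := h.ab s
  right_inv p := by
    obtain ⟨⟨v, hv⟩, ⟨w, hw⟩⟩ := p
    rw [LinearMap.mem_ker] at hv hw
    have e1 : A (B v) = v := by
      have := h.ab v
      rwa [hv, map_zero, add_zero] at this
    have e2 : A (B w) = w := by
      have := h.ab w
      rwa [hw, map_zero, add_zero] at this
    refine Prod.ext (Subtype.ext ?_) (Subtype.ext ?_)
    · show A (B (v + B w)) = v
      rw [map_add, h.bb, add_zero, e1]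
    · show A (v + B w) = w
      rw [map_add, hv, zero_add, e2]

theorem Pair.equiv_fst {A B : Module.End ℚ S} (h : Pair A B) (s : S) :
    (((h.equiv s).1 : LinearMap.ker A) : S) = A (B s) := rfl

theorem Pair.equiv_snd {A B : Module.End ℚ S} (h : Pair A B) (s : S) :
    (((h.equiv s).2 : LinearMap.ker A) : S) = A s := rfl

theorem Pair.symm_apply {A B : Module.End ℚ S} (h : Pair A B) (p : LinearMap.ker A × LinearMap.ker A) :
    h.equiv.symm p = p.1 + B p.2 := rfl

theorem Pair.equiv_anti {A B : Module.End ℚ S} (h : Pair A B) {f : Module.End ℚ S}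
    (hA : Anti A f) (hB : Anti B f) (s : S) :
    h.equiv (f s) = (res hA (h.equiv s).1, -(res hA (h.equiv s).2)) := by
  refine Prod.ext (Subtype.ext ?_) (Subtype.ext ?_)
  · show A (B (f s)) = f (A (B s))
    rw [hB, map_neg, hA, neg_neg]
  · show A (f s) = -(f (A s))
    exact hA s

theorem Pair.equiv_A {A B : Module.End ℚ S} (h : Pair A B) (s : S) :
    h.equiv (A s) = ((h.equiv s).2, 0) := by
  refine Prod.ext (Subtype.ext ?_) (Subtype.ext ?_)
  · show A (B (A s)) = A s
    have := congrArg A (h.ab s)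
    rw [map_add, h.aa, zero_add] at this
    exact this
  · exact h.aa s

theorem Pair.equiv_B {A B : Module.End ℚ S} (h : Pair A B) (s : S) :
    h.equiv (B s) = (0, (h.equiv s).1) := by
  refine Prod.ext (Subtype.ext ?_) (Subtype.ext ?_)
  · show A (B (B s)) = 0
    rw [h.bb, map_zero]
  · rfl

theorem Pair.finrank {A B : Module.End ℚ S} (h : Pair A B) {n : ℕ}
    (hd : Module.finrank ℚ S = 2 ^ (n + 1)) : Module.finrank ℚ (LinearMap.ker A) = 2 ^ n := by
  have hfin : Module.Finite ℚ S := Module.finite_of_finrank_pos (by rw [hd]; positivity)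
  have h1 := h.equiv.finrank_eq
  rw [Module.finrank_prod, hd, pow_succ] at h1
  omega

theorem Car.pair {n : ℕ} {a a' : Fin (n + 1) → Module.End ℚ S} (h : Car (n + 1) a a') :
    Pair (a (Fin.last n)) (a' (Fin.last n)) where
  aa s := by
    have := LinearMap.congr_fun (h.aa (Fin.last n) (Fin.last n)) s
    simp only [LinearMap.add_apply, Module.End.mul_apply, LinearMap.zero_apply] at this
    exact eq_zero_of_add_self this
  bb s := by
    have := LinearMap.congr_fun (h.bb (Fin.last n) (Fin.last n)) s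
    simp only [LinearMap.add_apply, Module.End.mul_apply, LinearMap.zero_apply] at this
    exact eq_zero_of_add_self this
  ab s := by
    have := LinearMap.congr_fun (h.ab (Fin.last n) (Fin.last n)) s
    simpa using this

theorem Car.aA {n : ℕ} {a a' : Fin n → Module.End ℚ S} (h : Car n a a') (i j : Fin n) :
    Anti (a i) (a j) := by
  intro s
  have := LinearMap.congr_fun (h.aa i j) s
  simp only [LinearMap.add_apply, Module.End.mul_apply, LinearMap.zero_apply] at this
  exact eq_neg_of_add_eq_zero_left this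

theorem Car.bB {n : ℕ} {a a' : Fin n → Module.End ℚ S} (h : Car n a a') (i j : Fin n) :
    Anti (a' i) (a' j) := by
  intro s
  have := LinearMap.congr_fun (h.bb i j) s
  simp only [LinearMap.add_apply, Module.End.mul_apply, LinearMap.zero_apply] at this
  exact eq_neg_of_add_eq_zero_left this

theorem Car.aB {n : ℕ} {a a' : Fin n → Module.End ℚ S} (h : Car n a a') {i j : Fin n}
    (hij : i ≠ j) : Anti (a i) (a' j) := by
  intro s
  have := LinearMap.congr_fun (h.ab i j) s
  rw [if_neg hij] at this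
  simp only [LinearMap.add_apply, Module.End.mul_apply, LinearMap.zero_apply] at this
  exact eq_neg_of_add_eq_zero_left this

theorem Car.bA {n : ℕ} {a a' : Fin n → Module.End ℚ S} (h : Car n a a') {i j : Fin n}
    (hij : i ≠ j) : Anti (a' i) (a j) := by
  intro s
  have := h.aB (i := j) (j := i) hij.symm s
  rw [this, neg_neg]

theorem last_ne {n : ℕ} (i : Fin n) : Fin.last n ≠ Fin.castSucc i := (Fin.castSucc_lt_last i).ne'

/-- the annihilation operators on the kernel of the last one -/
def Car.ra {n : ℕ} {a a' : Fin (n + 1) → Module.End ℚ S} (h : Car (n + 1) a a') (i : Fin n) :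
    Module.End ℚ (LinearMap.ker (a (Fin.last n))) := res (h.aA (Fin.last n) (Fin.castSucc i))

/-- the creation operators on the kernel of the last annihilation operator -/
def Car.rb {n : ℕ} {a a' : Fin (n + 1) → Module.End ℚ S} (h : Car (n + 1) a a') (i : Fin n) :
    Module.End ℚ (LinearMap.ker (a (Fin.last n))) := res (h.aB (last_ne i))

theorem Car.res {n : ℕ} {a a' : Fin (n + 1) → Module.End ℚ S} (h : Car (n + 1) a a') :
    Car n h.ra h.rb where
  aa i j := by
    ext v
    exact LinearMap.congr_fun (h.aa (Fin.castSucc i) (Fin.castSucc j)) (v : S)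
  bb i j := by
    ext v
    exact LinearMap.congr_fun (h.bb (Fin.castSucc i) (Fin.castSucc j)) (v : S)
  ab i j := by
    ext v
    have := LinearMap.congr_fun (h.ab (Fin.castSucc i) (Fin.castSucc j)) (v : S)
    by_cases hij : i = j
    · subst hij
      rw [if_pos rfl] at this ⊢
      exact this
    · rw [if_neg hij]
      rw [if_neg (fun hc => hij (Fin.castSucc_injective n hc))] at this
      exact this

end

universe u v

theorem Car.iso_aux : ∀ (n : ℕ) {S : Type u} [AddCommGroup S] [Module ℚ S] {S' : Type v}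
    [AddCommGroup S'] [Module ℚ S'] {a a' : Fin n → Module.End ℚ S}
    {b b' : Fin n → Module.End ℚ S'}, Car n a a' → Car n b b' → Module.finrank ℚ S = 2 ^ n →
    Module.finrank ℚ S' = 2 ^ n →
    ∃ Θ : S ≃ₗ[ℚ] S', ∀ i s, Θ (a i s) = b i (Θ s) ∧ Θ (a' i s) = b' i (Θ s) := by
  intro n
  induction n with
  | zero =>
    intro S _ _ S' _ _ a a' b b' _ _ hd hd'
    have hfin : Module.Finite ℚ S := Module.finite_of_finrank_pos (by rw [hd]; positivity)
    have hfin' : Module.Finite ℚ S' := Module.finite_of_finrank_pos (by rw [hd']; positivity)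
    exact ⟨LinearEquiv.ofFinrankEq S S' (hd.trans hd'.symm), fun i => i.elim0⟩
  | succ n ih =>
    intro S _ _ S' _ _ a a' b b' h h' hd hd'
    obtain ⟨Θ, hΘ⟩ := ih h.res h'.res (h.pair.finrank hd) (h'.pair.finrank hd')
    refine ⟨(h.pair.equiv.trans (Θ.prodCongr Θ)).trans h'.pair.equiv.symm, ?_⟩
    intro i s
    have key : ∀ (x : S) (y : S'), ((h.pair.equiv.trans (Θ.prodCongr Θ)).trans
        h'.pair.equiv.symm) x = y ↔
        (Θ (h.pair.equiv x).1, Θ (h.pair.equiv x).2) = h'.pair.equiv y := by
      intro x y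
      rw [LinearEquiv.trans_apply, LinearEquiv.symm_apply_eq]
      rfl
    have key2 : h'.pair.equiv (((h.pair.equiv.trans (Θ.prodCongr Θ)).trans
        h'.pair.equiv.symm) s) = (Θ (h.pair.equiv s).1, Θ (h.pair.equiv s).2) :=
      ((key s _).1 rfl).symm
    rw [key, key]
    refine Fin.lastCases ?_ (fun i => ?_) i
    · rw [h.pair.equiv_A, h'.pair.equiv_A, h.pair.equiv_B, h'.pair.equiv_B, key2]
      simp
    · obtain ⟨h1, h2⟩ := hΘ i (h.pair.equiv s).1
      obtain ⟨h3, h4⟩ := hΘ i (h.pair.equiv s).2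
      rw [h.pair.equiv_anti (h.aA _ _) (h.bA (last_ne i)),
        h'.pair.equiv_anti (h'.aA _ _) (h'.bA (last_ne i)),
        h.pair.equiv_anti (h.aB (last_ne i)) (h.bB _ _),
        h'.pair.equiv_anti (h'.aB (last_ne i)) (h'.bB _ _), key2]
      constructor
      · refine Prod.ext ?_ ?_
        · exact h1
        · simp only [map_neg]
          exact congrArg Neg.neg h3
      · refine Prod.ext ?_ ?_
        · exact h2
        · simp only [map_neg]
          exact congrArg Neg.neg h4

section
variable {S : Type*} [AddCommGroup S] [Module ℚ S] {S' : Type*} [AddCommGroup S'] [Module ℚ S']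

theorem Car.iso {n : ℕ} {a a' : Fin n → Module.End ℚ S} {b b' : Fin n → Module.End ℚ S'}
    (h : Car n a a') (h' : Car n b b') (hd : Module.finrank ℚ S = 2 ^ n)
    (hd' : Module.finrank ℚ S' = 2 ^ n) :
    ∃ Θ : S ≃ₗ[ℚ] S', ∀ i s, Θ (a i s) = b i (Θ s) ∧ Θ (a' i s) = b' i (Θ s) :=
  Car.iso_aux n h h' hd hd'

end

theorem Car.commutant_aux : ∀ (n : ℕ) {S : Type u} [AddCommGroup S] [Module ℚ S]
    {a a' : Fin n → Module.End ℚ S}, Car n a a' → Module.finrank ℚ S = 2 ^ n →
    ∀ R : Module.End ℚ S, (∀ i s, R (a i s) = a i (R s) ∧ R (a' i s) = a' i (R s)) →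
    ∃ c : ℚ, ∀ s, R s = c • s := by
  intro n
  induction n with
  | zero =>
    intro S _ _ a a' _ hd R _
    rw [pow_zero] at hd
    obtain ⟨v, _, hv⟩ := finrank_eq_one_iff'.1 hd
    obtain ⟨c, hc⟩ := hv (R v)
    refine ⟨c, fun s => ?_⟩
    obtain ⟨x, rfl⟩ := hv s
    rw [map_smul, ← hc, smul_comm]
  | succ n ih =>
    intro S _ _ a a' h hd R hR
    have hmem : ∀ v ∈ LinearMap.ker (a (Fin.last n)), R v ∈ LinearMap.ker (a (Fin.last n)) := by
      intro v hv
      rw [LinearMap.mem_ker] at hv ⊢
      rw [← (hR (Fin.last n) v).1, hv, map_zero]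
    obtain ⟨c, hc⟩ := ih h.res (h.pair.finrank hd) (R.restrict hmem) (by
      intro i v
      exact ⟨Subtype.ext (hR (Fin.castSucc i) (v : S)).1, Subtype.ext (hR (Fin.castSucc i) (v : S)).2⟩)
    refine ⟨c, fun s => ?_⟩
    have hv : ∀ v ∈ LinearMap.ker (a (Fin.last n)), R v = c • v := by
      intro v hv
      exact congrArg Subtype.val (hc ⟨v, hv⟩)
    have h1 := h.pair.ab s
    have h2 := hv (a (Fin.last n) (a' (Fin.last n) s)) (LinearMap.mem_ker.2 (h.pair.aa _))
    have h3 := hv (a (Fin.last n) s) (LinearMap.mem_ker.2 (h.pair.aa _))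
    have h4 : R (a' (Fin.last n) (a (Fin.last n) s)) = c • a' (Fin.last n) (a (Fin.last n) s) := by
      rw [(hR (Fin.last n) _).2, h3, map_smul]
    calc R s = R (a (Fin.last n) (a' (Fin.last n) s) + a' (Fin.last n) (a (Fin.last n) s)) := by
          rw [h1]
      _ = c • (a (Fin.last n) (a' (Fin.last n) s) + a' (Fin.last n) (a (Fin.last n) s)) := by
          rw [map_add, h2, h4, smul_add]
      _ = c • s := by rw [h1]

section
variable {S : Type*} [AddCommGroup S] [Module ℚ S]

theorem Car.commutant {n : ℕ} {a a' : Fin n → Module.End ℚ S}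
    (h : Car n a a') (hd : Module.finrank ℚ S = 2 ^ n) (R : Module.End ℚ S)
    (hR : ∀ i s, R (a i s) = a i (R s) ∧ R (a' i s) = a' i (R s)) : ∃ c : ℚ, ∀ s, R s = c • s :=
  Car.commutant_aux n h hd R hR

end

end Pool.Agent.H.MP_072fb1_ag
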