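import Pool.Agent.H.MP_072fb1_ag.Isom

/-! # The data carried by the odd K-theory, and derived isomorphisms, over plain functions -/

namespace Pool.Agent.H.MP_072fb1_ag

open Matrix

section

variable {S : Type} [AddCommGroup S] [Module ℚ S]

/-- `κ : H̃ × H̃ × S → S` is linear in each variable. -/
structure IsTrilinear (κ : Ht ℚ → Ht ℚ → S → S) : Prop where
  add_left : ∀ x x' y s, κ (x + x') y s = κ x y s + κ x' y s
  smul_left : ∀ (c : ℚ) x y s, κ (c • x) y s = c • κ x y s
  add_right : ∀ x y y' s, κ x (y + y') s = κ x y s + κ x y' s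
  smul_right : ∀ (c : ℚ) x y s, κ x (c • y) s = c • κ x y s
  add_arg : ∀ x y s t, κ x y (s + t) = κ x y s + κ x y t
  smul_arg : ∀ (c : ℚ) x y s, κ x y (c • s) = c • κ x y s

/-- `κ` makes `S` a 16-dimensional module over the even Clifford algebra of `H̃` (form `(x,x)/2`):
the spin representation of `so(H̃)`, in which `x ∧ y` acts as `(κ x y - κ y x)/2`. -/
structure SpinAction (κ : Ht ℚ → Ht ℚ → S → S) : Prop where
  linear : IsTrilinear κ
  finrank_eq : Module.finrank ℚ S = 16
  kap_self : ∀ x s, κ x x s = (pair x x / 2) • s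
  kap_mul : ∀ x y z s, κ x y (κ y z s) = (pair y y / 2) • κ x z s

/-- `b` is a bilinear form on `S`, invariant under `so(H̃)`. -/
structure InvariantForm (κ : Ht ℚ → Ht ℚ → S → S) (b : S → S → ℚ) : Prop where
  add_left : ∀ s s' t, b (s + s') t = b s t + b s' t
  smul_left : ∀ (c : ℚ) s t, b (c • s) t = c * b s t
  add_right : ∀ s t t', b s (t + t') = b s t + b s t'
  smul_right : ∀ (c : ℚ) s t, b s (c • t) = c * b s t
  adjoint : ∀ x y s t, b (κ x y s) t = b s (κ y x t)

/-- `ρ` is a lift to `S` of the automorphism `ψ` of `H̃`. -/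
def Lifts (κ : Ht ℚ → Ht ℚ → S → S) (ρ : S ≃ₗ[ℚ] S) (ψ : Ht ℚ → Ht ℚ) : Prop :=
  ∀ x y s, ρ (κ x y s) = κ (ψ x) (ψ y) (ρ s)

/-- The data of the odd topological K-theory of a generalised Kummer fourfold `X`: `S = H^odd(X, ℚ)`
with the action of the LLV algebra `so(H̃)`, and the lattice `M` of `K¹(X)` modulo torsion;
`monodromy`: the family of all complex 2-tori; `selfdual`: Poincaré duality in K-theory. -/
structure OddKTheory (κ : Ht ℚ → Ht ℚ → S → S) (M : Submodule ℤ S) : Prop where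
  spin : SpinAction κ
  fg : M.FG
  span_eq : Submodule.span ℚ (M : Set S) = ⊤
  monodromy : ∀ γ : Matrix.SpecialLinearGroup (Fin 4) ℤ, ∃ ρ : S ≃ₗ[ℚ] S,
    Preserves ρ M ∧ Lifts κ ρ (act γ)
  selfdual : ∃ b : S → S → ℚ, InvariantForm κ b ∧
    ∀ s, s ∈ M ↔ ∀ m ∈ M, ∃ n : ℤ, b s m = n

/-- `ψ` is a linear isometry of `H̃` with `ψ(ℂσ) = ℂτ`. -/
structure HodgeIsometryHt (ψ : Ht ℚ → Ht ℚ) (σ τ : Fin 6 → ℂ) : Prop where
  map_add : ∀ x y, ψ (x + y) = ψ x + ψ y
  map_smul : ∀ (c : ℚ) x, ψ (c • x) = c • ψ x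
  isometry : ∀ x y, pair (ψ x) (ψ y) = pair x y
  period : ∃ c : ℂ, ∀ x, pairC (ψ x).1 τ = c * pairC x.1 σ

/-- There is an automorphism `g` of the lattice `(S, M)` lifting an isometry `ψ` of `H̃` which maps
the Hodge structure with period `σ` to the Hodge structure with period `τ`. -/
def KIsomorphic (κ : Ht ℚ → Ht ℚ → S → S) (M : Submodule ℤ S) (σ τ : Fin 6 → ℂ) : Prop :=
  ∃ (g : S ≃ₗ[ℚ] S) (ψ : Ht ℚ → Ht ℚ), Preserves g M ∧ Lifts κ g ψ ∧ HodgeIsometryHt ψ σ τ

/-! ## Translation -/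

/-- the bundled action -/
def IsTrilinear.toLin {κ : Ht ℚ → Ht ℚ → S → S} (h : IsTrilinear κ) :
    Ht ℚ →ₗ[ℚ] Ht ℚ →ₗ[ℚ] Module.End ℚ S :=
  LinearMap.mk₂ ℚ (fun x y =>
    { toFun := κ x y
      map_add' := h.add_arg x y
      map_smul' := fun c s => h.smul_arg c x y s })
    (fun x x' y => LinearMap.ext fun s => h.add_left x x' y s)
    (fun c x y => LinearMap.ext fun s => h.smul_left c x y s)
    (fun x y y' => LinearMap.ext fun s => h.add_right x y y' s)
    (fun c x y => LinearMap.ext fun s => h.smul_right c x y s)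

theorem IsTrilinear.toLin_apply {κ : Ht ℚ → Ht ℚ → S → S} (h : IsTrilinear κ) (x y : Ht ℚ) (s : S) :
    h.toLin x y s = κ x y s := rfl

theorem SpinAction.toIsSpin {κ : Ht ℚ → Ht ℚ → S → S} (h : SpinAction κ) : IsSpin h.linear.toLin where
  finrank_eq := h.finrank_eq
  kap_self x := LinearMap.ext fun s => h.kap_self x s
  kap_mul x y z := LinearMap.ext fun s => h.kap_mul x y z s

theorem OddKTheory.toIsOddK {κ : Ht ℚ → Ht ℚ → S → S} {M : Submodule ℤ S} (h : OddKTheory κ M) :
    IsOddK h.spin.linear.toLin M where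
  toIsSpin := h.spin.toIsSpin
  fg := h.fg
  span_eq := h.span_eq
  monodromy γ := by
    obtain ⟨ρ, h1, h2⟩ := h.monodromy γ
    exact ⟨ρ, h1, fun x y s => h2 x y s⟩
  selfdual := by
    obtain ⟨b, hb, hM⟩ := h.selfdual
    refine ⟨LinearMap.mk₂ ℚ b hb.add_left (fun c s t => hb.smul_left c s t) hb.add_right
      (fun c s t => hb.smul_right c s t), fun x y s t => hb.adjoint x y s t, fun s => hM s⟩

theorem IsOddK.toOddKTheory {κ : Ht ℚ →ₗ[ℚ] Ht ℚ →ₗ[ℚ] Module.End ℚ S} {M : Submodule ℤ S}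
    (h : IsOddK κ M) : OddKTheory (fun x y s => κ x y s) M where
  spin :=
    { linear :=
        { add_left := fun x x' y s => by simp
          smul_left := fun c x y s => by simp
          add_right := fun x y y' s => by simp
          smul_right := fun c x y s => by simp
          add_arg := fun x y s t => by simp
          smul_arg := fun c x y s => by simp }
      finrank_eq := h.finrank_eq
      kap_self := fun x s => by
        show κ x x s = _
        rw [h.kap_self]; rfl
      kap_mul := fun x y z s => by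
        show (κ x y * κ y z) s = _
        rw [h.kap_mul]; rfl }
  fg := h.fg
  span_eq := h.span_eq
  monodromy γ := by
    obtain ⟨ρ, h1, h2⟩ := h.monodromy γ
    exact ⟨ρ, h1, fun x y s => h2 x y s⟩
  selfdual := by
    obtain ⟨b, hb, hM⟩ := h.selfdual
    exact ⟨fun s t => b s t,
      { add_left := fun s s' t => by simp
        smul_left := fun c s t => by simp
        add_right := fun s t t' => by simp
        smul_right := fun c s t => by simp
        adjoint := hb }, hM⟩

theorem pair_nondeg (x : Ht ℚ) (h : ∀ y, pair x y = 0) : x = 0 := by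
  have e : ∀ i : Fin 6, x.1 i = 0 := by
    intro i
    fin_cases i
    · simpa [pair, pairV] using h (Pi.single 5 1, 0)
    · simpa [pair, pairV] using h (Pi.single 4 1, 0)
    · simpa [pair, pairV] using h (Pi.single 3 1, 0)
    · simpa [pair, pairV] using h (Pi.single 2 1, 0)
    · simpa [pair, pairV] using h (Pi.single 1 1, 0)
    · simpa [pair, pairV] using h (Pi.single 0 1, 0)
  have f : ∀ i : Fin 3, x.2 i = 0 := by
    intro i
    fin_cases i
    · simpa [pair, pairV] using h (0, Pi.single 1 1)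
    · simpa [pair, pairV] using h (0, Pi.single 0 1)
    · simpa [pair, pairV] using h (0, Pi.single 2 1)
  exact Prod.ext (funext e) (funext f)

theorem pair_sub (x y z : Ht ℚ) : pair (x - y) z = pair x z - pair y z := by
  simp only [pair, pairV, Prod.fst_sub, Prod.snd_sub, Pi.sub_apply]
  ring

theorem KIsomorphic.toDerivedIso {κ : Ht ℚ → Ht ℚ → S → S} (h : IsTrilinear κ) {M : Submodule ℤ S}
    {σ τ : Fin 6 → ℂ} (hk : KIsomorphic κ M σ τ) : DerivedIso h.toLin M σ τ := by
  obtain ⟨g, ψ, h1, h2, h3⟩ := hk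
  let f : Ht ℚ →ₗ[ℚ] Ht ℚ :=
    { toFun := ψ
      map_add' := h3.map_add
      map_smul' := fun c x => h3.map_smul c x }
  have hinj : Function.Injective f := by
    intro x y hxy
    have : x - y = 0 := by
      apply pair_nondeg
      intro z
      have e1 : pair x z - pair y z = 0 := by
        rw [← h3.isometry x z, ← h3.isometry y z]
        have : ψ x = ψ y := hxy
        rw [this, sub_self]
      rw [pair_sub, e1]
    exact sub_eq_zero.mp this
  let ψ' : Ht ℚ ≃ₗ[ℚ] Ht ℚ := LinearEquiv.ofInjectiveEndo f hinj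
  exact ⟨g, ψ', h1, h3.isometry, fun x y s => h2 x y s, h3.period⟩

theorem DerivedIso.toKIsomorphic {κ : Ht ℚ →ₗ[ℚ] Ht ℚ →ₗ[ℚ] Module.End ℚ S} {M : Submodule ℤ S}
    {σ τ : Fin 6 → ℂ} (hk : DerivedIso κ M σ τ) : KIsomorphic (fun x y s => κ x y s) M σ τ := by
  obtain ⟨g, ψ, h1, h2, h3, h4⟩ := hk
  exact ⟨g, ψ, h1, h3, ⟨fun x y => map_add ψ x y, fun c x => map_smul ψ c x, h2, h4⟩⟩

end

end Pool.Agent.H.MP_072fb1_ag
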