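import Mathlib

/-!
# Odd K-theory of generalised Kummer fourfolds: the lattice, the LLV algebra, the periods

`L = ℤ⁴ = H₁(A, ℤ)` for a complex 2-torus `A`, `X = Kum₂(A)`.
-/

namespace Pool.Agent.H.MP_072fb1_ag

open Matrix

/-- `H²(A) = Λ²L*`, coordinates `(v₁₂, v₁₃, v₁₄, v₂₃, v₂₄, v₃₄)`, with the intersection pairing. -/
def pairV {K : Type*} [CommRing K] (v w : Fin 6 → K) : K :=
  v 0 * w 5 + v 5 * w 0 - v 1 * w 4 - v 4 * w 1 + v 2 * w 3 + v 3 * w 2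

/-- The extended space `H̃(X) = Λ²L* ⊕ U ⊕ Kδ`; `x = (v, (r, s, t))` is `v + r e + s f + t δ`. -/
abbrev Ht (K : Type*) := (Fin 6 → K) × (Fin 3 → K)

/-- The extended Mukai pairing: `(e, f) = 1`, `(e, e) = (f, f) = 0`, `(δ, δ) = -6`. -/
def pair {K : Type*} [CommRing K] (x y : Ht K) : K :=
  pairV x.1 y.1 + x.2 0 * y.2 1 + x.2 1 * y.2 0 - 6 * (x.2 2 * y.2 2)

/-- Poincaré duality `Λ²L* → Λ²L` in coordinates (dual bases): passage from `A` to the dual torus. -/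
def dualV {K : Type*} [CommRing K] (v : Fin 6 → K) : Fin 6 → K :=
  ![v 5, -v 4, v 3, v 2, -v 1, v 0]

/-- Pairing of a rational class with a complex class. -/
noncomputable def pairC (v : Fin 6 → ℚ) (σ : Fin 6 → ℂ) : ℂ :=
  pairV (fun i => ((v i : ℚ) : ℂ)) σ

/-- `σ` spans `H^{2,0}(A)` for a complex torus `A` with `H₁(A, ℤ) = ℤ⁴` (positively oriented). -/
def IsPeriod (σ : Fin 6 → ℂ) : Prop :=
  pairV σ σ = 0 ∧ 0 < (pairV σ (fun i => (starRingEnd ℂ) (σ i))).re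

/-- `NS(A) = ℤh` with `h = ε₁∧ε₂ + d ε₃∧ε₄` of type `(1, d)`. -/
def NeronSeveri (σ : Fin 6 → ℂ) (d : ℕ) : Prop :=
  ∀ v : Fin 6 → ℚ, pairC v σ = 0 ↔ ∃ r : ℚ, v = r • ![1, 0, 0, 0, 0, (d : ℚ)]

/-- The alternating matrix of `v`. -/
def toMat {K : Type*} [CommRing K] (v : Fin 6 → K) : Matrix (Fin 4) (Fin 4) K :=
  !![0, v 0, v 1, v 2; -v 0, 0, v 3, v 4; -v 1, -v 3, 0, v 5; -v 2, -v 4, -v 5, 0]

/-- Coordinates of an alternating matrix. -/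
def coord {K : Type*} (A : Matrix (Fin 4) (Fin 4) K) : Fin 6 → K :=
  ![A 0 1, A 0 2, A 0 3, A 1 2, A 1 3, A 2 3]

/-- Action of `γ ∈ SL₄(ℤ)` on `H̃ = Λ²L* ⊕ U ⊕ ℚδ`, trivial on `U ⊕ ℚδ`. -/
def act (γ : Matrix.SpecialLinearGroup (Fin 4) ℤ) (x : Ht ℚ) : Ht ℚ :=
  (coord ((γ : Matrix (Fin 4) (Fin 4) ℤ).map (Int.cast : ℤ → ℚ) * toMat x.1 *
    ((γ : Matrix (Fin 4) (Fin 4) ℤ).map (Int.cast : ℤ → ℚ))ᵀ), x.2)

section

variable {S : Type*} [AddCommGroup S] [Module ℚ S]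

/-- `κ` makes `S` a 16-dimensional module over the even Clifford algebra of `H̃` (form `(x,x)/2`):
the spin representation of `so(H̃)`, in which `x ∧ y` acts as `(κ x y - κ y x)/2`. -/
structure IsSpin (κ : Ht ℚ →ₗ[ℚ] Ht ℚ →ₗ[ℚ] Module.End ℚ S) : Prop where
  finrank_eq : Module.finrank ℚ S = 16
  kap_self : ∀ x, κ x x = (pair x x / 2) • (1 : Module.End ℚ S)
  kap_mul : ∀ x y z, κ x y * κ y z = (pair y y / 2) • κ x z

/-- The automorphism `g` maps the lattice `M` onto itself. -/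
def Preserves (g : S ≃ₗ[ℚ] S) (M : Submodule ℤ S) : Prop := ∀ s, g s ∈ M ↔ s ∈ M

/-- The data of the odd topological K-theory of a generalised Kummer fourfold. -/
structure IsOddK (κ : Ht ℚ →ₗ[ℚ] Ht ℚ →ₗ[ℚ] Module.End ℚ S) (M : Submodule ℤ S) : Prop
    extends IsSpin κ where
  fg : M.FG
  span_eq : Submodule.span ℚ (M : Set S) = ⊤
  /-- monodromy of the family of all complex 2-tori -/
  monodromy : ∀ γ : Matrix.SpecialLinearGroup (Fin 4) ℤ, ∃ ρ : S ≃ₗ[ℚ] S, Preserves ρ M ∧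
    ∀ x y s, ρ (κ x y s) = κ (act γ x) (act γ y) (ρ s)
  /-- Poincaré duality: `M` is self-dual for an invariant form -/
  selfdual : ∃ b : S →ₗ[ℚ] S →ₗ[ℚ] ℚ, (∀ x y s t, b (κ x y s) t = b s (κ y x t)) ∧
    ∀ s, s ∈ M ↔ ∀ m ∈ M, ∃ n : ℤ, b s m = n

/-- A lattice isomorphism which normalises the LLV algebra, inducing an isometry `ψ` of `H̃`
with `ψ(ℂσ) = ℂτ`. -/
def DerivedIso (κ : Ht ℚ →ₗ[ℚ] Ht ℚ →ₗ[ℚ] Module.End ℚ S) (M : Submodule ℤ S)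
    (σ τ : Fin 6 → ℂ) : Prop :=
  ∃ (g : S ≃ₗ[ℚ] S) (ψ : Ht ℚ ≃ₗ[ℚ] Ht ℚ), Preserves g M ∧
    (∀ x y, pair (ψ x) (ψ y) = pair x y) ∧
    (∀ x y s, g (κ x y s) = κ (ψ x) (ψ y) (g s)) ∧
    ∃ c : ℂ, ∀ x, pairC (ψ x).1 τ = c * pairC x.1 σ

end

end Pool.Agent.H.MP_072fb1_ag
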