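import Pool.Agent.H.MP_072fb1_ag.Defs

/-!
# Complex tori with Néron–Severi group generated by a class of type `(1, d)`

`σ = x + i s y`, `x = (1, β, β², β³, -β⁴, -d)`, `y = (0, -1, β, β², β³, 0)`, with `β` transcendental and large and
`s² = (4 β⁵ - 2 d) / (4 β³)`.
-/

namespace Pool.Agent.H.MP_072fb1_ag

open Polynomial

theorem exists_transc (d : ℕ) : ∃ β : ℝ, (d : ℝ) + 1 ≤ β ∧
    ∀ r : Fin 5 → ℚ, (r 0 : ℝ) + r 1 * β + r 2 * β ^ 2 + r 3 * β ^ 3 + r 4 * β ^ 4 = 0 → ∀ i, r i = 0 := by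
  obtain ⟨t, ht0, ht⟩ : ∃ t : ℝ, 0 ≤ t ∧ Transcendental ℤ t := by
    refine ⟨liouvilleNumber 2, ?_, ?_⟩
    · unfold liouvilleNumber
      exact tsum_nonneg fun i => by positivity
    · exact_mod_cast transcendental_liouvilleNumber (m := 2) le_rfl
  refine ⟨t + (d + 1 : ℕ), by push_cast; linarith, fun r hr => ?_⟩
  have htq : Transcendental ℚ t := by
    intro h
    exact ht ((IsFractionRing.isAlgebraic_iff ℤ ℚ ℝ).2 h)
  have hβ : Transcendental ℚ (t + (d + 1 : ℕ)) := by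
    intro h
    apply htq
    have h2 := h.sub (isAlgebraic_natCast (R := ℚ) (A := ℝ) (d + 1))
    rwa [add_sub_cancel_right] at h2
  set β : ℝ := t + (d + 1 : ℕ)
  have hp := transcendental_iff.1 hβ (C (r 0) + C (r 1) * X + C (r 2) * X ^ 2 + C (r 3) * X ^ 3 + C (r 4) * X ^ 4)
    (by simpa using hr)
  have hc : ∀ n : ℕ, (C (r 0) + C (r 1) * X + C (r 2) * X ^ 2 + C (r 3) * X ^ 3 + C (r 4) * X ^ 4 : ℚ[X]).coeff n = 0 := by
    intro n; rw [hp]; simp
  intro i
  fin_cases i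
  · simpa [coeff_X, coeff_X_pow, coeff_C] using hc 0
  · simpa [coeff_X, coeff_X_pow, coeff_C] using hc 1
  · simpa [coeff_X, coeff_X_pow, coeff_C] using hc 2
  · simpa [coeff_X, coeff_X_pow, coeff_C] using hc 3
  · simpa [coeff_X, coeff_X_pow, coeff_C] using hc 4

theorem exists_period (d : ℕ) (hd : 0 < d) : ∃ σ : Fin 6 → ℂ, IsPeriod σ ∧ NeronSeveri σ d := by
  obtain ⟨β, hβ, hind⟩ := exists_transc d
  have hd1 : (1 : ℝ) ≤ d := by exact_mod_cast hd
  have hβ1 : 1 ≤ β := by linarith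
  have hβ0 : 0 < β := by linarith
  have h5 : β ≤ β ^ 5 := by
    calc β = β ^ 1 := (pow_one β).symm
      _ ≤ β ^ 5 := pow_le_pow_right₀ hβ1 (by norm_num)
  have hq : 0 < 4 * β ^ 5 - 2 * d := by linarith
  set s : ℝ := Real.sqrt ((4 * β ^ 5 - 2 * d) / (4 * β ^ 3)) with hs
  have hs2 : s ^ 2 = (4 * β ^ 5 - 2 * d) / (4 * β ^ 3) := Real.sq_sqrt (by positivity)
  have hs3 : 4 * β ^ 3 * s ^ 2 = 4 * β ^ 5 - 2 * d := by
    rw [hs2]; field_simp
  have hs3c : 4 * (β : ℂ) ^ 3 * (s : ℂ) ^ 2 = 4 * (β : ℂ) ^ 5 - 2 * d := by exact_mod_cast hs3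
  refine ⟨![1, β - Complex.I * s, β ^ 2 + Complex.I * s * β, β ^ 3 + Complex.I * s * β ^ 2,
    -(β ^ 4 : ℂ) + Complex.I * s * β ^ 3, -(d : ℂ)], ⟨?_, ?_⟩, ?_⟩
  · simp [pairV]
    linear_combination (norm := skip) (-1 : ℂ) * hs3c
    ring_nf
    simp only [Complex.I_sq]
    ring
  · have hre : (pairV ![1, (β : ℂ) - Complex.I * s, (β : ℂ) ^ 2 + Complex.I * s * β,
        (β : ℂ) ^ 3 + Complex.I * s * β ^ 2, -((β : ℂ) ^ 4) + Complex.I * s * β ^ 3, -(d : ℂ)]
        (fun i => (starRingEnd ℂ) (![1, (β : ℂ) - Complex.I * s, (β : ℂ) ^ 2 + Complex.I * s * β,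
        (β : ℂ) ^ 3 + Complex.I * s * β ^ 2, -((β : ℂ) ^ 4) + Complex.I * s * β ^ 3, -(d : ℂ)] i))) =
        (((4 * β ^ 5 - 2 * d) + 4 * β ^ 3 * s ^ 2 : ℝ) : ℂ) := by
      simp [pairV]
      ring_nf
      simp only [Complex.I_sq]
      ring
    rw [hre, Complex.ofReal_re, hs3]
    linarith
  · intro v
    constructor
    · intro h
      have hr := congrArg Complex.re h
      have h2 := hind ![v 5 - d * v 0, -v 4, v 3, v 2, v 1] (by
        simp [pairC, pairV, Complex.add_re, Complex.mul_re, Complex.sub_re, ← Complex.ofReal_pow] at hr ⊢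
        linarith)
      have e0 := h2 0
      have e1 := h2 1
      have e2 := h2 2
      have e3 := h2 3
      have e4 := h2 4
      simp at e0 e1 e2 e3 e4
      refine ⟨v 0, ?_⟩
      funext i
      fin_cases i
      · simp
      · simpa using e4
      · simpa using e3
      · simpa using e2
      · simpa using e1
      · simp; linarith
    · rintro ⟨r, rfl⟩
      simp [pairC, pairV]

end Pool.Agent.H.MP_072fb1_ag
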