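import Pool.Agent.H.MP_072fb1_ag.Model

/-! # The last step: no lattice automorphism of the required shape if `3 ∣ d` -/

namespace Pool.Agent.H.MP_072fb1_ag

open Matrix

/-- A finitely generated lattice has a common denominator. -/
theorem exists_denom {P : Submodule ℤ (Fin 2 → ℚ)} (hfg : P.FG) :
    ∃ N : ℤ, N ≠ 0 ∧ ∀ p ∈ P, ∀ i, ∃ z : ℤ, (N : ℚ) * p i = z := by
  obtain ⟨s, hs⟩ := hfg
  refine ⟨∏ v ∈ s, ∏ i, ((v i).den : ℤ), ?_, ?_⟩
  · refine Finset.prod_ne_zero_iff.2 fun v _ => Finset.prod_ne_zero_iff.2 fun i _ => ?_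
    exact_mod_cast (v i).den_nz
  · intro p hp
    rw [← hs] at hp
    induction hp using Submodule.span_induction with
    | mem x hx =>
      intro i
      have h1 : ((x i).den : ℤ) ∣ ∏ v ∈ s, ∏ i, ((v i).den : ℤ) :=
        (Finset.dvd_prod_of_mem (fun i => ((x i).den : ℤ)) (Finset.mem_univ i)).trans
          (Finset.dvd_prod_of_mem (fun v : Fin 2 → ℚ => ∏ i, ((v i).den : ℤ)) hx)
      obtain ⟨c, hc⟩ := h1
      refine ⟨c * (x i).num, ?_⟩
      rw [hc]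
      push_cast
      have h2 : ((x i).den : ℚ) * x i = (x i).num := by
        rw [mul_comm]; exact Rat.mul_den_eq_num (x i)
      calc ((x i).den : ℚ) * c * x i = c * (((x i).den : ℚ) * x i) := by ring
        _ = c * (x i).num := by rw [h2]
    | zero => intro i; exact ⟨0, by simp⟩
    | add x y _ _ hx hy =>
      intro i
      obtain ⟨a, ha⟩ := hx i
      obtain ⟨b, hb⟩ := hy i
      exact ⟨a + b, by rw [Pi.add_apply, mul_add, ha, hb]; push_cast; rfl⟩
    | smul a x _ hx =>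
      intro i
      obtain ⟨b, hb⟩ := hx i
      refine ⟨a * b, ?_⟩
      rw [Pi.smul_apply, zsmul_eq_mul, Int.cast_mul, ← hb]
      ring

/-- A nonzero lattice is not divisible by `3`. -/
theorem eq_zero_of_three {P : Submodule ℤ (Fin 2 → ℚ)} (hfg : P.FG)
    (h : ∀ p ∈ P, ∃ q ∈ P, p = (3 : ℚ) • q) : ∀ p ∈ P, p = 0 := by
  obtain ⟨N, hN, hz⟩ := exists_denom hfg
  have hk : ∀ k : ℕ, ∀ p ∈ P, ∃ q ∈ P, p = ((3 : ℚ) ^ k) • q := by
    intro k
    induction k with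
    | zero => intro p hp; exact ⟨p, hp, by simp⟩
    | succ k ih =>
      intro p hp
      obtain ⟨q, hq, rfl⟩ := ih p hp
      obtain ⟨q', hq', rfl⟩ := h q hq
      exact ⟨q', hq', by rw [smul_smul, pow_succ]⟩
  intro p hp
  funext i
  obtain ⟨z, hzi⟩ := hz p hp i
  have hz0 : z = 0 := by
    by_contra hne
    obtain ⟨q, hq, hpq⟩ := hk z.natAbs p hp
    obtain ⟨w, hw⟩ := hz q hq i
    have h1 : (z : ℚ) = (3 : ℚ) ^ z.natAbs * w := by
      rw [← hzi, hpq, Pi.smul_apply, smul_eq_mul, ← hw]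
      ring
    have h2 : z = 3 ^ z.natAbs * w := by exact_mod_cast h1
    have h3 : 3 ^ z.natAbs ∣ z.natAbs := by
      have h4 : ((3 ^ z.natAbs : ℕ) : ℤ) ∣ z := ⟨w, by push_cast; exact h2⟩
      exact Int.natCast_dvd.1 h4
    have h5 : 0 < z.natAbs := Int.natAbs_pos.2 hne
    have h6 := Nat.le_of_dvd h5 h3
    have h7 : z.natAbs < 3 ^ z.natAbs := Nat.lt_pow_self (by norm_num)
    omega
  rw [hz0] at hzi
  have hN' : (N : ℚ) ≠ 0 := by exact_mod_cast hN
  simpa [hN'] using hzi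

/-- Divisibility by `3` in `P` may be checked after multiplication by an integer prime to `3`. -/
theorem three_of_coprime {P : Submodule ℤ (Fin 2 → ℚ)} {z : Fin 2 → ℚ} (hz : z ∈ P) {m : ℤ}
    (hm : IsCoprime m 3) {q : Fin 2 → ℚ} (hq : q ∈ P) (h : (m : ℚ) • z = (3 : ℚ) • q) :
    ∃ q' ∈ P, z = (3 : ℚ) • q' := by
  obtain ⟨u, w, huw⟩ := hm
  refine ⟨u • q + w • z, P.add_mem (P.smul_mem _ hq) (P.smul_mem _ hz), ?_⟩
  have h1 : (u : ℚ) * m + w * 3 = 1 := by exact_mod_cast huw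
  funext i
  have h2 := congrFun h i
  rw [Pi.smul_apply, Pi.add_apply]
  rw [show (u • q) i = (u : ℚ) * q i by rw [Pi.smul_apply, zsmul_eq_mul],
    show (w • z) i = (w : ℚ) * z i by rw [Pi.smul_apply, zsmul_eq_mul]]
  simp only [Pi.smul_apply, smul_eq_mul] at h2 ⊢
  calc z i = ((u : ℚ) * m + w * 3) * z i := by rw [h1, one_mul]
    _ = u * (m * z i) + 3 * (w * z i) := by ring
    _ = 3 * (u * q i + w * z i) := by rw [h2]; ring

/-- the matrix with one nonzero row -/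
def rowM (k : Fin 4) (p : Fin 2 → ℚ) : Matrix (Fin 4) (Fin 2) ℚ := fun i => if i = k then p else 0

theorem rowM_self (k : Fin 4) (p : Fin 2 → ℚ) : rowM k p k = p := if_pos rfl

theorem rowM_ne {k i : Fin 4} (h : i ≠ k) (p : Fin 2 → ℚ) : rowM k p i = 0 := if_neg h

theorem rowM_mem {P : Submodule ℤ (Fin 2 → ℚ)} {p : Fin 2 → ℚ} (hp : p ∈ P) (k i : Fin 4) :
    rowM k p i ∈ P := by
  unfold rowM
  split_ifs
  · exact hp
  · exact P.zero_mem

theorem row_h0 (a b : ℚ) (x : Matrix (Fin 4) (Fin 2) ℚ) :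
    (toMat ![a, 0, 0, 0, 0, b] * x) 0 = a • x 1 := by
  ext j
  simp [Matrix.mul_apply, Fin.sum_univ_four, toMat]

theorem row_h2 (a b : ℚ) (x : Matrix (Fin 4) (Fin 2) ℚ) :
    (toMat ![a, 0, 0, 0, 0, b] * x) 2 = b • x 3 := by
  ext j
  simp [Matrix.mul_apply, Fin.sum_univ_four, toMat]

theorem row_mulC (Y : Matrix (Fin 4) (Fin 2) ℚ) (C : Matrix (Fin 2) (Fin 2) ℚ) (i : Fin 4) :
    (Y * C) i = Y i ᵥ* C := by
  rw [Matrix.mul_apply_eq_vecMul]

theorem zero_row (i : Fin 4) (C : Matrix (Fin 2) (Fin 2) ℚ) :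
    (0 : Matrix (Fin 4) (Fin 2) ℚ) i ᵥ* C = 0 := Matrix.zero_vecMul C

theorem zsmul_row (n : ℤ) (v : Fin 2 → ℚ) (i : Fin 2) : (n • v) i = (n : ℚ) * v i := by
  rw [Pi.smul_apply, zsmul_eq_mul]

theorem final (d : ℕ) (h3 : 3 ∣ d) (P : Submodule ℤ (Fin 2 → ℚ)) (μ : ℚ)
    (hμ : μ ≠ 0) (hfg : P.FG) (hspan : Submodule.span ℚ (P : Set (Fin 2 → ℚ)) = ⊤)
    (M : Submodule ℤ S0)
    (hM : ∀ s : S0, s ∈ M ↔ (∀ i, s.1 i ∈ P) ∧ (∀ i, μ⁻¹ • s.2 i ∈ P))
    (A B C : Matrix (Fin 2) (Fin 2) ℚ) (e : ℚ) (he : e ^ 2 = 1) (g : S0 ≃ₗ[ℚ] S0)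
    (hg : ∀ x y : Matrix (Fin 4) (Fin 2) ℚ,
        g (x, y) = (toMat ![1, 0, 0, 0, 0, (d : ℚ)] * x * C - (3 * e) • (y * A),
          x * A + toMat ![(d : ℚ), 0, 0, 0, 0, 1] * y * B))
    (hgM : Preserves g M) : False := by
  -- the rows of g(x, y)
  have r0 : ∀ x y, (g (x, y)).1 0 = x 1 ᵥ* C - (3 * e) • (y 0 ᵥ* A) := by
    intro x y
    rw [hg]
    show (toMat ![1, 0, 0, 0, 0, (d : ℚ)] * x * C) 0 - (3 * e) • ((y * A) 0) = _
    rw [row_mulC, row_mulC, row_h0, one_smul]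
  have r2 : ∀ x y, (g (x, y)).1 2 = (d : ℚ) • (x 3 ᵥ* C) - (3 * e) • (y 2 ᵥ* A) := by
    intro x y
    rw [hg]
    show (toMat ![1, 0, 0, 0, 0, (d : ℚ)] * x * C) 2 - (3 * e) • ((y * A) 2) = _
    rw [row_mulC, row_mulC, row_h2, Matrix.smul_vecMul]
  have s0 : ∀ x y, (g (x, y)).2 0 = x 0 ᵥ* A + (d : ℚ) • (y 1 ᵥ* B) := by
    intro x y
    rw [hg]
    show (x * A) 0 + (toMat ![(d : ℚ), 0, 0, 0, 0, 1] * y * B) 0 = _
    rw [row_mulC, row_mulC, row_h0, Matrix.smul_vecMul]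
  have s2 : ∀ x y, (g (x, y)).2 2 = x 2 ᵥ* A + y 3 ᵥ* B := by
    intro x y
    rw [hg]
    show (x * A) 2 + (toMat ![(d : ℚ), 0, 0, 0, 0, 1] * y * B) 2 = _
    rw [row_mulC, row_mulC, row_h2, one_smul]
  -- rows of elements of M
  have mem1 : ∀ k p, p ∈ P → ((rowM k p, 0) : S0) ∈ M := by
    intro k p hp
    rw [hM]
    refine ⟨fun i => rowM_mem hp k i, fun i => ?_⟩
    show μ⁻¹ • (0 : Fin 2 → ℚ) ∈ P
    rw [smul_zero]
    exact P.zero_mem
  have hmul : ∀ (k i : Fin 4) (p : Fin 2 → ℚ), μ⁻¹ • rowM k (μ • p) i = rowM k p i := by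
    intro k i p
    unfold rowM
    split_ifs
    · rw [smul_smul, inv_mul_cancel₀ hμ, one_smul]
    · rw [smul_zero]
  have mem2 : ∀ k p, p ∈ P → ((0, rowM k (μ • p)) : S0) ∈ M := by
    intro k p hp
    rw [hM]
    refine ⟨fun i => ?_, fun i => ?_⟩
    · show (0 : Fin 2 → ℚ) ∈ P
      exact P.zero_mem
    · rw [hmul]
      exact rowM_mem hp k i
  -- the four facts
  have fC : ∀ p ∈ P, p ᵥ* C ∈ P := by
    intro p hp
    have h1 := ((hM _).1 ((hgM _).2 (mem1 1 p hp))).1 0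
    rwa [r0, rowM_self, zero_row, smul_zero, sub_zero] at h1
  have fA : ∀ p ∈ P, μ⁻¹ • (p ᵥ* A) ∈ P := by
    intro p hp
    have h1 := ((hM _).1 ((hgM _).2 (mem1 0 p hp))).2 0
    rwa [s0, rowM_self, zero_row, smul_zero, add_zero] at h1
  have fB : ∀ p ∈ P, p ᵥ* B ∈ P := by
    intro p hp
    have h1 := ((hM _).1 ((hgM _).2 (mem2 3 p hp))).2 2
    rwa [s2, rowM_self, Matrix.smul_vecMul, zero_row, zero_add, smul_smul, inv_mul_cancel₀ hμ,
      one_smul] at h1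
  have he' : e = 1 ∨ e = -1 := by
    have : (e - 1) * (e + 1) = 0 := by ring_nf; linarith
    rcases mul_eq_zero.1 this with h | h
    · left; linarith
    · right; linarith
  have fE : ∀ p ∈ P, (3 * μ) • (p ᵥ* A) ∈ P := by
    intro p hp
    have h1 := ((hM _).1 ((hgM _).2 (mem2 0 p hp))).1 0
    rw [r0, rowM_self, Matrix.smul_vecMul, smul_smul, zero_row, zero_sub] at h1
    rcases he' with rfl | rfl
    · have h3 := P.neg_mem h1
      rw [neg_neg, mul_one] at h3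
      exact h3
    · rw [← neg_smul] at h1
      have h4 : -(3 * (-1) * μ) = 3 * μ := by ring
      rwa [h4] at h1
  obtain ⟨d', rfl⟩ := h3
  have hd3 : (((3 * d' : ℕ) : ℕ) : ℚ) = 3 * d' := by push_cast; rfl
  -- every element of P is divisible by 3
  have key : ∀ p ∈ P, ∃ q ∈ P, p = (3 : ℚ) • q := by
    by_cases hcase : (3 : ℤ) ∣ (μ.den : ℤ)
    · -- then `3` does not divide the numerator
      obtain ⟨k, hk⟩ := hcase
      have hnum : IsCoprime (μ.num ^ 2) (3 : ℤ) := by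
        apply IsCoprime.pow_left
        have h1 : IsCoprime μ.num (μ.den : ℤ) := by
          rw [Int.isCoprime_iff_gcd_eq_one]
          exact μ.reduced
        rw [hk] at h1
        exact h1.of_mul_right_left
      have hμk : μ * (3 * k) = μ.num := by
        have h1 := Rat.mul_den_eq_num μ
        have h2 : (μ.den : ℚ) = 3 * k := by exact_mod_cast hk
        rw [h2] at h1
        exact h1
      have hA3 : ∀ p ∈ P, ∃ q ∈ P, μ⁻¹ • (p ᵥ* A) = (3 : ℚ) • q := by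
        intro p hp
        refine three_of_coprime (fA p hp) hnum (q := (k ^ 2) • ((3 * μ) • (p ᵥ* A)))
          (P.smul_mem _ (fE p hp)) ?_
        funext i
        rw [Pi.smul_apply, Pi.smul_apply, Pi.smul_apply, zsmul_row, Pi.smul_apply]
        simp only [smul_eq_mul]
        push_cast
        rw [← hμk]
        field_simp
      intro p hp
      have hs : g.symm (0, rowM 0 (μ • p)) ∈ M := by
        rw [← hgM, LinearEquiv.apply_symm_apply]
        exact mem2 0 p hp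
      set s := g.symm (0, rowM 0 (μ • p)) with hsdef
      have hgs : g (s.1, s.2) = (0, rowM 0 (μ • p)) := by
        rw [Prod.mk.eta, hsdef, LinearEquiv.apply_symm_apply]
      have h1 := s0 s.1 s.2
      rw [hgs] at h1
      have h1' : μ • p = s.1 0 ᵥ* A + (((3 * d' : ℕ) : ℕ) : ℚ) • (s.2 1 ᵥ* B) := by
        rw [← h1]
        exact (rowM_self 0 (μ • p)).symm
      obtain ⟨hs1, hs2⟩ := (hM s).1 hs
      obtain ⟨q, hq, hq'⟩ := hA3 _ (hs1 0)
      refine ⟨q + (d' : ℤ) • ((μ⁻¹ • s.2 1) ᵥ* B), P.add_mem hq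
        (P.smul_mem _ (fB _ (hs2 1))), ?_⟩
      have h2 : p = μ⁻¹ • (s.1 0 ᵥ* A) + (3 * (d' : ℚ)) • ((μ⁻¹ • s.2 1) ᵥ* B) := by
        have h3 : p = μ⁻¹ • (μ • p) := by rw [smul_smul, inv_mul_cancel₀ hμ, one_smul]
        rw [h3, h1', hd3, Matrix.smul_vecMul, smul_add, smul_comm μ⁻¹ (3 * (d' : ℚ))]
      rw [h2, hq', smul_add, mul_smul]
      congr 2
    · -- `3` does not divide the denominator
      have hden : IsCoprime (((μ.den : ℤ)) ^ 2) (3 : ℤ) := by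
        apply IsCoprime.pow_left
        exact ((Prime.coprime_iff_not_dvd Int.prime_three).2 hcase).symm
      have hμd : μ * μ.den = μ.num := Rat.mul_den_eq_num μ
      have hA3 : ∀ p ∈ P, ∃ q ∈ P, (3 * μ) • (p ᵥ* A) = (3 : ℚ) • q := by
        intro p hp
        refine three_of_coprime (fE p hp) hden (q := (μ.num ^ 2) • (μ⁻¹ • (p ᵥ* A)))
          (P.smul_mem _ (fA p hp)) ?_
        funext i
        rw [Pi.smul_apply, Pi.smul_apply, Pi.smul_apply, zsmul_row, Pi.smul_apply]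
        simp only [smul_eq_mul]
        push_cast
        rw [← hμd]
        field_simp
      intro p hp
      have hs : g.symm (rowM 2 p, 0) ∈ M := by
        rw [← hgM, LinearEquiv.apply_symm_apply]
        exact mem1 2 p hp
      set s := g.symm (rowM 2 p, 0) with hsdef
      have hgs : g (s.1, s.2) = (rowM 2 p, 0) := by
        rw [Prod.mk.eta, hsdef, LinearEquiv.apply_symm_apply]
      have h1 := r2 s.1 s.2
      rw [hgs] at h1
      have h1' : p = (((3 * d' : ℕ) : ℕ) : ℚ) • (s.1 3 ᵥ* C) - (3 * e) • (s.2 2 ᵥ* A) := by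
        rw [← h1]
        exact (rowM_self 2 p).symm
      obtain ⟨hs1, hs2⟩ := (hM s).1 hs
      obtain ⟨q, hq, hq'⟩ := hA3 _ (hs2 2)
      have h2 : (3 * μ) • ((μ⁻¹ • s.2 2) ᵥ* A) = (3 : ℚ) • (s.2 2 ᵥ* A) := by
        rw [Matrix.smul_vecMul, smul_smul]
        congr 1
        field_simp
      rw [h2] at hq'
      have h3 : s.2 2 ᵥ* A = q := by
        have h4 : (3 : ℚ)⁻¹ • ((3 : ℚ) • (s.2 2 ᵥ* A)) = (3 : ℚ)⁻¹ • ((3 : ℚ) • q) := by
          rw [hq']
        rwa [smul_smul, smul_smul, inv_mul_cancel₀ (by norm_num), one_smul, one_smul] at h4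
      have heq : e • q ∈ P := by
        rcases he' with rfl | rfl
        · rwa [one_smul]
        · rw [neg_smul, one_smul]; exact P.neg_mem hq
      refine ⟨(d' : ℤ) • (s.1 3 ᵥ* C) - e • q, P.sub_mem (P.smul_mem _ (fC _ (hs1 3))) heq, ?_⟩
      rw [h1', hd3, h3, smul_sub, mul_smul, mul_smul]
      congr 2
  have hzero := eq_zero_of_three hfg key
  have hbot : (P : Set (Fin 2 → ℚ)) ⊆ {0} := fun p hp => hzero p hp
  have h5 : Submodule.span ℚ (P : Set (Fin 2 → ℚ)) ≤ ⊥ := by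
    rw [← Submodule.span_singleton_eq_bot.2 (rfl : (0 : Fin 2 → ℚ) = 0)]
    exact Submodule.span_mono hbot
  rw [hspan, top_le_iff] at h5
  have h6 : (fun _ => 1 : Fin 2 → ℚ) ∈ (⊥ : Submodule ℚ (Fin 2 → ℚ)) := by
    rw [h5]; exact Submodule.mem_top
  rw [Submodule.mem_bot] at h6
  have := congrFun h6 0
  simp at this

end Pool.Agent.H.MP_072fb1_ag
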