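import Pool.Agent.H.MP_072fb1_ag.Defs

/-! # Module Hodge -/

namespace Pool.Agent.H.MP_072fb1_ag

open Matrix

namespace Hodge

theorem odd_isometry {n : ℕ} (hn : Odd n) (G Φ : Matrix (Fin n) (Fin n) ℚ) (hG : G.det ≠ 0)
    (h : Φᵀ * G * Φ = G) : ∃ ε : ℚ, ε ^ 2 = 1 ∧ ∃ v : Fin n → ℚ, v ≠ 0 ∧ Φ *ᵥ v = ε • v := by
  have h1 : Φ.det * Φ.det = 1 := by
    have h2 := congrArg Matrix.det h
    rw [Matrix.det_mul, Matrix.det_mul, Matrix.det_transpose] at h2
    have h3 : G.det * (Φ.det * Φ.det - 1) = 0 := by linear_combination h2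
    rcases mul_eq_zero.1 h3 with h4 | h4
    · exact absurd h4 hG
    · linear_combination h4
  set ε := Φ.det with hε
  refine ⟨ε, by rw [sq]; exact h1, ?_⟩
  have h5 : (Φ - ε • (1 : Matrix (Fin n) (Fin n) ℚ))ᵀ * G * Φ =
      (-ε) • (G * (Φ - ε • (1 : Matrix (Fin n) (Fin n) ℚ))) := by
    rw [Matrix.transpose_sub, Matrix.transpose_smul, Matrix.transpose_one, Matrix.sub_mul,
      Matrix.sub_mul, h, Matrix.smul_mul, Matrix.smul_mul, Matrix.one_mul, Matrix.mul_sub,
      Matrix.mul_smul, Matrix.mul_one, smul_sub, smul_smul]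
    have : -ε * ε = -1 := by rw [neg_mul, h1]
    rw [this, neg_smul, neg_smul, one_smul]
    abel
  have h6 := congrArg Matrix.det h5
  rw [Matrix.det_mul, Matrix.det_mul, Matrix.det_transpose, Matrix.det_smul, Matrix.det_mul,
    Fintype.card_fin, hn.neg_pow, ← hε] at h6
  have h7 : ε ^ n = ε := by
    obtain ⟨m, rfl⟩ := hn
    rw [pow_succ, pow_mul, sq, h1, one_pow, one_mul]
  rw [h7] at h6
  have h8 : (Φ - ε • (1 : Matrix (Fin n) (Fin n) ℚ)).det = 0 := by
    have h9 : (2 * ε * G.det) * (Φ - ε • (1 : Matrix (Fin n) (Fin n) ℚ)).det = 0 := by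
      linear_combination h6
    rcases mul_eq_zero.1 h9 with h10 | h10
    · exfalso
      have h11 : ε ≠ 0 := by
        intro h0
        rw [h0] at h1
        norm_num at h1
      exact (mul_ne_zero (mul_ne_zero two_ne_zero h11) hG) h10
    · exact h10
  obtain ⟨v, hv, hv'⟩ := Matrix.exists_mulVec_eq_zero_iff.2 h8
  refine ⟨v, hv, ?_⟩
  rw [Matrix.sub_mulVec, Matrix.smul_mulVec, Matrix.one_mulVec, sub_eq_zero] at hv'
  exact hv'

/-- Coordinates on the orthogonal complement of `h`. -/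
def inc (d : ℚ) (u : Fin 5 → ℚ) : Fin 6 → ℚ := ![u 0, u 1, u 2, u 3, u 4, -d * u 0]

/-- Gram matrix of the orthogonal complement of `h`. -/
def gram (d : ℚ) : Matrix (Fin 5) (Fin 5) ℚ :=
  !![-(2 * d), 0, 0, 0, 0; 0, 0, 0, 0, -1; 0, 0, 0, 1, 0; 0, 0, 1, 0, 0; 0, -1, 0, 0, 0]

theorem pairV_inc (d : ℚ) (u v : Fin 5 → ℚ) :
    pairV (inc d u) (inc d v) = u ⬝ᵥ (gram d *ᵥ v) := by
  simp [pairV, inc, gram, Matrix.mulVec, dotProduct, Fin.sum_univ_succ]
  ring

theorem gram_det {d : ℚ} (hd : d ≠ 0) : (gram d).det ≠ 0 := by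
  have h : gram d * !![-(2 * d)⁻¹, 0, 0, 0, 0; 0, 0, 0, 0, -1; 0, 0, 0, 1, 0; 0, 0, 1, 0, 0;
      0, -1, 0, 0, 0] = 1 := by
    ext i j
    fin_cases i <;> fin_cases j <;> simp [gram, Matrix.mul_apply, Fin.sum_univ_succ]
    field_simp
  intro h0
  have h1 := congrArg Matrix.det h
  rw [Matrix.det_mul, h0, zero_mul, Matrix.det_one] at h1
  exact zero_ne_one h1

theorem inc_proj {d : ℚ} {t : Fin 6 → ℚ} (ht : pairV t ![1, 0, 0, 0, 0, d] = 0) :
    inc d ![t 0, t 1, t 2, t 3, t 4] = t := by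
  have h : t 5 = -d * t 0 := by
    simp [pairV] at ht
    linear_combination ht
  ext i
  fin_cases i <;> simp [inc, h]

theorem pairV_inc_h (d : ℚ) (u : Fin 5 → ℚ) : pairV (inc d u) ![1, 0, 0, 0, 0, d] = 0 := by
  simp [pairV, inc]
  ring

theorem dualV_dualV {K : Type*} [CommRing K] (v : Fin 6 → K) : dualV (dualV v) = v := by
  ext i
  fin_cases i <;> simp [dualV]

theorem pairV_dualV {K : Type*} [CommRing K] (v w : Fin 6 → K) :
    pairV (dualV v) (dualV w) = pairV v w := by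
  simp [pairV, dualV]
  ring

theorem pairC_dualV (v : Fin 6 → ℚ) (σ : Fin 6 → ℂ) :
    pairC v (dualV σ) = pairC (dualV v) σ := by
  simp [pairC, pairV, dualV]
  ring

theorem pairC_sub (v w : Fin 6 → ℚ) (σ : Fin 6 → ℂ) :
    pairC (v - w) σ = pairC v σ - pairC w σ := by
  simp [pairC, pairV]
  ring

theorem pairC_smul (r : ℚ) (v : Fin 6 → ℚ) (σ : Fin 6 → ℂ) :
    pairC (r • v) σ = (r : ℂ) * pairC v σ := by
  simp [pairC, pairV]
  ring

theorem ne_zero_of_period {σ : Fin 6 → ℂ} (hσ : IsPeriod σ) (h : ∀ v : Fin 6 → ℚ, pairC v σ = 0) :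
    False := by
  have h0 : σ = 0 := by
    ext i
    have h1 := h (Pi.single 5 1)
    have h2 := h (Pi.single 4 1)
    have h3 := h (Pi.single 3 1)
    have h4 := h (Pi.single 2 1)
    have h5 := h (Pi.single 1 1)
    have h6 := h (Pi.single 0 1)
    simp [pairC, pairV] at h1 h2 h3 h4 h5 h6
    fin_cases i <;> simp_all
  have h2 := hσ.2
  rw [h0] at h2
  simp [pairV] at h2

end Hodge

open Hodge

theorem hodge {σ : Fin 6 → ℂ} {d : ℕ} (hd : 0 < d) (hσ : IsPeriod σ) (hN : NeronSeveri σ d)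
    (ψ : Ht ℚ ≃ₗ[ℚ] Ht ℚ) (hψ : ∀ x y, pair (ψ x) (ψ y) = pair x y) (c : ℂ)
    (hc : ∀ x, pairC (ψ x).1 (dualV σ) = c * pairC x.1 σ) :
    (∃ ε : ℚ, ε ^ 2 = 1 ∧ ∀ t : Fin 6 → ℚ, pairV t ![1, 0, 0, 0, 0, (d : ℚ)] = 0 →
      ψ (t, 0) = (ε • dualV t, 0)) ∧
    ∀ x : Ht ℚ, (∃ r : ℚ, x.1 = r • ![1, 0, 0, 0, 0, (d : ℚ)]) ↔
      ∃ r : ℚ, (ψ x).1 = r • ![(d : ℚ), 0, 0, 0, 0, 1] := by
  have hd0 : (d : ℚ) ≠ 0 := by exact_mod_cast hd.ne'
  have hdualh : dualV ![1, 0, 0, 0, 0, (d : ℚ)] = ![(d : ℚ), 0, 0, 0, 0, 1] := by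
    ext i
    fin_cases i <;> simp [dualV]
  have hc0 : c ≠ 0 := by
    rintro rfl
    refine ne_zero_of_period hσ fun v => ?_
    have h1 := hc (ψ.symm (dualV v, 0))
    rw [LinearEquiv.apply_symm_apply, zero_mul, pairC_dualV, dualV_dualV] at h1
    exact h1
  have h2 : ∀ x : Ht ℚ, (∃ r : ℚ, x.1 = r • ![1, 0, 0, 0, 0, (d : ℚ)]) ↔
      ∃ r : ℚ, (ψ x).1 = r • ![(d : ℚ), 0, 0, 0, 0, 1] := by
    intro x
    rw [← hN x.1]
    have h3 : pairC x.1 σ = 0 ↔ pairC (dualV (ψ x).1) σ = 0 := by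
      rw [← pairC_dualV, hc x, mul_eq_zero]
      constructor
      · intro h; exact Or.inr h
      · rintro (h | h)
        · exact absurd h hc0
        · exact h
    rw [h3, hN]
    constructor
    · rintro ⟨r, hr⟩
      refine ⟨r, ?_⟩
      rw [← dualV_dualV (ψ x).1, hr, ← hdualh]
      ext i
      fin_cases i <;> simp [dualV]
    · rintro ⟨r, hr⟩
      refine ⟨r, ?_⟩
      rw [hr, ← hdualh]
      ext i
      fin_cases i <;> simp [dualV]
  refine ⟨?_, h2⟩
  -- `ψ` maps `T` to the orthogonal complement of `h*`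
  have h4 : ∀ t : Fin 6 → ℚ, pairV t ![1, 0, 0, 0, 0, (d : ℚ)] = 0 →
      (ψ (t, 0)).2 = 0 ∧ pairV (dualV (ψ (t, 0)).1) ![1, 0, 0, 0, 0, (d : ℚ)] = 0 := by
    intro t ht
    have h5 : ∀ (r : ℚ) (w : Fin 3 → ℚ), pair (ψ (t, 0)) (r • ![(d : ℚ), 0, 0, 0, 0, 1], w) = 0 := by
      intro r w
      obtain ⟨x, hx⟩ := ψ.surjective (r • ![(d : ℚ), 0, 0, 0, 0, 1], w)
      have h6 : ∃ r : ℚ, x.1 = r • ![1, 0, 0, 0, 0, (d : ℚ)] := by
        rw [h2 x, hx]
        exact ⟨r, rfl⟩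
      obtain ⟨r', hr'⟩ := h6
      rw [← hx, hψ]
      simp [pair, pairV, hr'] at ht ⊢
      linear_combination r' * ht
    refine ⟨?_, ?_⟩
    · have h7 := h5 0 ![1, 0, 0]
      have h8 := h5 0 ![0, 1, 0]
      have h9 := h5 0 ![0, 0, 1]
      simp [pair, pairV] at h7 h8 h9
      ext i
      fin_cases i <;> simp [h7, h8, h9]
    · have h10 := h5 1 0
      simp [pair, pairV] at h10
      simp [pairV, dualV]
      linear_combination h10
  -- the isometry in coordinates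
  let φ : (Fin 5 → ℚ) →ₗ[ℚ] (Fin 5 → ℚ) :=
    { toFun := fun u => ![dualV (ψ (inc d u, 0)).1 0, dualV (ψ (inc d u, 0)).1 1,
        dualV (ψ (inc d u, 0)).1 2, dualV (ψ (inc d u, 0)).1 3, dualV (ψ (inc d u, 0)).1 4]
      map_add' := by
        intro u v
        have h : ((inc d (u + v), 0) : Ht ℚ) = (inc d u, 0) + (inc d v, 0) := by
          refine Prod.ext ?_ (by simp)
          ext i
          fin_cases i <;> simp [inc]
          ring
        rw [h, map_add]
        ext i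
        fin_cases i <;> simp [dualV] <;> ring
      map_smul' := by
        intro r u
        have h : ((inc d (r • u), 0) : Ht ℚ) = r • (inc d u, 0) := by
          refine Prod.ext ?_ (by simp)
          ext i
          fin_cases i <;> simp [inc]
          ring
        rw [h, map_smul]
        ext i
        fin_cases i <;> simp [dualV] }
  have hφ : ∀ u, inc d (φ u) = dualV (ψ (inc d u, 0)).1 := fun u =>
    inc_proj (h4 _ (pairV_inc_h _ _)).2
  have hψ1 : ∀ u, ψ (inc d u, 0) = (dualV (inc d (φ u)), 0) := by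
    intro u
    rw [hφ, dualV_dualV]
    exact Prod.ext rfl (h4 _ (pairV_inc_h _ _)).1
  have hiso : ∀ u v, pairV (inc d (φ u)) (inc d (φ v)) = pairV (inc d u) (inc d v) := by
    intro u v
    have h := hψ (inc d u, 0) (inc d v, 0)
    rw [hψ1, hψ1] at h
    simp only [pair] at h
    rw [pairV_dualV] at h
    simpa using h
  set Φ : Matrix (Fin 5) (Fin 5) ℚ := LinearMap.toMatrix' φ with hΦ
  have hΦ' : ∀ u, Φ *ᵥ u = φ u := fun u => by rw [hΦ, LinearMap.toMatrix'_mulVec]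
  have hmat : Φᵀ * gram d * Φ = gram d := by
    ext i j
    have h := hiso (Pi.single i 1) (Pi.single j 1)
    rw [pairV_inc, pairV_inc, ← hΦ', ← hΦ', Matrix.mulVec_single_one, Matrix.mulVec_single_one,
      Matrix.mulVec_single_one, single_one_dotProduct] at h
    rw [Matrix.mul_assoc, Matrix.mul_apply]
    simp only [Matrix.col_apply] at h
    rw [← h]
    simp [dotProduct, Matrix.mulVec, Matrix.mul_apply, Matrix.col]
  obtain ⟨ε, hε, y, hy, hyε⟩ := odd_isometry (by decide) (gram d) Φ (gram_det hd0) hmat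
  rw [hΦ'] at hyε
  refine ⟨ε, hε, ?_⟩
  have hker : ∀ u : Fin 5 → ℚ, pairC (inc d u) σ = 0 → u = 0 := by
    intro u hu
    obtain ⟨r, hr⟩ := (hN _).1 hu
    have h11 := pairV_inc_h d u
    rw [hr] at h11
    simp [pairV] at h11
    have h12 : r = 0 := by
      rcases h11 with h | h
      · exact h
      · exact absurd h hd.ne'
    rw [h12, zero_smul] at hr
    ext i
    have h13 := congrFun hr 0
    have h14 := congrFun hr 1
    have h15 := congrFun hr 2
    have h16 := congrFun hr 3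
    have h17 := congrFun hr 4
    simp only [inc, Pi.zero_apply] at h13 h14 h15 h16 h17
    fin_cases i
    · exact h13
    · exact h14
    · exact h15
    · exact h16
    · exact h17
  have hcφ : ∀ u, pairC (inc d (φ u)) σ = c * pairC (inc d u) σ := by
    intro u
    rw [hφ, ← pairC_dualV]
    exact hc (inc d u, 0)
  have hinc_smul : ∀ (r : ℚ) u, inc d (r • u) = r • inc d u := by
    intro r u
    ext i
    fin_cases i <;> simp [inc]
    ring
  have hinc_sub : ∀ u v, inc d (u - v) = inc d u - inc d v := by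
    intro u v
    ext i
    fin_cases i <;> simp [inc]
    ring
  have hcε : c = ε := by
    have h := hcφ y
    rw [hyε, hinc_smul, pairC_smul] at h
    have h0 : pairC (inc d y) σ ≠ 0 := fun h0 => hy (hker y h0)
    exact (mul_right_cancel₀ h0 h).symm
  have hall : ∀ u, φ u = ε • u := by
    intro u
    have h : pairC (inc d (φ u - ε • u)) σ = 0 := by
      rw [hinc_sub, pairC_sub, hcφ, hinc_smul, pairC_smul, hcε, sub_self]
    exact sub_eq_zero.1 (hker _ h)
  intro t ht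
  rw [← inc_proj ht, hψ1, hall, hinc_smul]
  refine Prod.ext ?_ rfl
  ext i
  fin_cases i <;> simp [dualV]

end Pool.Agent.H.MP_072fb1_ag
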