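import Pool.Agent.H.MP_072fb1_ag.Defs

/-! # The Hodge isometry of the second cohomology lattices -/

namespace Pool.Agent.H.MP_072fb1_ag

open Matrix

/-- The Beauville–Bogomolov form of `H²(X, ℤ) = Λ²L* ⊕ ℤδ` for `X = Kum₂(A)`; `(δ, δ) = -6`. -/
def bb (x y : (Fin 6 → ℤ) × ℤ) : ℤ := pairV x.1 y.1 - 6 * (x.2 * y.2)

/-- `H²(X, ℤ)` and `H²(Y, ℤ)` are Hodge isometric, for `X = Kum₂(A)`, `Y = Kum₂(B)` with periods
`σ`, `τ`: a group isomorphism `φ` compatible with the forms and mapping `H^{2,0}(X) = ℂσ` onto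
`H^{2,0}(Y) = ℂτ` (that is, `(φ x, τ) = c (x, σ)` for all `x`, with `c ≠ 0`). -/
def HodgeIsometric (σ τ : Fin 6 → ℂ) : Prop :=
  ∃ (φ : ((Fin 6 → ℤ) × ℤ) ≃+ ((Fin 6 → ℤ) × ℤ)) (c : ℂ), c ≠ 0 ∧
    (∀ x y, bb (φ x) (φ y) = bb x y) ∧
    ∀ x, pairV (fun i => (((φ x).1 i : ℤ) : ℂ)) τ = c * pairV (fun i => ((x.1 i : ℤ) : ℂ)) σ

/-- `dualV` as a group automorphism, extended by the identity on `ℤδ`. -/
def dualEquiv : ((Fin 6 → ℤ) × ℤ) ≃+ ((Fin 6 → ℤ) × ℤ) where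
  toFun x := (dualV x.1, x.2)
  invFun x := (dualV x.1, x.2)
  left_inv x := by
    refine Prod.ext ?_ rfl
    ext i; fin_cases i <;> simp [dualV]
  right_inv x := by
    refine Prod.ext ?_ rfl
    ext i; fin_cases i <;> simp [dualV]
  map_add' x y := by
    refine Prod.ext ?_ rfl
    ext i; fin_cases i <;> simp [dualV, add_comm]

theorem dualEquiv_apply (x : (Fin 6 → ℤ) × ℤ) : dualEquiv x = (dualV x.1, x.2) := rfl

theorem hodgeIsometric_dual (σ : Fin 6 → ℂ) : HodgeIsometric σ (dualV σ) := by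
  refine ⟨dualEquiv, 1, one_ne_zero, fun x y => ?_, fun x => ?_⟩
  · simp only [dualEquiv_apply, bb, pairV, dualV, Matrix.cons_val]
    ring
  · simp only [dualEquiv_apply, pairV, dualV, Matrix.cons_val, Int.cast_neg]
    ring

theorem isPeriod_dual (σ : Fin 6 → ℂ) (h : IsPeriod σ) : IsPeriod (dualV σ) := by
  have h1 : pairV (dualV σ) (dualV σ) = pairV σ σ := by
    simp only [pairV, dualV, Matrix.cons_val]
    ring
  have h2 : pairV (dualV σ) (fun i => (starRingEnd ℂ) (dualV σ i)) =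
      pairV σ (fun i => (starRingEnd ℂ) (σ i)) := by
    simp only [pairV, dualV, Matrix.cons_val, map_neg]
    ring
  exact ⟨h1.trans h.1, by rw [h2]; exact h.2⟩

end Pool.Agent.H.MP_072fb1_ag
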