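import Pool.Agent.H.MP_072fb1_ag.Block

/-! # The relation coming from the algebraic part -/

namespace Pool.Agent.H.MP_072fb1_ag

open Matrix

theorem dual_h (a b : ℚ) : dualV ![a, 0, 0, 0, 0, b] = ![b, 0, 0, 0, 0, a] := by
  ext i; fin_cases i <;> simp [dualV]

theorem dual_dual (v : Fin 6 → ℚ) : dualV (dualV v) = v := by
  ext i; fin_cases i <;> simp [dualV]

theorem H_mul (a b : ℚ) : toMat ![a, 0, 0, 0, 0, b] * toMat ![b, 0, 0, 0, 0, a] =
    (-(a * b)) • (1 : Matrix (Fin 4) (Fin 4) ℚ) := by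
  ext i j
  fin_cases i <;> fin_cases j <;> simp [toMat] <;> ring

theorem H_mul' (a b : ℚ) (x : M42) :
    toMat ![a, 0, 0, 0, 0, b] * (toMat ![b, 0, 0, 0, 0, a] * x) = (-(a * b)) • x := by
  rw [← Matrix.mul_assoc, H_mul, Matrix.smul_mul, Matrix.one_mul]

/-- orientation operator of the algebraic part -/
def zz (H Hs : Matrix (Fin 4) (Fin 4) ℚ) : S0 →ₗ[ℚ] S0 where
  toFun s := ((-(3 : ℚ)) • (Hs * s.2), H * s.1)
  map_add' := by
    intro s t
    refine Prod.ext ?_ ?_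
    · show (-(3 : ℚ)) • (Hs * (s.2 + t.2)) = (-(3 : ℚ)) • (Hs * s.2) + (-(3 : ℚ)) • (Hs * t.2)
      rw [Matrix.mul_add, smul_add]
    · show H * (s.1 + t.1) = H * s.1 + H * t.1
      rw [Matrix.mul_add]
  map_smul' := by
    intro c s
    refine Prod.ext ?_ ?_
    · show (-(3 : ℚ)) • (Hs * (c • s.2)) = c • ((-(3 : ℚ)) • (Hs * s.2))
      rw [Matrix.mul_smul, smul_comm]
    · show H * (c • s.1) = c • (H * s.1)
      rw [Matrix.mul_smul]

theorem zz_apply (H Hs : Matrix (Fin 4) (Fin 4) ℚ) (x y : M42) :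
    zz H Hs (x, y) = ((-(3 : ℚ)) • (Hs * y), H * x) := rfl

theorem zz_sq (a b : ℚ) (s : S0) :
    zz (toMat ![a, 0, 0, 0, 0, b]) (toMat ![b, 0, 0, 0, 0, a])
      (zz (toMat ![a, 0, 0, 0, 0, b]) (toMat ![b, 0, 0, 0, 0, a]) s) = (3 * (a * b)) • s := by
  obtain ⟨x, y⟩ := s
  rw [zz_apply, zz_apply, H_mul', Matrix.mul_smul, H_mul', smul_smul, smul_smul]
  refine Prod.ext ?_ ?_
  · show (-3 * -(b * a)) • x = (3 * (a * b)) • x
    congr 1; ring
  · show (-3 * -(a * b)) • y = (3 * (a * b)) • y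
    congr 1; ring

theorem zz_N (a b : ℚ) (r r' : ℚ) (w w' : Fin 3 → ℚ) (s : S0) :
    zz (toMat ![a, 0, 0, 0, 0, b]) (toMat ![b, 0, 0, 0, 0, a])
      (kap0 (r • ![a, 0, 0, 0, 0, b], w) (r' • ![a, 0, 0, 0, 0, b], w') s) =
    kap0 (r • ![a, 0, 0, 0, 0, b], w) (r' • ![a, 0, 0, 0, 0, b], w')
      (zz (toMat ![a, 0, 0, 0, 0, b]) (toMat ![b, 0, 0, 0, 0, a]) s) := by
  obtain ⟨x, y⟩ := s
  simp only [kap0_apply, kapFun, zz_apply, toMat_smul, dualV_smul, dual_h]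
  refine Prod.ext ?_ ?_
  · simp only [Matrix.smul_mul, Matrix.mul_smul, Matrix.mul_add, Matrix.mul_sub, Matrix.mul_neg,
      Matrix.mul_assoc, H_mul', smul_add, smul_sub, smul_neg, smul_smul]
    ext i j
    simp only [Matrix.add_apply, Matrix.sub_apply, Matrix.neg_apply, Matrix.smul_apply, smul_eq_mul]
    ring
  · simp only [Matrix.smul_mul, Matrix.mul_smul, Matrix.mul_add, Matrix.mul_sub, Matrix.mul_neg,
      Matrix.mul_assoc, H_mul', smul_smul]
    ext i j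
    simp only [Matrix.add_apply, Matrix.sub_apply, Matrix.neg_apply, Matrix.smul_apply, smul_eq_mul]
    ring

theorem perp1 (a b : ℚ) (t : Fin 6 → ℚ) (ht : pairV t ![a, 0, 0, 0, 0, b] = 0) :
    toMat ![b, 0, 0, 0, 0, a] * toMat t = -(toMat (dualV t) * toMat ![a, 0, 0, 0, 0, b]) := by
  have := toMat_dual_anti t ![a, 0, 0, 0, 0, b]
  rw [ht, neg_zero, zero_smul, dual_h] at this
  exact eq_neg_of_add_eq_zero_right this

theorem perp2 (a b : ℚ) (t : Fin 6 → ℚ) (ht : pairV t ![a, 0, 0, 0, 0, b] = 0) :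
    toMat ![a, 0, 0, 0, 0, b] * toMat (dualV t) = -(toMat t * toMat ![b, 0, 0, 0, 0, a]) := by
  have := toMat_anti_dual t ![a, 0, 0, 0, 0, b]
  rw [ht, neg_zero, zero_smul, dual_h] at this
  exact eq_neg_of_add_eq_zero_right this

theorem zz_T (a b : ℚ) (t t' : Fin 6 → ℚ) (ht : pairV t ![a, 0, 0, 0, 0, b] = 0)
    (ht' : pairV t' ![a, 0, 0, 0, 0, b] = 0) (s : S0) :
    zz (toMat ![a, 0, 0, 0, 0, b]) (toMat ![b, 0, 0, 0, 0, a]) (kap0 (t, 0) (t', 0) s) =
    kap0 (t, 0) (t', 0) (zz (toMat ![a, 0, 0, 0, 0, b]) (toMat ![b, 0, 0, 0, 0, a]) s) := by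
  obtain ⟨x, y⟩ := s
  have e1 : toMat ![b, 0, 0, 0, 0, a] * (toMat t * toMat (dualV t')) =
      (toMat (dualV t) * toMat t') * toMat ![b, 0, 0, 0, 0, a] := by
    rw [← Matrix.mul_assoc, perp1 a b t ht, Matrix.neg_mul, Matrix.mul_assoc, perp2 a b t' ht',
      Matrix.mul_neg, neg_neg, Matrix.mul_assoc]
  have e2 : toMat ![a, 0, 0, 0, 0, b] * (toMat (dualV t) * toMat t') =
      (toMat t * toMat (dualV t')) * toMat ![a, 0, 0, 0, 0, b] := by
    rw [← Matrix.mul_assoc, perp2 a b t ht, Matrix.neg_mul, Matrix.mul_assoc, perp1 a b t' ht',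
      Matrix.mul_neg, neg_neg, Matrix.mul_assoc]
  rw [kap0_VV, kap0_VV, zz_apply, zz_apply]
  refine Prod.ext ?_ ?_
  · show (-(3 : ℚ)) • (toMat ![b, 0, 0, 0, 0, a] * -(toMat t * toMat (dualV t') * y)) =
      -(toMat (dualV t) * toMat t' * ((-(3 : ℚ)) • (toMat ![b, 0, 0, 0, 0, a] * y)))
    rw [Matrix.mul_neg, Matrix.mul_smul, smul_neg, ← Matrix.mul_assoc, e1, Matrix.mul_assoc]
  · show toMat ![a, 0, 0, 0, 0, b] * -(toMat (dualV t) * toMat t' * x) =
      -(toMat t * toMat (dualV t') * (toMat ![a, 0, 0, 0, 0, b] * x))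
    rw [Matrix.mul_neg, ← Matrix.mul_assoc, e2, Matrix.mul_assoc]

theorem cancelM {A B : Matrix (Fin 2) (Fin 2) ℚ} (h : ∀ x : M42, x * A = x * B) : A = B := by
  ext i j
  have := congrFun (congrFun (h (Matrix.single 0 i 1)) 0) j
  simpa [Matrix.mul_apply, Matrix.single_apply] using this

theorem scalarM {A : Matrix (Fin 2) (Fin 2) ℚ}
    (h : ∀ w w' : Fin 3 → ℚ, (mW w' * mW w) * A = A * (mW w' * mW w)) : ∃ a : ℚ, A = a • 1 := by
  have h1 := h ![1, 0, 0] ![0, 0, 1]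
  have h2 := h ![0, 1, 0] ![0, 0, 1]
  have a00 := congrFun (congrFun h1 1) 0
  have a01 := congrFun (congrFun h1 0) 0
  have b10 := congrFun (congrFun h2 0) 0
  simp [mW, Matrix.mul_apply, Fin.sum_univ_two] at a00 a01 b10
  refine ⟨A 0 0, ?_⟩
  ext i j
  fin_cases i <;> fin_cases j
  · simp
  · simpa using a01
  · simpa using b10
  · simpa using a00.symm

theorem kap0_VW (v : Fin 6 → ℚ) (w : Fin 3 → ℚ) (x y : M42) :
    kap0 (v, 0) (0, w) (x, y) =
      ((-(3 : ℚ)) • (toMat (dualV v) * y * mW w), toMat v * x * mW w) := by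
  have e1 : toMat (0 : Fin 6 → ℚ) = 0 := by
    ext i j; fin_cases i <;> fin_cases j <;> simp [toMat]
  have e2 : dualV (0 : Fin 6 → ℚ) = 0 := by
    ext i; fin_cases i <;> simp [dualV]
  simp [kap0_apply, kapFun, mW_zero, e1, e2]

theorem kap0_WW (w w' : Fin 3 → ℚ) (x y : M42) :
    kap0 (0, w) (0, w') (x, y) =
      ((-(3 : ℚ)) • (x * (mW w' * mW w)), (-(3 : ℚ)) • (y * (mW w' * mW w))) := by
  have e1 : toMat (0 : Fin 6 → ℚ) = 0 := by
    ext i j; fin_cases i <;> fin_cases j <;> simp [toMat]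
  have e2 : dualV (0 : Fin 6 → ℚ) = 0 := by
    ext i; fin_cases i <;> simp [dualV]
  simp [kap0_apply, kapFun, e1, e2]

/-- an endomorphism commuting with everything coming from the transcendental part and with the even
Clifford algebra of the algebraic part is `r + s z` -/
theorem commN (a b : ℚ) (ha : a ≠ 0) (hb : b ≠ 0) (F : S0 →ₗ[ℚ] S0)
    (hF : ∀ t t' : Fin 6 → ℚ, pairV t ![a, 0, 0, 0, 0, b] = 0 → pairV t' ![a, 0, 0, 0, 0, b] = 0 →
      ∀ s, F (kap0 (t, 0) (t', 0) s) = kap0 (t, 0) (t', 0) (F s))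
    (hN : ∀ x y : Ht ℚ, (∃ r : ℚ, x.1 = r • ![a, 0, 0, 0, 0, b]) →
      (∃ r : ℚ, y.1 = r • ![a, 0, 0, 0, 0, b]) → ∀ s, F (kap0 x y s) = kap0 x y (F s)) :
    ∃ r s : ℚ, ∀ p, F p =
      r • p + s • zz (toMat ![a, 0, 0, 0, 0, b]) (toMat ![b, 0, 0, 0, 0, a]) p := by
  obtain ⟨A, B, C, E, hG⟩ := block a b ha hb F hF
  rw [dual_h] at hG
  have hab : a * b ≠ 0 := mul_ne_zero ha hb
  have h0 : ∃ r : ℚ, (0 : Fin 6 → ℚ) = r • ![a, 0, 0, 0, 0, b] := ⟨0, by simp⟩
  -- commutation with `W ∧ W`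
  have hww : ∀ w w' : Fin 3 → ℚ, ∀ x y : M42,
      F ((-(3 : ℚ)) • (x * (mW w' * mW w)), (-(3 : ℚ)) • (y * (mW w' * mW w))) =
        ((-(3 : ℚ)) • ((F (x, y)).1 * (mW w' * mW w)), (-(3 : ℚ)) • ((F (x, y)).2 * (mW w' * mW w))) := by
    intro w w' x y
    have := hN (0, w) (0, w') h0 h0 (x, y)
    rw [kap0_WW] at this
    rw [this]
    exact kap0_WW w w' (F (x, y)).1 (F (x, y)).2
  have h3 : (-(3 : ℚ)) ≠ 0 := by norm_num
  obtain ⟨α, hα⟩ : ∃ α : ℚ, A = α • 1 := by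
    apply scalarM
    intro w w'
    apply cancelM
    intro x
    have := congrArg Prod.fst (hww w w' x 0)
    rw [hG, hG] at this
    simp only [Matrix.zero_mul, Matrix.mul_zero, smul_zero, add_zero, Matrix.smul_mul] at this
    have := smul_right_injective _ h3 this
    rw [← Matrix.mul_assoc, this, Matrix.mul_assoc]
  obtain ⟨ε, hε⟩ : ∃ ε : ℚ, E = ε • 1 := by
    apply scalarM
    intro w w'
    apply cancelM
    intro y
    have := congrArg Prod.snd (hww w w' 0 y)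
    rw [hG, hG] at this
    simp only [Matrix.zero_mul, Matrix.mul_zero, smul_zero, zero_add, Matrix.smul_mul] at this
    have := smul_right_injective _ h3 this
    rw [← Matrix.mul_assoc, this, Matrix.mul_assoc]
  obtain ⟨γ, hγ⟩ : ∃ γ : ℚ, C = γ • 1 := by
    apply scalarM
    intro w w'
    apply cancelM
    intro x
    have := congrArg Prod.snd (hww w w' (toMat ![b, 0, 0, 0, 0, a] * x) 0)
    rw [hG, hG] at this
    simp only [Matrix.zero_mul, smul_zero, add_zero, Matrix.smul_mul, Matrix.mul_smul,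
      Matrix.mul_assoc, H_mul'] at this
    have := smul_right_injective _ h3 this
    have := smul_right_injective _ (neg_ne_zero.mpr hab) this
    rw [Matrix.mul_assoc]
    exact this
  obtain ⟨β, hβ⟩ : ∃ β : ℚ, B = β • 1 := by
    apply scalarM
    intro w w'
    apply cancelM
    intro y
    have := congrArg Prod.fst (hww w w' 0 (toMat ![a, 0, 0, 0, 0, b] * y))
    rw [hG, hG] at this
    simp only [Matrix.zero_mul, smul_zero, zero_add, Matrix.smul_mul, Matrix.mul_smul,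
      Matrix.mul_assoc, H_mul'] at this
    have := smul_right_injective _ h3 this
    have := smul_right_injective _ (neg_ne_zero.mpr (mul_ne_zero hb ha)) this
    rw [Matrix.mul_assoc]
    exact this
  have hG' : ∀ x y : M42, F (x, y) = (α • x + β • (toMat ![b, 0, 0, 0, 0, a] * y),
      γ • (toMat ![a, 0, 0, 0, 0, b] * x) + ε • y) := by
    intro x y
    rw [hG, hα, hβ, hγ, hε]
    simp only [Matrix.mul_smul, Matrix.mul_one]
  have h1 : ∃ r : ℚ, (![a, 0, 0, 0, 0, b] : Fin 6 → ℚ) = r • ![a, 0, 0, 0, 0, b] := ⟨1, by simp⟩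
  have hvw := hN (![a, 0, 0, 0, 0, b], 0) (0, ![0, 0, 1]) h1 h0
  set x0 : M42 := Matrix.single 0 0 1 with hx0
  have k1 := hvw (x0, 0)
  rw [kap0_VW, hG', hG', kap0_VW, dual_h] at k1
  simp only [Matrix.mul_zero, Matrix.zero_mul, smul_zero, add_zero, zero_add] at k1
  have m1 := congrArg Prod.fst k1
  have m2 := congrArg (fun p : S0 => toMat ![b, 0, 0, 0, 0, a] * p.2) k1
  simp only [Matrix.smul_mul, Matrix.mul_smul, Matrix.mul_assoc, H_mul', smul_smul] at m1 m2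
  have m1' := congrFun (congrFun m1 0) 0
  have m2' := congrFun (congrFun m2 0) 0
  simp [hx0, mW, ha, hb] at m1' m2'
  have hβγ : β = -3 * γ := by
    have h4 : (β + 3 * γ) * (b * a) = 0 := by linarith
    rcases mul_eq_zero.mp h4 with h5 | h5
    · linarith
    · exact absurd h5 (mul_ne_zero hb ha)
  refine ⟨α, γ, fun p => ?_⟩
  obtain ⟨x, y⟩ := p
  rw [hG', zz_apply, m2', hβγ]
  refine Prod.ext ?_ ?_
  · show α • x + (-3 * γ) • (toMat ![b, 0, 0, 0, 0, a] * y) =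
      α • x + γ • ((-(3 : ℚ)) • (toMat ![b, 0, 0, 0, 0, a] * y))
    rw [smul_smul]
    congr 2
    ring
  · show γ • (toMat ![a, 0, 0, 0, 0, b] * x) + α • y = α • y + γ • (toMat ![a, 0, 0, 0, 0, b] * x)
    rw [add_comm]

theorem rel (d : ℕ) (hd : 0 < d) (g : S0 ≃ₗ[ℚ] S0) (ψ : Ht ℚ ≃ₗ[ℚ] Ht ℚ)
    (hg : ∀ x y s, g (kap0 x y s) = kap0 (ψ x) (ψ y) (g s)) (ε : ℚ) (hε : ε ^ 2 = 1)
    (h1 : ∀ t : Fin 6 → ℚ, pairV t ![1, 0, 0, 0, 0, (d : ℚ)] = 0 → ψ (t, 0) = (ε • dualV t, 0))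
    (h2 : ∀ x : Ht ℚ, (∃ r : ℚ, x.1 = r • ![1, 0, 0, 0, 0, (d : ℚ)]) ↔
      ∃ r : ℚ, (ψ x).1 = r • ![(d : ℚ), 0, 0, 0, 0, 1]) :
    ∃ (A B C : Matrix (Fin 2) (Fin 2) ℚ) (e : ℚ), e ^ 2 = 1 ∧
      ∀ x y : Matrix (Fin 4) (Fin 2) ℚ,
        g (x, y) = (toMat ![1, 0, 0, 0, 0, (d : ℚ)] * x * C - (3 * e) • (y * A),
          x * A + toMat ![(d : ℚ), 0, 0, 0, 0, 1] * y * B) := by
  have hd' : (d : ℚ) ≠ 0 := by exact_mod_cast hd.ne'
  have h1' : (1 : ℚ) ≠ 0 := one_ne_zero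
  set D : ℚ := (d : ℚ) with hD
  -- the orientation operators
  set zX : S0 →ₗ[ℚ] S0 := zz (toMat ![1, 0, 0, 0, 0, D]) (toMat ![D, 0, 0, 0, 0, 1]) with hzX
  set zY : S0 →ₗ[ℚ] S0 := zz (toMat ![D, 0, 0, 0, 0, 1]) (toMat ![1, 0, 0, 0, 0, D]) with hzY
  let u : S0 →ₗ[ℚ] S0 := g.toLinearMap ∘ₗ zX ∘ₗ g.symm.toLinearMap
  have hu : ∀ s, u (g s) = g (zX s) := by
    intro s
    show g (zX (g.symm (g s))) = g (zX s)
    rw [LinearEquiv.symm_apply_apply]
  have conj : ∀ x x' : Ht ℚ, (∀ s, zX (kap0 x x' s) = kap0 x x' (zX s)) →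
      ∀ s, u (kap0 (ψ x) (ψ x') s) = kap0 (ψ x) (ψ x') (u s) := by
    intro x x' hx s
    obtain ⟨s, rfl⟩ := g.surjective s
    rw [← hg, hu, hx, hg, hu]
  have hscale : ∀ t t' : Fin 6 → ℚ, ∀ s, kap0 (ε • t, 0) (ε • t', 0) s = kap0 (t, 0) (t', 0) s := by
    intro t t' s
    have e1 : ((ε • t, 0) : Ht ℚ) = ε • (t, 0) := by
      rw [Prod.smul_mk, smul_zero]
    have e2 : ((ε • t', 0) : Ht ℚ) = ε • (t', 0) := by
      rw [Prod.smul_mk, smul_zero]
    rw [e1, e2, map_smul, map_smul, LinearMap.smul_apply, LinearMap.smul_apply,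
      LinearMap.smul_apply, smul_smul, ← pow_two, hε, one_smul]
  have hperp : ∀ t : Fin 6 → ℚ, pairV t ![D, 0, 0, 0, 0, 1] = 0 →
      pairV (dualV t) ![1, 0, 0, 0, 0, D] = 0 := by
    intro t ht
    simp only [pairV, dualV, Matrix.cons_val] at ht ⊢
    linarith
  obtain ⟨r, s, hrs⟩ := commN D 1 hd' h1' u
    (by
      intro t t' ht ht' s
      have a1 := h1 (dualV t) (hperp t ht)
      have a2 := h1 (dualV t') (hperp t' ht')
      rw [dual_dual] at a1 a2
      have := conj (dualV t, 0) (dualV t', 0) (fun s => zz_T 1 D _ _ (hperp t ht) (hperp t' ht') s) s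
      rw [a1, a2, hscale, hscale] at this
      exact this)
    (by
      intro n n' hn hn' s
      obtain ⟨x, rfl⟩ := ψ.surjective n
      obtain ⟨x', rfl⟩ := ψ.surjective n'
      refine conj x x' (fun s => ?_) s
      obtain ⟨r, hr⟩ := (h2 x).2 hn
      obtain ⟨r', hr'⟩ := (h2 x').2 hn'
      have e1 : x = (r • ![1, 0, 0, 0, 0, D], x.2) := Prod.ext hr rfl
      have e2 : x' = (r' • ![1, 0, 0, 0, 0, D], x'.2) := Prod.ext hr' rfl
      rw [e1, e2]
      exact zz_N 1 D r r' x.2 x'.2 s)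
  have hrs' : ∀ p, u p = r • p + s • zY p := hrs
  -- `u² = 3D`
  have husq : ∀ p, u (u p) = (3 * (1 * D)) • p := by
    intro p
    obtain ⟨t, rfl⟩ := g.surjective p
    rw [hu, hu, hzX, zz_sq, map_smul]
  set x0 : M42 := Matrix.single 0 0 1 with hx0
  have hH0 : toMat ![D, 0, 0, 0, 0, 1] * x0 ≠ 0 := by
    intro h0
    have := H_mul' 1 D x0
    rw [h0, Matrix.mul_zero] at this
    have h5 := congrFun (congrFun this 0) 0
    simp [hx0] at h5
    exact hd' h5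
  have hH0' : toMat ![1, 0, 0, 0, 0, D] * x0 ≠ 0 := by
    intro h0
    have := H_mul' D 1 x0
    rw [h0, Matrix.mul_zero] at this
    have h5 := congrFun (congrFun this 0) 0
    simp [hx0] at h5
    exact hd' h5
  have hzYsq : ∀ p, zY (zY p) = (3 * (D * 1)) • p := fun p => by rw [hzY, zz_sq]
  have hexp := husq (x0, 0)
  rw [hrs', hrs', map_add, map_smul, map_smul, hzYsq] at hexp
  have hzYx : zY (x0, 0) = (0, toMat ![D, 0, 0, 0, 0, 1] * x0) := by
    rw [hzY, zz_apply, Matrix.mul_zero, smul_zero]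
  rw [hzYx] at hexp
  have q1 := congrFun (congrFun (congrArg Prod.fst hexp) 0) 0
  have q2 := congrArg Prod.snd hexp
  simp [hx0] at q1
  simp only [Prod.smul_mk, Prod.mk_add_mk, smul_zero, add_zero, zero_add] at q2
  rw [smul_smul, smul_smul, ← add_smul] at q2
  have hrs0 : r * s + s * r = 0 := by
    rcases smul_eq_zero.mp q2 with h | h
    · exact h
    · exact absurd h hH0
  have hs0 : s ≠ 0 := by
    intro hs
    have hz : ∀ t, zX t = r • t := by
      intro t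
      apply g.injective
      rw [← hu, hrs', hs, zero_smul, add_zero, map_smul]
    have := congrArg Prod.snd (hz (x0, 0))
    rw [hzX, zz_apply] at this
    simp only [Prod.smul_mk, smul_zero] at this
    exact hH0' this
  have hr0 : r = 0 := by
    have : r * s = 0 := by linarith
    rcases mul_eq_zero.mp this with h | h
    · exact h
    · exact absurd h hs0
  have hs1 : s ^ 2 = 1 := by
    rw [hr0] at q1
    have h6 : D * (s ^ 2 - 1) = 0 := by nlinarith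
    rcases mul_eq_zero.mp h6 with h | h
    · exact absurd h hd'
    · linarith
  -- `g` composed with the swap
  let F : S0 →ₗ[ℚ] S0 := (LinearEquiv.prodComm ℚ M42 M42).toLinearMap ∘ₗ g.toLinearMap
  have hF : ∀ x y, F (x, y) = ((g (x, y)).2, (g (x, y)).1) := fun x y => rfl
  obtain ⟨A, B, C, E, hG⟩ := block 1 D h1' hd' F (by
    intro t t' ht ht' p
    have a1 := h1 t ht
    have a2 := h1 t' ht'
    have a3 := hg (t, 0) (t', 0) p
    rw [a1, a2, hscale] at a3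
    show ((g (kap0 (t, 0) (t', 0) p)).2, (g (kap0 (t, 0) (t', 0) p)).1) =
      kap0 (t, 0) (t', 0) ((g p).2, (g p).1)
    rw [a3, kap0_VV, kap0_VV, dual_dual, dual_dual])
  rw [dual_h] at hG
  have hG' : ∀ x y : M42, g (x, y) = (toMat ![1, 0, 0, 0, 0, D] * x * C + y * E,
      x * A + toMat ![D, 0, 0, 0, 0, 1] * y * B) := by
    intro x y
    have := hG x y
    rw [hF] at this
    exact Prod.ext (congrArg Prod.snd this) (congrArg Prod.fst this)
  refine ⟨A, B, C, s, hs1, fun x y => ?_⟩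
  have hE : E = (-(3 * s)) • A := by
    apply cancelM
    intro x
    have h7 := hu (x, 0)
    rw [hrs', hr0, zero_smul, zero_add, hzX, hzY, zz_apply _ _ x 0, hG' x 0, hG', zz_apply] at h7
    have h8 := congrArg (fun p : S0 => toMat ![D, 0, 0, 0, 0, 1] * p.1) h7
    simp only [Matrix.mul_zero, Matrix.zero_mul, smul_zero, add_zero, zero_add,
      Prod.smul_mk, Matrix.mul_smul, Matrix.mul_assoc, H_mul', smul_smul] at h8
    rw [Matrix.mul_smul]
    have h9 : (-(D * 1)) • (x * E) = (-(D * 1)) • ((-(3 * s)) • (x * A)) := by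
      rw [← h8, smul_smul]
      congr 1
      ring
    exact smul_right_injective _ (neg_ne_zero.mpr (mul_ne_zero hd' h1')) h9
  rw [hG', hE, Matrix.mul_smul, neg_smul, sub_eq_add_neg]

end Pool.Agent.H.MP_072fb1_ag
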