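import Pool.Agent.H.MP_072fb1_ag.Model

/-! # The model is a module over the even Clifford algebra, with an invariant form -/

namespace Pool.Agent.H.MP_072fb1_ag

open Matrix

/-- Clifford multiplication from the even to the odd half of the model. -/
def cliE (y : Ht ℚ) (s : S0) : S0 :=
  (toMat y.1 * s.1 + (3 : ℚ) • (s.2 * mW y.2), toMat (dualV y.1) * s.2 - s.1 * mW y.2)

/-- Clifford multiplication from the odd to the even half of the model. -/
def cliO (x : Ht ℚ) (u : S0) : S0 :=
  (-(toMat (dualV x.1) * u.1) + (3 : ℚ) • (u.2 * mW x.2), -(toMat x.1 * u.2) - u.1 * mW x.2)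

theorem kapFun_eq (x y : Ht ℚ) (s : S0) : kapFun x y s = cliO x (cliE y s) := by
  ext i j
  · fin_cases i <;> fin_cases j <;>
    simp [kapFun, cliE, cliO, Matrix.mul_apply, Matrix.vecMul, dotProduct, Fin.sum_univ_four, toMat, dualV, mW] <;> ring
  · fin_cases i <;> fin_cases j <;>
    simp [kapFun, cliE, cliO, Matrix.mul_apply, Matrix.vecMul, dotProduct, Fin.sum_univ_four, toMat, dualV, mW] <;> ring

theorem cliE_cliO (y : Ht ℚ) (u : S0) : cliE y (cliO y u) = (pair y y / 2) • u := by
  ext i j
  · fin_cases i <;> fin_cases j <;>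
    simp [cliE, cliO, Matrix.mul_apply, Matrix.vecMul, dotProduct, Fin.sum_univ_four, toMat, dualV, mW, pair, pairV] <;> ring
  · fin_cases i <;> fin_cases j <;>
    simp [cliE, cliO, Matrix.mul_apply, Matrix.vecMul, dotProduct, Fin.sum_univ_four, toMat, dualV, mW, pair, pairV] <;> ring

theorem cliO_cliE (y : Ht ℚ) (u : S0) : cliO y (cliE y u) = (pair y y / 2) • u := by
  ext i j
  · fin_cases i <;> fin_cases j <;>
    simp [cliE, cliO, Matrix.mul_apply, Matrix.vecMul, dotProduct, Fin.sum_univ_four, toMat, dualV, mW, pair, pairV] <;> ring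
  · fin_cases i <;> fin_cases j <;>
    simp [cliE, cliO, Matrix.mul_apply, Matrix.vecMul, dotProduct, Fin.sum_univ_four, toMat, dualV, mW, pair, pairV] <;> ring

theorem cliO_smul (c : ℚ) (x : Ht ℚ) (u : S0) : cliO x (c • u) = c • cliO x u := by
  ext i j
  · fin_cases i <;> fin_cases j <;>
    simp [cliO, Matrix.mul_apply, Matrix.vecMul, dotProduct, Fin.sum_univ_four, toMat, dualV, mW] <;> ring
  · fin_cases i <;> fin_cases j <;>
    simp [cliO, Matrix.mul_apply, Matrix.vecMul, dotProduct, Fin.sum_univ_four, toMat, dualV, mW] <;> ring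

theorem isSpin_kap0 : IsSpin kap0 where
  finrank_eq := by
    rw [Module.finrank_prod, Module.finrank_matrix]
    simp
  kap_self := by
    intro x
    refine LinearMap.ext fun s => ?_
    rw [kap0_apply, kapFun_eq, cliO_cliE]
    simp
  kap_mul := by
    intro x y z
    refine LinearMap.ext fun s => ?_
    show kap0 x y (kap0 y z s) = (pair y y / 2) • kap0 x z s
    rw [kap0_apply, kap0_apply, kap0_apply, kapFun_eq, kapFun_eq, kapFun_eq, cliE_cliO, cliO_smul]

/-- the invariant symmetric form of the model -/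
def form0Fun (s t : S0) : ℚ :=
  ∑ i, ((s.1 i 0 * t.2 i 1 - s.1 i 1 * t.2 i 0) - (s.2 i 0 * t.1 i 1 - s.2 i 1 * t.1 i 0))

/-- the invariant symmetric form of the model, as a bilinear map -/
def form0 : S0 →ₗ[ℚ] S0 →ₗ[ℚ] ℚ :=
  LinearMap.mk₂ ℚ form0Fun
    (by
      intro s s' t
      simp [form0Fun, Fin.sum_univ_four]; ring)
    (by
      intro c s t
      simp [form0Fun, Fin.sum_univ_four]; ring)
    (by
      intro s t t'
      simp [form0Fun, Fin.sum_univ_four]; ring)
    (by
      intro c s t
      simp [form0Fun, Fin.sum_univ_four]; ring)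

theorem form0_apply (s t : S0) : form0 s t = form0Fun s t := rfl

theorem form0Fun_cliO (x : Ht ℚ) (u t : S0) :
    form0Fun (cliO x u) t = form0Fun u (cliE x t) := by
  simp [form0Fun, cliE, cliO, Matrix.mul_apply, Matrix.vecMul, dotProduct, Fin.sum_univ_four, toMat, dualV, mW]
  ring

theorem form0Fun_cliE (y : Ht ℚ) (s u : S0) :
    form0Fun (cliE y s) u = form0Fun s (cliO y u) := by
  simp [form0Fun, cliE, cliO, Matrix.mul_apply, Matrix.vecMul, dotProduct, Fin.sum_univ_four, toMat, dualV, mW]
  ring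

theorem form0_kap0 (x y : Ht ℚ) (s t : S0) : form0 (kap0 x y s) t = form0 s (kap0 y x t) := by
  rw [form0_apply, form0_apply, kap0_apply, kap0_apply, kapFun_eq, kapFun_eq, form0Fun_cliO,
    form0Fun_cliE]

end Pool.Agent.H.MP_072fb1_ag
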