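import Pool.Agent.H.MP_072fb1_ag.Transfer0
import Pool.Agent.H.MP_072fb1_ag.Spin0a

/-! # Everything can be moved to the model -/

namespace Pool.Agent.H.MP_072fb1_ag

variable {S : Type*} [AddCommGroup S] [Module ℚ S]

theorem IsSpin.toModel {κ : Ht ℚ →ₗ[ℚ] Ht ℚ →ₗ[ℚ] Module.End ℚ S} (h : IsSpin κ) :
    ∃ Θ : S ≃ₗ[ℚ] S0, ∀ x y s, Θ (κ x y s) = kap0 x y (Θ s) :=
  h.equiv isSpin_kap0

/-- everything can be moved to the model -/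
theorem transfer {κ : Ht ℚ →ₗ[ℚ] Ht ℚ →ₗ[ℚ] Module.End ℚ S} {M : Submodule ℤ S} {σ τ : Fin 6 → ℂ}
    (h : IsOddK κ M) (hi : DerivedIso κ M σ τ) :
    ∃ M' : Submodule ℤ S0, IsOddK kap0 M' ∧ DerivedIso kap0 M' σ τ := by
  obtain ⟨Θ, hΘ⟩ := h.toIsSpin.toModel
  exact ⟨moveM Θ M, move_isOddK h isSpin_kap0 hΘ, move_derivedIso hΘ hi⟩

end Pool.Agent.H.MP_072fb1_ag
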