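import Pool.Agent.H.MP_072fb1_ag.Transfer0

/-! # Monodromy gives stability under nilpotent operators -/

namespace Pool.Agent.H.MP_072fb1_ag

open Matrix

/-- matrix unit action `n(i,j)`: `E_ij` on `L ⊗ P` and `-E_ji` on `L* ⊗ P`. -/
def nil (i j : Fin 4) (s : S0) : S0 :=
  (Matrix.single i j (1 : ℚ) * s.1, -(Matrix.single j i (1 : ℚ) * s.2))

/-- `nil` as a linear map. -/
def nilL (i j : Fin 4) : S0 →ₗ[ℚ] S0 where
  toFun := nil i j
  map_add' := by
    intro s t
    unfold nil
    rw [Prod.fst_add, Prod.snd_add, Matrix.mul_add, Matrix.mul_add, neg_add]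
    rfl
  map_smul' := by
    intro c s
    unfold nil
    rw [Prod.smul_fst, Prod.smul_snd, Matrix.mul_smul, Matrix.mul_smul, RingHom.id_apply,
      Prod.smul_mk, smul_neg]

theorem nilL_apply (i j : Fin 4) (s : S0) : nilL i j s = nil i j s := rfl

theorem nil_nil (i j : Fin 4) (hij : i ≠ j) (s : S0) : nil i j (nil i j s) = 0 := by
  unfold nil
  simp only [Matrix.mul_neg, ← Matrix.mul_assoc]
  rw [Matrix.single_mul_single_of_ne _ _ _ _ hij.symm, Matrix.single_mul_single_of_ne _ _ _ _ hij]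
  simp

/-- The elementary matrix `1 + E_ji`. -/
def elem (i j : Fin 4) (hij : i ≠ j) : Matrix.SpecialLinearGroup (Fin 4) ℤ :=
  ⟨Matrix.transvection j i 1, Matrix.det_transvection_of_ne j i hij.symm 1⟩

/-- `1 + E_ji` over the rationals. -/
def GG (i j : Fin 4) : Matrix (Fin 4) (Fin 4) ℚ := 1 + Matrix.single j i 1

/-- `1 - E_ji` over the rationals. -/
def HH (i j : Fin 4) : Matrix (Fin 4) (Fin 4) ℚ := 1 - Matrix.single j i 1

theorem elem_map (i j : Fin 4) (hij : i ≠ j) :
    ((elem i j hij : Matrix.SpecialLinearGroup (Fin 4) ℤ) : Matrix (Fin 4) (Fin 4) ℤ).map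
      (Int.cast : ℤ → ℚ) = GG i j := by
  unfold elem GG Matrix.transvection
  ext a b
  simp only [Matrix.map_apply, Matrix.add_apply, Matrix.one_apply, Matrix.single_apply]
  push_cast
  rfl

theorem HG (i j : Fin 4) (hij : i ≠ j) : HH i j * GG i j = 1 := by
  unfold HH GG
  rw [Matrix.sub_mul, Matrix.mul_add, Matrix.mul_add, Matrix.single_mul_single_of_ne _ _ _ _ hij]
  simp

theorem GH (i j : Fin 4) (hij : i ≠ j) : GG i j * HH i j = 1 := by
  unfold HH GG
  rw [Matrix.add_mul, Matrix.mul_sub, Matrix.mul_sub, Matrix.single_mul_single_of_ne _ _ _ _ hij]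
  simp

theorem toMat_act (i j : Fin 4) (hij : i ≠ j) (x : Ht ℚ) :
    toMat (act (elem i j hij) x).1 = GG i j * toMat x.1 * (GG i j)ᵀ := by
  unfold act
  rw [elem_map]
  have h : ((GG i j) * toMat x.1 * (GG i j)ᵀ)ᵀ = -((GG i j) * toMat x.1 * (GG i j)ᵀ) := by
    rw [Matrix.transpose_mul, Matrix.transpose_mul, Matrix.transpose_transpose]
    have : (toMat x.1)ᵀ = -toMat x.1 := by
      ext a b
      fin_cases a <;> fin_cases b <;> simp [toMat]
    rw [this]
    simp [Matrix.mul_assoc]
  generalize (GG i j) * toMat x.1 * (GG i j)ᵀ = A at h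
  have h' : ∀ a b, A b a = -A a b := fun a b => congrFun (congrFun h a) b
  ext a b
  have d : ∀ a, A a a = 0 := fun a => by have := h' a a; linarith
  fin_cases a <;> fin_cases b <;> simp [toMat, coord, d]
  · rw [h' 0 1]
  · rw [h' 0 2]
  · rw [h' 1 2]
  · rw [h' 0 3]
  · rw [h' 1 3]
  · rw [h' 2 3]

theorem single_mul' (i j : Fin 4) (X : Matrix (Fin 4) (Fin 4) ℚ) (a b : Fin 4) :
    (Matrix.single i j (1 : ℚ) * X) a b = if a = i then X j b else 0 := by
  rw [Matrix.mul_apply]
  by_cases h : a = i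
  · subst h
    rw [if_pos rfl, Finset.sum_eq_single j]
    · simp
    · intro c _ hc
      rw [Matrix.single_apply, if_neg (fun e => hc e.2.symm), zero_mul]
    · simp
  · rw [if_neg h]
    exact Finset.sum_eq_zero fun c _ => by
      rw [Matrix.single_apply, if_neg (fun e => h e.1.symm), zero_mul]

theorem mul_single' (i j : Fin 4) (X : Matrix (Fin 4) (Fin 4) ℚ) (a b : Fin 4) :
    (X * Matrix.single i j (1 : ℚ)) a b = if b = j then X a i else 0 := by
  rw [Matrix.mul_apply]
  by_cases h : b = j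
  · subst h
    rw [if_pos rfl, Finset.sum_eq_single i]
    · simp
    · intro c _ hc
      rw [Matrix.single_apply, if_neg (fun e => hc e.1.symm), mul_zero]
    · simp
  · rw [if_neg h]
    exact Finset.sum_eq_zero fun c _ => by
      rw [Matrix.single_apply, if_neg (fun e => h e.2.symm), mul_zero]

theorem entry_G (i j : Fin 4) (X : Matrix (Fin 4) (Fin 4) ℚ) (a b : Fin 4) :
    (GG i j * X * (GG i j)ᵀ) a b = X a b + (if a = j then X i b else 0) +
      (if b = j then X a i + (if a = j then X i i else 0) else 0) := by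
  unfold GG
  rw [Matrix.transpose_add, Matrix.transpose_one, Matrix.transpose_single, Matrix.add_mul,
    Matrix.one_mul, Matrix.mul_add, Matrix.mul_one, Matrix.add_apply, mul_single',
    Matrix.add_apply, Matrix.add_apply, single_mul', single_mul']

theorem entry_H (i j : Fin 4) (X : Matrix (Fin 4) (Fin 4) ℚ) (a b : Fin 4) :
    ((HH i j)ᵀ * X * HH i j) a b = X a b - (if a = i then X j b else 0) -
      (if b = i then X a j - (if a = i then X j j else 0) else 0) := by
  unfold HH
  rw [Matrix.transpose_sub, Matrix.transpose_one, Matrix.transpose_single, Matrix.sub_mul,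
    Matrix.one_mul, Matrix.mul_sub, Matrix.mul_one, Matrix.sub_apply, mul_single',
    Matrix.sub_apply, Matrix.sub_apply, single_mul', single_mul']

set_option maxHeartbeats 4000000 in
theorem toMat_dual_act (i j : Fin 4) (hij : i ≠ j) (x : Ht ℚ) :
    toMat (dualV (act (elem i j hij) x).1) = (HH i j)ᵀ * toMat (dualV x.1) * HH i j := by
  unfold act
  rw [elem_map]
  ext a b
  rw [entry_H]
  fin_cases i <;> fin_cases j <;> first
    | exact absurd rfl hij
    | (fin_cases a <;> fin_cases b <;>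
         simp [toMat, coord, dualV, entry_G] <;> ring)

/-- `s - nil i j s` in terms of the matrices. -/
theorem sub_nil (i j : Fin 4) (s : S0) :
    s - nil i j s = ((HH i j)ᵀ * s.1, GG i j * s.2) := by
  unfold nil HH GG
  rw [Matrix.transpose_sub, Matrix.transpose_one, Matrix.transpose_single, Matrix.sub_mul,
    Matrix.one_mul, Matrix.add_mul, Matrix.one_mul]
  ext a b
  · simp
  · simp

/-- The intertwining property of `1 - nil i j`. -/
theorem sub_nil_kap (i j : Fin 4) (hij : i ≠ j) (x y : Ht ℚ) (s : S0) :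
    kap0 x y s - nil i j (kap0 x y s) =
      kap0 (act (elem i j hij) x) (act (elem i j hij) y) (s - nil i j s) := by
  rw [sub_nil, sub_nil, kap0_apply, kap0_apply]
  unfold kapFun
  rw [toMat_act, toMat_act, toMat_dual_act, toMat_dual_act]
  have e1 : (act (elem i j hij) x).2 = x.2 := rfl
  have e2 : (act (elem i j hij) y).2 = y.2 := rfl
  rw [e1, e2]
  have h1 : ∀ {n : ℕ} (X : Matrix (Fin 4) (Fin n) ℚ), HH i j * (GG i j * X) = X := by
    intro n X
    rw [← Matrix.mul_assoc, HG i j hij, Matrix.one_mul]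
  have h2 : ∀ {n : ℕ} (X : Matrix (Fin 4) (Fin n) ℚ), (GG i j)ᵀ * ((HH i j)ᵀ * X) = X := by
    intro n X
    rw [← Matrix.mul_assoc, ← Matrix.transpose_mul, HG i j hij, Matrix.transpose_one,
      Matrix.one_mul]
  simp only [Matrix.mul_assoc, h1, h2, Matrix.mul_add, Matrix.mul_sub, Matrix.mul_neg,
    Matrix.mul_smul]

theorem add_nil_kap (i j : Fin 4) (hij : i ≠ j) (x y : Ht ℚ) (s : S0) :
    kap0 (act (elem i j hij) x) (act (elem i j hij) y) s +
      nil i j (kap0 (act (elem i j hij) x) (act (elem i j hij) y) s) =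
      kap0 x y (s + nil i j s) := by
  have h := sub_nil_kap i j hij x y (s + nil i j s)
  have h1 : s + nil i j s - nil i j (s + nil i j s) = s := by
    have : nil i j (s + nil i j s) = nil i j s + nil i j (nil i j s) := (nilL i j).map_add _ _
    rw [this, nil_nil i j hij]
    abel
  rw [h1] at h
  rw [← h]
  generalize kap0 x y (s + nil i j s) = t
  have : nil i j (t - nil i j t) = nil i j t - nil i j (nil i j t) := (nilL i j).map_sub _ _
  rw [this, nil_nil i j hij]
  abel

/-- Every vector has a nonzero multiple in the lattice. -/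
theorem exists_smul_mem {S : Type*} [AddCommGroup S] [Module ℚ S] {M : Submodule ℤ S}
    (h : Submodule.span ℚ (M : Set S) = ⊤) (s : S) : ∃ n : ℕ, 0 < n ∧ (n : ℚ) • s ∈ M := by
  have hs : s ∈ Submodule.span ℚ (M : Set S) := by rw [h]; trivial
  induction hs using Submodule.span_induction with
  | mem x hx => exact ⟨1, one_pos, by simpa using hx⟩
  | zero => exact ⟨1, one_pos, by simp⟩
  | add x y _ _ hx hy =>
    obtain ⟨n, hn, hx⟩ := hx
    obtain ⟨m, hm, hy⟩ := hy
    refine ⟨n * m, Nat.mul_pos hn hm, ?_⟩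
    have e1 : ((n * m : ℕ) : ℚ) • (x + y) = (m : ℤ) • ((n : ℚ) • x) + (n : ℤ) • ((m : ℚ) • y) := by
      rw [← Int.cast_smul_eq_zsmul ℚ, ← Int.cast_smul_eq_zsmul ℚ, smul_smul, smul_smul, smul_add]
      push_cast
      rw [mul_comm (m : ℚ) (n : ℚ)]
    rw [e1]
    exact M.add_mem (M.smul_mem _ hx) (M.smul_mem _ hy)
  | smul a x _ hx =>
    obtain ⟨n, hn, hx⟩ := hx
    refine ⟨n * a.den, Nat.mul_pos hn a.den_pos, ?_⟩
    have e1 : ((n * a.den : ℕ) : ℚ) • (a • x) = (a.num : ℤ) • ((n : ℚ) • x) := by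
      rw [← Int.cast_smul_eq_zsmul ℚ, smul_smul, smul_smul]
      congr 1
      push_cast
      have := Rat.den_mul_eq_num a
      calc (n : ℚ) * a.den * a = n * ((a.den : ℚ) * a) := by ring
        _ = n * (a.num : ℚ) := by rw [this]
        _ = (a.num : ℚ) * n := by ring
    rw [e1]
    exact M.smul_mem _ hx

/-- If multiplication by `c` and `c⁻¹` preserve a nonzero finitely generated group, `c = ±1`. -/
theorem unit_of_smul {S : Type*} [AddCommGroup S] [Module ℚ S] {M : Submodule ℤ S}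
    (hfg : M.FG) (hne : M ≠ ⊥) (c : ℚ) (hc : c ≠ 0) (h1 : ∀ s ∈ M, c • s ∈ M)
    (h2 : ∀ s ∈ M, c⁻¹ • s ∈ M) : c = 1 ∨ c = -1 := by
  have i1 : IsIntegral ℤ c := isIntegral_of_smul_mem_submodule M hne hfg c h1
  have i2 : IsIntegral ℤ c⁻¹ := isIntegral_of_smul_mem_submodule M hne hfg c⁻¹ h2
  obtain ⟨n, hn⟩ := IsIntegrallyClosed.isIntegral_iff.1 i1
  obtain ⟨m, hm⟩ := IsIntegrallyClosed.isIntegral_iff.1 i2
  have h : n * m = 1 := by
    have : ((n * m : ℤ) : ℚ) = 1 := by
      push_cast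
      rw [show (n : ℚ) = c from hn, show (m : ℚ) = c⁻¹ from hm, mul_inv_cancel₀ hc]
    exact_mod_cast this
  rcases Int.isUnit_iff.1 (IsUnit.of_mul_eq_one _ h) with h' | h'
  · left; rw [← hn, h']; simp
  · right; rw [← hn, h']; simp

theorem nil_mem {M : Submodule ℤ S0} (h : IsOddK kap0 M) (i j : Fin 4) (hij : i ≠ j) (s : S0)
    (hs : s ∈ M) : nil i j s ∈ M := by
  obtain ⟨ρ, hρ, hk⟩ := h.monodromy (elem i j hij)
  obtain ⟨c, hc⟩ := h.toIsSpin.commutant ((LinearMap.id + nilL i j) ∘ₗ (ρ : S0 →ₗ[ℚ] S0)) (by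
    intro x y s
    show ρ (kap0 x y s) + nil i j (ρ (kap0 x y s)) = kap0 x y (ρ s + nil i j (ρ s))
    rw [hk, add_nil_kap])
  have hc1 : ∀ s, ρ s + nil i j (ρ s) = c • s := hc
  have hc2 : ∀ s, ρ s = c • (s - nil i j s) := by
    intro s
    have h1 : c • (s - nil i j s) = c • s - nil i j (c • s) := by
      rw [smul_sub]
      congr 1
      exact ((nilL i j).map_smul c s).symm
    rw [h1, ← hc1]
    have : nil i j (ρ s + nil i j (ρ s)) = nil i j (ρ s) + nil i j (nil i j (ρ s)) :=
      (nilL i j).map_add _ _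
    rw [this, nil_nil i j hij]
    abel
  have hc0 : c ≠ 0 := by
    rintro rfl
    have h1 : ∀ s, ρ s = 0 := fun s => by rw [hc2, zero_smul]
    have h2 : ((fun _ _ => 1, 0) : S0) = 0 := ρ.injective (by rw [h1, map_zero])
    have h3 : (1 : ℚ) = 0 := congrFun (congrFun (congrArg Prod.fst h2) 0) 0
    exact one_ne_zero h3
  -- the kernel of `nil` in `M`
  set N : Submodule ℤ S0 := M ⊓ (LinearMap.ker (nilL i j)).restrictScalars ℤ with hN
  have hmem : ∀ t, t ∈ N ↔ t ∈ M ∧ nil i j t = 0 := fun t => Iff.rfl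
  have hNfg : N.FG := Submodule.FG.of_le h.fg inf_le_left
  have hNne : N ≠ ⊥ := by
    set t : S0 := (Matrix.single i 0 1, 0) with ht
    obtain ⟨n, hn, hm⟩ := exists_smul_mem h.span_eq t
    have h0 : nil i j ((n : ℚ) • t) = 0 := by
      have : nil i j ((n : ℚ) • t) = (n : ℚ) • nil i j t := (nilL i j).map_smul _ _
      rw [this]
      unfold nil
      rw [ht]
      simp only [Matrix.mul_zero, neg_zero]
      rw [Matrix.single_mul_single_of_ne _ _ _ _ hij.symm]
      simp
    intro hbot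
    have h1 : (n : ℚ) • t ∈ N := (hmem _).2 ⟨hm, h0⟩
    rw [hbot, Submodule.mem_bot] at h1
    have h2 := congrFun (congrFun (congrArg Prod.fst h1) i) 0
    simp [ht] at h2
    omega
  have hpm : c = 1 ∨ c = -1 := by
    refine unit_of_smul hNfg hNne c hc0 ?_ ?_
    · intro t ht
      obtain ⟨h1, h2⟩ := (hmem t).1 ht
      refine (hmem _).2 ⟨?_, ?_⟩
      · have h3 := hc2 t
        rw [h2, sub_zero] at h3
        rw [← h3]
        exact (hρ t).2 h1
      · have : nil i j (c • t) = c • nil i j t := (nilL i j).map_smul _ _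
        rw [this, h2, smul_zero]
    · intro t ht
      obtain ⟨h1, h2⟩ := (hmem t).1 ht
      have h4 : nil i j (c⁻¹ • t) = 0 := by
        have : nil i j (c⁻¹ • t) = c⁻¹ • nil i j t := (nilL i j).map_smul _ _
        rw [this, h2, smul_zero]
      refine (hmem _).2 ⟨?_, h4⟩
      apply (hρ _).1
      rw [hc2, h4, sub_zero, smul_smul, mul_inv_cancel₀ hc0, one_smul]
      exact h1
  have h5 := (hρ s).2 hs
  rw [hc2] at h5
  have h6 : s - nil i j s ∈ M := by
    rcases hpm with rfl | rfl
    · rwa [one_smul] at h5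
    · rw [neg_one_smul] at h5
      have := M.neg_mem h5
      rwa [neg_neg] at this
  have h7 := M.sub_mem hs h6
  rwa [sub_sub_cancel] at h7

end Pool.Agent.H.MP_072fb1_ag
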