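import Pool.Agent.H.MP_072fb1_ag.Spin0a
import Pool.Agent.H.MP_072fb1_ag.Transfer
import Pool.Agent.H.MP_072fb1_ag.Unip

/-! # The shape of the lattice: `M = P ⊗ L ⊕ μP ⊗ L*` -/

namespace Pool.Agent.H.MP_072fb1_ag

open Matrix


theorem mem_fst {M : Submodule ℤ S0} (h : IsOddK kap0 M) {s : S0} (hs : s ∈ M) (i k : Fin 4) :
    ((Matrix.single i k (1 : ℚ) * s.1, 0) : S0) ∈ M := by
  have key : ∀ (s : S0) (_ : s ∈ M) (i k : Fin 4) (_ : i ≠ k),
      ((Matrix.single i k (1 : ℚ) * s.1, 0) : S0) ∈ M := by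
    intro s hs i k hik
    obtain ⟨j, hij, hjk⟩ : ∃ j : Fin 4, i ≠ j ∧ j ≠ k := by
      revert i k; decide
    have h1 := nil_mem h i j hij _ (nil_mem h j k hjk s hs)
    have e : nil i j (nil j k s) = ((Matrix.single i k (1 : ℚ) * s.1, 0) : S0) := by
      refine Prod.ext ?_ ?_
      · show Matrix.single i j (1 : ℚ) * (Matrix.single j k (1 : ℚ) * s.1) = _
        rw [← Matrix.mul_assoc, Matrix.single_mul_single_same, one_mul]
      · show -(Matrix.single j i (1 : ℚ) * -(Matrix.single k j (1 : ℚ) * s.2)) = 0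
        rw [Matrix.mul_neg, neg_neg, ← Matrix.mul_assoc,
          Matrix.single_mul_single_of_ne _ _ _ _ hik, Matrix.zero_mul]
    rwa [e] at h1
  by_cases hik : i = k
  · subst hik
    obtain ⟨j, hij⟩ : ∃ j : Fin 4, i ≠ j := by revert i; decide
    have h1 := key s hs j i (Ne.symm hij)
    have h2 := key _ h1 i j hij
    have e : Matrix.single i j (1 : ℚ) * (Matrix.single j i (1 : ℚ) * s.1)
        = Matrix.single i i (1 : ℚ) * s.1 := by
      rw [← Matrix.mul_assoc, Matrix.single_mul_single_same, one_mul]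
    rwa [show ((Matrix.single j i (1 : ℚ) * s.1, 0) : S0).1 = Matrix.single j i (1 : ℚ) * s.1
      from rfl, e] at h2
  · exact key s hs i k hik

theorem single_mul_row (i k a : Fin 4) (x : Matrix (Fin 4) (Fin 2) ℚ) :
    (Matrix.single i k (1 : ℚ) * x) a = if a = i then x k else 0 := by
  by_cases hai : a = i
  · subst hai
    funext j
    simp
  · rw [if_neg hai]
    funext j
    simp [hai]

theorem sum_row (f : Fin 4 → Matrix (Fin 4) (Fin 2) ℚ) (a : Fin 4) :
    (∑ i : Fin 4, (Matrix.single i 0 (1 : ℚ) : Matrix (Fin 4) (Fin 4) ℚ) * f i) a = f a 0 := by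
  have e : (∑ i : Fin 4, (Matrix.single i 0 (1 : ℚ) : Matrix (Fin 4) (Fin 4) ℚ) * f i) a
      = ∑ i : Fin 4, ((Matrix.single i 0 (1 : ℚ) : Matrix (Fin 4) (Fin 4) ℚ) * f i) a := by
    funext j
    rw [Matrix.sum_apply, Finset.sum_apply]
  rw [e]
  simp only [single_mul_row]
  rw [Finset.sum_ite_eq]
  simp

theorem sum_single_mul (x : Matrix (Fin 4) (Fin 2) ℚ) :
    ∑ i : Fin 4, (Matrix.single i i (1 : ℚ) : Matrix (Fin 4) (Fin 4) ℚ) * x = x := by
  funext a
  have e : (∑ i : Fin 4, (Matrix.single i i (1 : ℚ) : Matrix (Fin 4) (Fin 4) ℚ) * x) a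
      = ∑ i : Fin 4, ((Matrix.single i i (1 : ℚ) : Matrix (Fin 4) (Fin 4) ℚ) * x) a := by
    funext j
    rw [Matrix.sum_apply, Finset.sum_apply]
  rw [e]
  simp only [single_mul_row]
  rw [Finset.sum_ite_eq]
  simp

theorem fst_mem {M : Submodule ℤ S0} (h : IsOddK kap0 M) {s : S0} (hs : s ∈ M) :
    ((s.1, 0) : S0) ∈ M := by
  have h1 : ∑ i, ((Matrix.single i i (1 : ℚ) * s.1, 0) : S0) ∈ M :=
    Submodule.sum_mem _ fun i _ => mem_fst h hs i i
  have e : ∑ i, ((Matrix.single i i (1 : ℚ) * s.1, 0) : S0) = (s.1, 0) := by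
    refine Prod.ext ?_ ?_
    · rw [Prod.fst_sum]
      exact sum_single_mul s.1
    · rw [Prod.snd_sum]
      simp
  rwa [e] at h1

theorem snd_mem {M : Submodule ℤ S0} (h : IsOddK kap0 M) {s : S0} (hs : s ∈ M) :
    ((0, s.2) : S0) ∈ M := by
  have h1 := M.sub_mem hs (fst_mem h hs)
  have e : s - ((s.1, 0) : S0) = (0, s.2) := by
    refine Prod.ext ?_ ?_ <;> simp
  rwa [e] at h1

theorem mem_snd {M : Submodule ℤ S0} (h : IsOddK kap0 M) {s : S0} (hs : s ∈ M) (i k : Fin 4) :
    ((0, Matrix.single i k (1 : ℚ) * s.2) : S0) ∈ M := by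
  have key : ∀ (s : S0) (_ : s ∈ M) (i k : Fin 4) (_ : i ≠ k),
      ((0, Matrix.single i k (1 : ℚ) * s.2) : S0) ∈ M := by
    intro s hs i k hik
    have h1 := nil_mem h k i (Ne.symm hik) _ (snd_mem h hs)
    have h2 := M.neg_mem h1
    have e : -(nil k i ((0, s.2) : S0)) = ((0, Matrix.single i k (1 : ℚ) * s.2) : S0) := by
      refine Prod.ext ?_ ?_
      · show -(Matrix.single k i (1 : ℚ) * (0 : Matrix (Fin 4) (Fin 2) ℚ)) = 0
        simp
      · show - -(Matrix.single i k (1 : ℚ) * s.2) = _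
        rw [neg_neg]
    rwa [e] at h2
  by_cases hik : i = k
  · subst hik
    obtain ⟨j, hij⟩ : ∃ j : Fin 4, i ≠ j := by revert i; decide
    have h1 := key s hs j i (Ne.symm hij)
    have h2 := key _ h1 i j hij
    have e : Matrix.single i j (1 : ℚ) * (Matrix.single j i (1 : ℚ) * s.2)
        = Matrix.single i i (1 : ℚ) * s.2 := by
      rw [← Matrix.mul_assoc, Matrix.single_mul_single_same, one_mul]
    rwa [show ((0, Matrix.single j i (1 : ℚ) * s.2) : S0).2 = Matrix.single j i (1 : ℚ) * s.2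
      from rfl, e] at h2
  · exact key s hs i k hik

/-- first row of the `L`-part -/
def row1 : S0 →ₗ[ℚ] (Fin 2 → ℚ) where
  toFun s := s.1 0
  map_add' _ _ := rfl
  map_smul' _ _ := rfl

/-- first row of the `L*`-part -/
def row2 : S0 →ₗ[ℚ] (Fin 2 → ℚ) where
  toFun s := s.2 0
  map_add' _ _ := rfl
  map_smul' _ _ := rfl

theorem split' {M : Submodule ℤ S0} (h : IsOddK kap0 M) (s : S0) :
    s ∈ M ↔ (∀ i, s.1 i ∈ M.map (row1.restrictScalars ℤ)) ∧
      (∀ i, s.2 i ∈ M.map (row2.restrictScalars ℤ)) := by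
  constructor
  · intro hs
    refine ⟨fun i => ?_, fun i => ?_⟩
    · refine ⟨_, mem_fst h hs 0 i, ?_⟩
      show (Matrix.single 0 i (1 : ℚ) * s.1) 0 = s.1 i
      rw [single_mul_row, if_pos rfl]
    · refine ⟨_, mem_snd h hs 0 i, ?_⟩
      show (Matrix.single 0 i (1 : ℚ) * s.2) 0 = s.2 i
      rw [single_mul_row, if_pos rfl]
  · rintro ⟨h1, h2⟩
    choose m hm hm' using h1
    choose n hn hn' using h2
    have e1 : ∀ i, (m i).1 0 = s.1 i := hm'
    have e2 : ∀ i, (n i).2 0 = s.2 i := hn'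
    have h3 : ∑ i : Fin 4, (((Matrix.single i (0 : Fin 4) (1 : ℚ) * (m i).1, 0) : S0) +
        ((0, Matrix.single i (0 : Fin 4) (1 : ℚ) * (n i).2) : S0)) ∈ M :=
      Submodule.sum_mem _ fun i _ => M.add_mem (mem_fst h (hm i) i 0) (mem_snd h (hn i) i 0)
    have e : ∑ i : Fin 4, (((Matrix.single i (0 : Fin 4) (1 : ℚ) * (m i).1, 0) : S0) +
        ((0, Matrix.single i (0 : Fin 4) (1 : ℚ) * (n i).2) : S0)) = s := by
      refine Prod.ext ?_ ?_
      · rw [Prod.fst_sum]
        funext a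
        have := sum_row (fun i => (m i).1) a
        rw [← e1 a, ← this]
        simp
      · rw [Prod.snd_sum]
        funext a
        have := sum_row (fun i => (n i).2) a
        rw [← e2 a, ← this]
        simp
    rwa [e] at h3

theorem split {M : Submodule ℤ S0} (h : IsOddK kap0 M) :
    ∃ P Q : Submodule ℤ (Fin 2 → ℚ),
      ∀ s : S0, s ∈ M ↔ (∀ i, s.1 i ∈ P) ∧ (∀ i, s.2 i ∈ Q) :=
  ⟨_, _, split' h⟩

/-- a finitely generated `ℤ`-submodule of `ℚ²` has a common denominator -/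
theorem exists_den {P : Submodule ℤ (Fin 2 → ℚ)} (hP : P.FG) :
    ∃ N : ℕ, 0 < N ∧ ∀ p ∈ P, ∀ j, ∃ n : ℤ, (N : ℚ) * p j = n := by
  obtain ⟨F, rfl⟩ := hP
  refine ⟨∏ p ∈ F, ∏ j, (p j).den, ?_, ?_⟩
  · exact Finset.prod_pos fun p _ => Finset.prod_pos fun j _ => (p j).den_pos
  · intro p hp
    induction hp using Submodule.span_induction with
    | mem p hp =>
      intro j
      have h1 : (p j).den ∣ ∏ p ∈ F, ∏ j, (p j).den :=
        (Finset.dvd_prod_of_mem (fun j => (p j).den) (Finset.mem_univ j)).trans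
          (Finset.dvd_prod_of_mem (fun p : Fin 2 → ℚ => ∏ j, (p j).den) hp)
      obtain ⟨k, hk⟩ := h1
      refine ⟨k * (p j).num, ?_⟩
      rw [hk]
      push_cast
      have := Rat.mul_den_eq_num (p j)
      calc ((p j).den : ℚ) * k * p j = k * (p j * (p j).den) := by ring
        _ = k * (p j).num := by rw [this]
    | zero => exact fun j => ⟨0, by simp⟩
    | add p q _ _ hp hq =>
      intro j
      obtain ⟨a, ha⟩ := hp j
      obtain ⟨b, hb⟩ := hq j
      refine ⟨a + b, ?_⟩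
      rw [Pi.add_apply, mul_add, ha, hb, Int.cast_add]
    | smul a p _ hp =>
      intro j
      obtain ⟨b, hb⟩ := hp j
      refine ⟨a * b, ?_⟩
      rw [Pi.smul_apply, zsmul_eq_mul, Int.cast_mul, ← hb]
      ring

theorem ne_top_of_fg {P : Submodule ℤ (Fin 2 → ℚ)} (hP : P.FG) : P ≠ ⊤ := by
  rintro rfl
  obtain ⟨N, hN, h⟩ := exists_den hP
  obtain ⟨n, hn⟩ := h (fun _ => 1 / (2 * N)) trivial 0
  have hN' : (N : ℚ) ≠ 0 := by positivity
  have : (2 : ℚ) * n = 1 := by
    rw [← hn]; field_simp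
  have h2 : (2 : ℤ) * n = 1 := by exact_mod_cast this
  omega

theorem form0_fst (s : S0) (i : Fin 4) (j : Fin 2) :
    form0 s (Matrix.single i j 1, 0) = if j = 0 then s.2 i 1 else -s.2 i 0 := by
  rw [form0_apply]
  fin_cases i <;> fin_cases j <;>
    simp [form0Fun, Matrix.single]

theorem form0_snd (s : S0) (i : Fin 4) (j : Fin 2) :
    form0 s (0, Matrix.single i j 1) = if j = 0 then -s.1 i 1 else s.1 i 0 := by
  rw [form0_apply]
  fin_cases i <;> fin_cases j <;>
    simp [form0Fun, Matrix.single]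

theorem decompS (t : S0) : t = ∑ i : Fin 4, ∑ j : Fin 2,
    (t.1 i j • ((Matrix.single i j 1, 0) : S0) + t.2 i j • ((0, Matrix.single i j 1) : S0)) := by
  refine Prod.ext ?_ ?_
  · ext a b
    fin_cases a <;> fin_cases b <;>
      simp [Fin.sum_univ_four, Fin.sum_univ_two, Matrix.single]
  · ext a b
    fin_cases a <;> fin_cases b <;>
      simp [Fin.sum_univ_four, Fin.sum_univ_two, Matrix.single]

theorem form_ext (b b' : S0 →ₗ[ℚ] ℚ) (h1 : ∀ i j, b (Matrix.single i j 1, 0) = b' (Matrix.single i j 1, 0))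
    (h2 : ∀ i j, b (0, Matrix.single i j 1) = b' (0, Matrix.single i j 1)) : b = b' := by
  refine LinearMap.ext fun t => ?_
  rw [decompS t]
  simp only [map_sum, map_add, map_smul, h1, h2]

/-- every invariant form is a multiple of `form0` -/
theorem form_unique (b : S0 →ₗ[ℚ] S0 →ₗ[ℚ] ℚ)
    (hb : ∀ x y s t, b (kap0 x y s) t = b s (kap0 y x t)) :
    ∃ c : ℚ, ∀ s t, b s t = c * form0 s t := by
  have hR : ∃ R : Module.End ℚ S0, ∀ s t, form0 (R s) t = b s t := by
    refine ⟨{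
      toFun := fun s =>
        (fun i j => if j = 0 then b s (0, Matrix.single i 1 1) else -b s (0, Matrix.single i 0 1),
         fun i j => if j = 0 then -b s (Matrix.single i 1 1, 0) else b s (Matrix.single i 0 1, 0))
      map_add' := ?_
      map_smul' := ?_ }, ?_⟩
    · intro s s'
      refine Prod.ext ?_ ?_
      · ext i j
        fin_cases j
        · simp
        · simp; ring
      · ext i j
        fin_cases j
        · simp; ring
        · simp
    · intro c s
      refine Prod.ext ?_ ?_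
      · ext i j
        fin_cases j <;> simp
      · ext i j
        fin_cases j <;> simp
    · intro s t
      refine LinearMap.congr_fun (form_ext (form0 _) (b s) ?_ ?_) t
      · intro i j
        rw [form0_fst]
        fin_cases j <;> simp
      · intro i j
        rw [form0_snd]
        fin_cases j <;> simp
  obtain ⟨R, hR⟩ := hR
  have hnd : ∀ s s' : S0, (∀ t, form0 s t = form0 s' t) → s = s' := by
    intro s s' h
    refine Prod.ext ?_ ?_
    · ext i j
      fin_cases j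
      · simpa [form0_snd] using h (0, Matrix.single i 1 1)
      · simpa [form0_snd] using h (0, Matrix.single i 0 1)
    · ext i j
      fin_cases j
      · simpa [form0_fst] using h (Matrix.single i 1 1, 0)
      · simpa [form0_fst] using h (Matrix.single i 0 1, 0)
  obtain ⟨c, hc⟩ := isSpin_kap0.commutant R (by
    intro x y s
    apply hnd
    intro t
    rw [hR, hb, form0_kap0, hR])
  refine ⟨c, fun s t => ?_⟩
  rw [← hR, hc, map_smul, LinearMap.smul_apply, smul_eq_mul]

/-- a finitely generated subgroup spanning `ℚ²` has a basis of two elements -/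
theorem exists_basis {P : Submodule ℤ (Fin 2 → ℚ)} (hP : P.FG)
    (hs : Submodule.span ℚ (P : Set (Fin 2 → ℚ)) = ⊤) :
    ∃ p q : Fin 2 → ℚ, p 0 * q 1 - p 1 * q 0 ≠ 0 ∧
      ∀ r, r ∈ P ↔ ∃ a b : ℤ, r = (a : ℚ) • p + (b : ℚ) • q := by
  have : Module.Finite ℤ P := Module.Finite.iff_fg.2 hP
  obtain ⟨n, bas⟩ : Σ n : ℕ, Module.Basis (Fin n) ℤ P := ⟨_, Module.finBasis ℤ P⟩
  have hli : LinearIndependent ℤ (fun i => (bas i : Fin 2 → ℚ)) :=
    bas.linearIndependent.map' P.subtype (Submodule.ker_subtype P)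
  have hli' : LinearIndependent ℚ (fun i => (bas i : Fin 2 → ℚ)) :=
    (LinearIndependent.iff_fractionRing ℤ ℚ).1 hli
  have hmem : ∀ r ∈ P, r ∈ Submodule.span ℤ (Set.range fun i => (bas i : Fin 2 → ℚ)) := by
    intro r hr
    have h1 : (⟨r, hr⟩ : P) ∈ Submodule.span ℤ (Set.range bas) := by
      rw [bas.span_eq]; trivial
    have h2 := Submodule.mem_map_of_mem (f := P.subtype) h1
    rw [Submodule.map_span, ← Set.range_comp] at h2
    exact h2
  have hsp : ⊤ ≤ Submodule.span ℚ (Set.range fun i => (bas i : Fin 2 → ℚ)) := by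
    rw [← hs, Submodule.span_le]
    intro r hr
    have := hmem r hr
    exact Submodule.span_le_restrictScalars ℤ ℚ _ this
  have hn : n = 2 := by
    have h1 := Module.finrank_eq_card_basis (Module.Basis.mk hli' hsp)
    simpa using h1.symm
  subst hn
  refine ⟨bas 0, bas 1, ?_, ?_⟩
  · intro h0
    rw [Fintype.linearIndependent_iff] at hli'
    have key : ∀ a b : ℚ, a * (bas 0 : Fin 2 → ℚ) 0 + b * (bas 1 : Fin 2 → ℚ) 0 = 0 →
        a * (bas 0 : Fin 2 → ℚ) 1 + b * (bas 1 : Fin 2 → ℚ) 1 = 0 → a = 0 ∧ b = 0 := by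
      intro a b h1 h2
      have h3 := hli' ![a, b] (by
        rw [Fin.sum_univ_two]
        funext j
        fin_cases j
        · simpa using h1
        · simpa using h2)
      exact ⟨h3 0, h3 1⟩
    obtain ⟨h1, h2⟩ := key ((bas 1 : Fin 2 → ℚ) 0) (-(bas 0 : Fin 2 → ℚ) 0) (by ring)
      (by linarith)
    obtain ⟨h3, h4⟩ := key ((bas 1 : Fin 2 → ℚ) 1) (-(bas 0 : Fin 2 → ℚ) 1) (by linarith)
      (by ring)
    have h2' : (bas 0 : Fin 2 → ℚ) 0 = 0 := by linarith
    have h4' : (bas 0 : Fin 2 → ℚ) 1 = 0 := by linarith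
    obtain ⟨h5, -⟩ := key 1 0 (by rw [h2', h1]; ring) (by rw [h4', h3]; ring)
    exact one_ne_zero h5
  · intro r
    constructor
    · intro hr
      have h1 := bas.sum_repr ⟨r, hr⟩
      rw [Fin.sum_univ_two] at h1
      refine ⟨bas.repr ⟨r, hr⟩ 0, bas.repr ⟨r, hr⟩ 1, ?_⟩
      have h2 := congrArg (fun x : P => (x : Fin 2 → ℚ)) h1
      simp only [Submodule.coe_add, Submodule.coe_smul] at h2
      rw [Int.cast_smul_eq_zsmul, Int.cast_smul_eq_zsmul]
      exact h2.symm
    · rintro ⟨a, b, rfl⟩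
      rw [Int.cast_smul_eq_zsmul, Int.cast_smul_eq_zsmul]
      exact P.add_mem (P.smul_mem _ (bas 0).2) (P.smul_mem _ (bas 1).2)

/-- `M = P ⊗ L ⊕ μP ⊗ L*` -/
theorem shape {M : Submodule ℤ S0} (h : IsOddK kap0 M) :
    ∃ (P : Submodule ℤ (Fin 2 → ℚ)) (μ : ℚ), μ ≠ 0 ∧ P.FG ∧ Submodule.span ℚ (P : Set (Fin 2 → ℚ)) = ⊤ ∧
      ∀ s : S0, s ∈ M ↔ (∀ i, s.1 i ∈ P) ∧ (∀ i, μ⁻¹ • s.2 i ∈ P) := by
  have hsplit := split' h
  have hfg : (M.map (row1.restrictScalars ℤ)).FG := h.fg.map _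
  have hspan : Submodule.span ℚ ((M.map (row1.restrictScalars ℤ) : Submodule ℤ (Fin 2 → ℚ)) :
      Set (Fin 2 → ℚ)) = ⊤ := by
    have e : ((M.map (row1.restrictScalars ℤ) : Submodule ℤ (Fin 2 → ℚ)) : Set (Fin 2 → ℚ))
        = row1 '' (M : Set S0) := rfl
    rw [e, ← Submodule.map_span, h.span_eq, Submodule.map_top, LinearMap.range_eq_top]
    intro r
    exact ⟨(fun _ => r, 0), rfl⟩
  generalize M.map (row1.restrictScalars ℤ) = P at hsplit hfg hspan
  generalize M.map (row2.restrictScalars ℤ) = Q at hsplit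
  obtain ⟨b, hb, hbM⟩ := h.selfdual
  obtain ⟨c, hc⟩ := form_unique b hb
  obtain ⟨p, q, hD, hPb⟩ := exists_basis hfg hspan
  have hp : p ∈ P := (hPb p).2 ⟨1, 0, by simp⟩
  have hq : q ∈ P := (hPb q).2 ⟨0, 1, by simp⟩
  -- description of `Q`
  have hQ : ∀ r, r ∈ Q ↔ ∀ p' ∈ P, ∃ n : ℤ, c * (r 1 * p' 0 - r 0 * p' 1) = n := by
    intro r
    have h1 : (((0 : Matrix (Fin 4) (Fin 2) ℚ),
        (fun i j => if i = 0 then r j else 0 : Matrix (Fin 4) (Fin 2) ℚ)) : S0) ∈ M ↔ r ∈ Q := by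
      rw [hsplit]
      constructor
      · rintro ⟨-, h2⟩
        have h3 := h2 0
        simpa using h3
      · intro hr
        refine ⟨fun i => P.zero_mem, fun i => ?_⟩
        by_cases hi : i = 0
        · simpa [hi] using hr
        · have : (fun j : Fin 2 => if i = 0 then r j else 0) = 0 := by
            funext j; simp [hi]
          show (fun j : Fin 2 => if i = 0 then r j else 0) ∈ Q
          rw [this]
          exact Q.zero_mem
    have h2 : ∀ m : S0, b ((0 : Matrix (Fin 4) (Fin 2) ℚ),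
        (fun i j => if i = 0 then r j else 0 : Matrix (Fin 4) (Fin 2) ℚ)) m
        = c * (r 1 * m.1 0 0 - r 0 * m.1 0 1) := by
      intro m
      rw [hc, form0_apply]
      congr 1
      simp [form0Fun]
    rw [← h1, hbM]
    constructor
    · intro h3 p' hp'
      have h4 : (((fun i j => if i = 0 then p' j else 0 : Matrix (Fin 4) (Fin 2) ℚ),
          (0 : Matrix (Fin 4) (Fin 2) ℚ)) : S0) ∈ M := by
        rw [hsplit]
        refine ⟨fun i => ?_, fun i => Q.zero_mem⟩
        by_cases hi : i = 0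
        · simpa [hi] using hp'
        · have : (fun j : Fin 2 => if i = 0 then p' j else 0) = 0 := by
            funext j; simp [hi]
          show (fun j : Fin 2 => if i = 0 then p' j else 0) ∈ P
          rw [this]
          exact P.zero_mem
      have h5 := h3 _ h4
      rw [h2] at h5
      simpa using h5
    · intro h3 m hm
      rw [h2]
      exact h3 _ (((hsplit m).1 hm).1 0)
  have hc0 : c ≠ 0 := by
    rintro rfl
    have h1 : M = ⊤ := by
      rw [eq_top_iff]
      intro s _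
      rw [hbM]
      intro m _
      exact ⟨0, by rw [hc]; simp⟩
    apply ne_top_of_fg hfg
    rw [eq_top_iff]
    intro r _
    have h2 : (((fun _ => r : Matrix (Fin 4) (Fin 2) ℚ), (0 : Matrix (Fin 4) (Fin 2) ℚ)) : S0) ∈ M := by
      rw [h1]; trivial
    exact ((hsplit _).1 h2).1 0
  refine ⟨P, (c * (p 0 * q 1 - p 1 * q 0))⁻¹, inv_ne_zero (mul_ne_zero hc0 hD), hfg, hspan, ?_⟩
  intro s
  rw [hsplit]
  refine and_congr Iff.rfl (forall_congr' fun i => ?_)
  generalize s.2 i = r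
  rw [hQ, inv_inv]
  generalize hΔ : p 0 * q 1 - p 1 * q 0 = Δ at hD
  constructor
  · intro h1
    obtain ⟨m, hm⟩ := h1 p hp
    obtain ⟨n, hn⟩ := h1 q hq
    rw [hPb]
    refine ⟨-n, m, ?_⟩
    funext j
    rw [Pi.add_apply, Pi.smul_apply, Pi.smul_apply, Pi.smul_apply]
    simp only [smul_eq_mul, Int.cast_neg, ← hm, ← hn, ← hΔ]
    fin_cases j
    · simp; ring
    · simp; ring
  · intro h1 p' hp'
    obtain ⟨a, a', h2⟩ := (hPb _).1 h1
    obtain ⟨e, e', h3⟩ := (hPb _).1 hp'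
    refine ⟨a' * e - a * e', ?_⟩
    have h4 : c * Δ * r 0 = a * p 0 + a' * q 0 := by simpa using congrFun h2 0
    have h5 : c * Δ * r 1 = a * p 1 + a' * q 1 := by simpa using congrFun h2 1
    have h6 : p' 0 = e * p 0 + e' * q 0 := by simpa using congrFun h3 0
    have h7 : p' 1 = e * p 1 + e' * q 1 := by simpa using congrFun h3 1
    have h8 : Δ * (c * (r 1 * p' 0 - r 0 * p' 1)) = Δ * ((a' * e - a * e' : ℤ) : ℚ) := by
      have : Δ * (c * (r 1 * p' 0 - r 0 * p' 1))
          = (c * Δ * r 1) * p' 0 - (c * Δ * r 0) * p' 1 := by ring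
      rw [this, h4, h5, h6, h7, ← hΔ]
      push_cast
      ring
    exact mul_left_cancel₀ hD h8

end Pool.Agent.H.MP_072fb1_ag
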