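import Pool.Agent.H.MP_072fb1_ag.Spin0a

/-! # The standard lattice of the model -/

namespace Pool.Agent.H.MP_072fb1_ag

open Matrix

/-- matrices with integral entries -/
def M0 : Submodule ℤ S0 where
  carrier := {s | (∀ i j, ∃ n : ℤ, s.1 i j = n) ∧ (∀ i j, ∃ n : ℤ, s.2 i j = n)}
  add_mem' := by
    rintro s t ⟨h1, h2⟩ ⟨h3, h4⟩
    refine ⟨fun i j => ?_, fun i j => ?_⟩
    · obtain ⟨a, ha⟩ := h1 i j
      obtain ⟨b, hb⟩ := h3 i j
      exact ⟨a + b, by rw [Prod.fst_add, Matrix.add_apply, ha, hb]; push_cast; rfl⟩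
    · obtain ⟨a, ha⟩ := h2 i j
      obtain ⟨b, hb⟩ := h4 i j
      exact ⟨a + b, by rw [Prod.snd_add, Matrix.add_apply, ha, hb]; push_cast; rfl⟩
  zero_mem' := ⟨fun _ _ => ⟨0, by simp⟩, fun _ _ => ⟨0, by simp⟩⟩
  smul_mem' := by
    rintro c s ⟨h1, h2⟩
    refine ⟨fun i j => ?_, fun i j => ?_⟩
    · obtain ⟨a, ha⟩ := h1 i j
      exact ⟨c * a, by rw [Prod.smul_fst, Matrix.smul_apply, ha, zsmul_eq_mul]; push_cast; rfl⟩
    · obtain ⟨a, ha⟩ := h2 i j
      exact ⟨c * a, by rw [Prod.smul_snd, Matrix.smul_apply, ha, zsmul_eq_mul]; push_cast; rfl⟩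

theorem mem_M0 (s : S0) : s ∈ M0 ↔
    (∀ i j, ∃ n : ℤ, s.1 i j = n) ∧ (∀ i j, ∃ n : ℤ, s.2 i j = n) := Iff.rfl

/-- integral matrices -/
def intMap : (Matrix (Fin 4) (Fin 2) ℤ × Matrix (Fin 4) (Fin 2) ℤ) →ₗ[ℤ] S0 where
  toFun m := (m.1.map (Int.cast : ℤ → ℚ), m.2.map (Int.cast : ℤ → ℚ))
  map_add' m n := by
    ext i j <;> simp
  map_smul' c m := by
    ext i j <;> simp

theorem range_intMap : LinearMap.range intMap = M0 := by
  ext s
  rw [LinearMap.mem_range, mem_M0]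
  constructor
  · rintro ⟨m, rfl⟩
    exact ⟨fun i j => ⟨m.1 i j, rfl⟩, fun i j => ⟨m.2 i j, rfl⟩⟩
  · rintro ⟨h1, h2⟩
    choose a ha using h1
    choose b hb using h2
    refine ⟨(a, b), ?_⟩
    refine Prod.ext ?_ ?_
    · ext i j
      exact (ha i j).symm
    · ext i j
      exact (hb i j).symm

theorem M0_fg : M0.FG := by
  rw [← range_intMap, LinearMap.range_eq_map]
  exact Submodule.FG.map _ Module.Finite.fg_top

theorem single_mem1 (i : Fin 4) (j : Fin 2) : ((Matrix.single i j (1 : ℚ), 0) : S0) ∈ M0 := by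
  refine ⟨fun a b => ?_, fun a b => ⟨0, by simp⟩⟩
  show ∃ n : ℤ, Matrix.single i j (1 : ℚ) a b = n
  rw [Matrix.single_apply]
  split_ifs
  · exact ⟨1, by simp⟩
  · exact ⟨0, by simp⟩

theorem single_mem2 (i : Fin 4) (j : Fin 2) : ((0, Matrix.single i j (1 : ℚ)) : S0) ∈ M0 := by
  refine ⟨fun a b => ⟨0, by simp⟩, fun a b => ?_⟩
  show ∃ n : ℤ, Matrix.single i j (1 : ℚ) a b = n
  rw [Matrix.single_apply]
  split_ifs
  · exact ⟨1, by simp⟩
  · exact ⟨0, by simp⟩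

theorem M0_span : Submodule.span ℚ (M0 : Set S0) = ⊤ := by
  rw [Submodule.eq_top_iff']
  rintro ⟨x, y⟩
  have h1 : ((x, y) : S0) = (x, 0) + (0, y) := by simp
  have h2 : ∀ x : Matrix (Fin 4) (Fin 2) ℚ, ((x, 0) : S0) =
      ∑ i, ∑ j, x i j • ((Matrix.single i j (1 : ℚ), 0) : S0) := by
    intro x
    refine Prod.ext ?_ ?_
    · simp only [Prod.fst_sum, Prod.smul_fst, Matrix.smul_single, smul_eq_mul, mul_one]
      exact Matrix.matrix_eq_sum_single x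
    · simp [Prod.snd_sum]
  have h3 : ∀ x : Matrix (Fin 4) (Fin 2) ℚ, ((0, x) : S0) =
      ∑ i, ∑ j, x i j • ((0, Matrix.single i j (1 : ℚ)) : S0) := by
    intro x
    refine Prod.ext ?_ ?_
    · simp [Prod.fst_sum]
    · simp only [Prod.snd_sum, Prod.smul_snd, Matrix.smul_single, smul_eq_mul, mul_one]
      exact Matrix.matrix_eq_sum_single x
  rw [h1, h2, h3]
  refine Submodule.add_mem _ ?_ ?_
  · exact Submodule.sum_mem _ fun i _ => Submodule.sum_mem _ fun j _ =>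
      Submodule.smul_mem _ _ (Submodule.subset_span (single_mem1 i j))
  · exact Submodule.sum_mem _ fun i _ => Submodule.sum_mem _ fun j _ =>
      Submodule.smul_mem _ _ (Submodule.subset_span (single_mem2 i j))

/-- integral matrices times integral matrices -/
theorem int_mul (G : Matrix (Fin 4) (Fin 4) ℤ) (x : Matrix (Fin 4) (Fin 2) ℚ)
    (hx : ∀ i j, ∃ n : ℤ, x i j = n) (i : Fin 4) (j : Fin 2) :
    ∃ n : ℤ, (G.map (Int.cast : ℤ → ℚ) * x) i j = n := by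
  choose a ha using hx
  refine ⟨∑ k, G i k * a k j, ?_⟩
  rw [Matrix.mul_apply]
  push_cast
  exact Finset.sum_congr rfl fun k _ => by rw [ha, Matrix.map_apply]

theorem selfdual0 (s : S0) : s ∈ M0 ↔ ∀ m ∈ M0, ∃ n : ℤ, form0 s m = n := by
  constructor
  · rintro ⟨h1, h2⟩ m ⟨h3, h4⟩
    choose a ha using h1
    choose b hb using h2
    choose c hc using h3
    choose e he using h4
    rw [form0_apply, form0Fun]
    refine ⟨∑ i, ((a i 0 * e i 1 - a i 1 * e i 0) - (b i 0 * c i 1 - b i 1 * c i 0)), ?_⟩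
    push_cast
    exact Finset.sum_congr rfl fun i _ => by rw [ha, ha, hb, hb, hc, hc, he, he]
  · intro h
    have key1 : ∀ i j, ∃ n : ℤ, form0 s (0, Matrix.single i j (1 : ℚ)) = n :=
      fun i j => h _ (single_mem2 i j)
    have key2 : ∀ i j, ∃ n : ℤ, form0 s (Matrix.single i j (1 : ℚ), 0) = n :=
      fun i j => h _ (single_mem1 i j)
    have e1 : ∀ i, form0 s (0, Matrix.single i 1 (1 : ℚ)) = s.1 i 0 := by
      intro i
      rw [form0_apply, form0Fun]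
      simp [Matrix.single_apply]
    have e2 : ∀ i, form0 s (0, Matrix.single i 0 (1 : ℚ)) = -s.1 i 1 := by
      intro i
      rw [form0_apply, form0Fun]
      simp [Matrix.single_apply]
    have e3 : ∀ i, form0 s (Matrix.single i 1 (1 : ℚ), 0) = -s.2 i 0 := by
      intro i
      rw [form0_apply, form0Fun]
      simp [Matrix.single_apply]
    have e4 : ∀ i, form0 s (Matrix.single i 0 (1 : ℚ), 0) = s.2 i 1 := by
      intro i
      rw [form0_apply, form0Fun]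
      simp [Matrix.single_apply]
    refine ⟨fun i j => ?_, fun i j => ?_⟩
    · fin_cases j
      · obtain ⟨n, hn⟩ := key1 i 1
        exact ⟨n, by rw [e1] at hn; exact hn⟩
      · obtain ⟨n, hn⟩ := key1 i 0
        refine ⟨-n, ?_⟩
        rw [e2] at hn
        show s.1 i 1 = _
        push_cast
        rw [← hn, neg_neg]
    · fin_cases j
      · obtain ⟨n, hn⟩ := key2 i 1
        refine ⟨-n, ?_⟩
        rw [e3] at hn
        show s.2 i 0 = _
        push_cast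
        rw [← hn, neg_neg]
      · obtain ⟨n, hn⟩ := key2 i 0
        exact ⟨n, by rw [e4] at hn; exact hn⟩

/-! ### The monodromy -/

theorem toMat_coord (G : Matrix (Fin 4) (Fin 4) ℚ) (v : Fin 6 → ℚ) :
    toMat (coord (G * toMat v * Gᵀ)) = G * toMat v * Gᵀ := by
  have hskew : ∀ i j, (G * toMat v * Gᵀ) i j = -(G * toMat v * Gᵀ) j i := by
    intro i j
    have h1 : (toMat v)ᵀ = -toMat v := by
      ext i j; fin_cases i <;> fin_cases j <;> simp [toMat]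
    have h2 : (G * toMat v * Gᵀ)ᵀ = -(G * toMat v * Gᵀ) := by
      rw [Matrix.transpose_mul, Matrix.transpose_mul, h1, Matrix.transpose_transpose,
        Matrix.neg_mul, Matrix.mul_neg, Matrix.mul_assoc]
    have h3 := congrFun (congrFun h2 j) i
    rw [Matrix.transpose_apply, Matrix.neg_apply] at h3
    exact h3
  have hdiag : ∀ i, (G * toMat v * Gᵀ) i i = 0 := by
    intro i
    have := hskew i i
    linarith
  ext i j
  fin_cases i <;> fin_cases j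
  all_goals first
    | exact (hdiag _).symm
    | rfl
    | exact (hskew _ _).symm

theorem det4 (G : Matrix (Fin 4) (Fin 4) ℚ) : G.det =
    G 0 0 * (G 1 1 * (G 2 2 * G 3 3 - G 2 3 * G 3 2) - G 1 2 * (G 2 1 * G 3 3 - G 2 3 * G 3 1) +
      G 1 3 * (G 2 1 * G 3 2 - G 2 2 * G 3 1)) -
    G 0 1 * (G 1 0 * (G 2 2 * G 3 3 - G 2 3 * G 3 2) - G 1 2 * (G 2 0 * G 3 3 - G 2 3 * G 3 0) +
      G 1 3 * (G 2 0 * G 3 2 - G 2 2 * G 3 0)) +
    G 0 2 * (G 1 0 * (G 2 1 * G 3 3 - G 2 3 * G 3 1) - G 1 1 * (G 2 0 * G 3 3 - G 2 3 * G 3 0) +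
      G 1 3 * (G 2 0 * G 3 1 - G 2 1 * G 3 0)) -
    G 0 3 * (G 1 0 * (G 2 1 * G 3 2 - G 2 2 * G 3 1) - G 1 1 * (G 2 0 * G 3 2 - G 2 2 * G 3 0) +
      G 1 2 * (G 2 0 * G 3 1 - G 2 1 * G 3 0)) := by
  rw [Matrix.det_succ_row_zero]
  simp [Fin.sum_univ_four, Matrix.det_fin_three, Fin.succAbove, Matrix.submatrix_apply]
  ring

/-- The dual class of `G A Gᵀ`. -/
theorem sharp_act (G : Matrix (Fin 4) (Fin 4) ℚ) (v : Fin 6 → ℚ) :
    Gᵀ * toMat (dualV (coord (G * toMat v * Gᵀ))) * G = G.det • toMat (dualV v) := by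
  rw [det4]
  ext i j
  fin_cases i <;> fin_cases j <;>
  simp [Matrix.mul_apply, Fin.sum_univ_four, toMat, dualV, coord] <;> ring

/-- the rational matrix of an element of `SL₄(ℤ)` -/
def qM (γ : Matrix.SpecialLinearGroup (Fin 4) ℤ) : Matrix (Fin 4) (Fin 4) ℚ :=
  (γ : Matrix (Fin 4) (Fin 4) ℤ).map (Int.cast : ℤ → ℚ)

theorem qM_mul (γ δ : Matrix.SpecialLinearGroup (Fin 4) ℤ) : qM (γ * δ) = qM γ * qM δ := by
  unfold qM
  rw [Matrix.SpecialLinearGroup.coe_mul]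
  exact Matrix.map_mul (f := Int.castRingHom ℚ)

theorem qM_one : qM 1 = 1 := by
  unfold qM
  rw [Matrix.SpecialLinearGroup.coe_one]
  exact Matrix.map_one _ Int.cast_zero Int.cast_one

theorem qM_det (γ : Matrix.SpecialLinearGroup (Fin 4) ℤ) : (qM γ).det = 1 := by
  have h1 := RingHom.map_det (Int.castRingHom ℚ) (γ : Matrix (Fin 4) (Fin 4) ℤ)
  rw [γ.det_coe, map_one] at h1
  exact h1.symm

theorem qM_inv (γ : Matrix.SpecialLinearGroup (Fin 4) ℤ) : qM γ * qM γ⁻¹ = 1 := by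
  rw [← qM_mul, mul_inv_cancel, qM_one]

theorem qM_inv' (γ : Matrix.SpecialLinearGroup (Fin 4) ℤ) : qM γ⁻¹ * qM γ = 1 := by
  rw [← qM_mul, inv_mul_cancel, qM_one]

theorem qM_invT (γ : Matrix.SpecialLinearGroup (Fin 4) ℤ) : (qM γ)ᵀ * (qM γ⁻¹)ᵀ = 1 := by
  rw [← Matrix.transpose_mul, qM_inv', Matrix.transpose_one]

theorem qM_invT' (γ : Matrix.SpecialLinearGroup (Fin 4) ℤ) : (qM γ⁻¹)ᵀ * (qM γ)ᵀ = 1 := by
  rw [← Matrix.transpose_mul, qM_inv, Matrix.transpose_one]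

/-- the monodromy operator of `γ` -/
def mono (γ : Matrix.SpecialLinearGroup (Fin 4) ℤ) : S0 ≃ₗ[ℚ] S0 where
  toFun s := ((qM γ⁻¹)ᵀ * s.1, qM γ * s.2)
  map_add' s t := by
    refine Prod.ext ?_ ?_
    · exact Matrix.mul_add _ _ _
    · exact Matrix.mul_add _ _ _
  map_smul' c s := by
    refine Prod.ext ?_ ?_
    · exact Matrix.mul_smul _ _ _
    · exact Matrix.mul_smul _ _ _
  invFun s := ((qM γ)ᵀ * s.1, qM γ⁻¹ * s.2)
  left_inv s := by
    refine Prod.ext ?_ ?_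
    · show (qM γ)ᵀ * ((qM γ⁻¹)ᵀ * s.1) = s.1
      rw [← Matrix.mul_assoc, qM_invT, Matrix.one_mul]
    · show qM γ⁻¹ * (qM γ * s.2) = s.2
      rw [← Matrix.mul_assoc, qM_inv', Matrix.one_mul]
  right_inv s := by
    refine Prod.ext ?_ ?_
    · show (qM γ⁻¹)ᵀ * ((qM γ)ᵀ * s.1) = s.1
      rw [← Matrix.mul_assoc, qM_invT', Matrix.one_mul]
    · show qM γ * (qM γ⁻¹ * s.2) = s.2
      rw [← Matrix.mul_assoc, qM_inv, Matrix.one_mul]

theorem mono_apply (γ : Matrix.SpecialLinearGroup (Fin 4) ℤ) (s : S0) :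
    mono γ s = ((qM γ⁻¹)ᵀ * s.1, qM γ * s.2) := rfl

theorem mono_mem (γ : Matrix.SpecialLinearGroup (Fin 4) ℤ) (s : S0) (hs : s ∈ M0) :
    mono γ s ∈ M0 := by
  obtain ⟨h1, h2⟩ := hs
  refine ⟨fun i j => ?_, fun i j => ?_⟩
  · exact int_mul ((γ⁻¹ : Matrix.SpecialLinearGroup (Fin 4) ℤ) : Matrix (Fin 4) (Fin 4) ℤ)ᵀ _ h1 i j
  · exact int_mul (γ : Matrix (Fin 4) (Fin 4) ℤ) _ h2 i j

theorem mono_inv (γ : Matrix.SpecialLinearGroup (Fin 4) ℤ) (s : S0) :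
    mono γ⁻¹ (mono γ s) = s := by
  rw [mono_apply, mono_apply, inv_inv]
  refine Prod.ext ?_ ?_
  · show (qM γ)ᵀ * ((qM γ⁻¹)ᵀ * s.1) = s.1
    rw [← Matrix.mul_assoc, qM_invT, Matrix.one_mul]
  · show qM γ⁻¹ * (qM γ * s.2) = s.2
    rw [← Matrix.mul_assoc, qM_inv', Matrix.one_mul]

theorem mono_preserves (γ : Matrix.SpecialLinearGroup (Fin 4) ℤ) : Preserves (mono γ) M0 := by
  intro s
  constructor
  · intro h
    have := mono_mem γ⁻¹ _ h
    rwa [mono_inv] at this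
  · exact mono_mem γ s

theorem act_fst (γ : Matrix.SpecialLinearGroup (Fin 4) ℤ) (x : Ht ℚ) :
    toMat (act γ x).1 = qM γ * toMat x.1 * (qM γ)ᵀ := toMat_coord (qM γ) x.1

theorem act_snd (γ : Matrix.SpecialLinearGroup (Fin 4) ℤ) (x : Ht ℚ) : (act γ x).2 = x.2 := rfl

theorem act_dual (γ : Matrix.SpecialLinearGroup (Fin 4) ℤ) (x : Ht ℚ) :
    toMat (dualV (act γ x).1) = (qM γ⁻¹)ᵀ * toMat (dualV x.1) * qM γ⁻¹ := by
  have h1 := sharp_act (qM γ) x.1
  rw [qM_det, one_smul] at h1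
  have h2 : (act γ x).1 = coord (qM γ * toMat x.1 * (qM γ)ᵀ) := rfl
  rw [h2, ← h1]
  calc toMat (dualV (coord (qM γ * toMat x.1 * (qM γ)ᵀ)))
      = ((qM γ⁻¹)ᵀ * (qM γ)ᵀ) * toMat (dualV (coord (qM γ * toMat x.1 * (qM γ)ᵀ))) *
        (qM γ * qM γ⁻¹) := by rw [qM_invT', qM_inv, Matrix.one_mul, Matrix.mul_one]
    _ = _ := by simp only [Matrix.mul_assoc]

theorem mono_kap (γ : Matrix.SpecialLinearGroup (Fin 4) ℤ) (x y : Ht ℚ) (s : S0) :
    mono γ (kap0 x y s) = kap0 (act γ x) (act γ y) (mono γ s) := by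
  rw [kap0_apply, kap0_apply, mono_apply, mono_apply, kapFun, kapFun, act_fst, act_fst, act_dual,
    act_dual, act_snd, act_snd]
  have c1 : ∀ X : Matrix (Fin 4) (Fin 2) ℚ, qM γ⁻¹ * (qM γ * X) = X := by
    intro X; rw [← Matrix.mul_assoc, qM_inv', Matrix.one_mul]
  have c2 : ∀ X : Matrix (Fin 4) (Fin 2) ℚ, (qM γ)ᵀ * ((qM γ⁻¹)ᵀ * X) = X := by
    intro X; rw [← Matrix.mul_assoc, qM_invT, Matrix.one_mul]
  refine Prod.ext ?_ ?_
  · simp only [Matrix.mul_add, Matrix.mul_sub, Matrix.mul_neg, Matrix.mul_smul, Matrix.mul_assoc,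
      c1, c2]
  · simp only [Matrix.mul_add, Matrix.mul_sub, Matrix.mul_neg, Matrix.mul_smul, Matrix.mul_assoc,
      c1, c2]

theorem isOddK0 : IsOddK kap0 M0 where
  toIsSpin := isSpin_kap0
  fg := M0_fg
  span_eq := M0_span
  monodromy := fun γ => ⟨mono γ, mono_preserves γ, mono_kap γ⟩
  selfdual := ⟨form0, form0_kap0, selfdual0⟩

end Pool.Agent.H.MP_072fb1_ag
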