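import Pool.Agent.H.MP_072fb1_ag.Model

/-! # Module Sharp: the derived isometry when `3 ∤ d` -/

namespace Pool.Agent.H.MP_072fb1_ag

open Matrix

set_option maxHeartbeats 4000000

/-- the scalar `-s (x, n)`, `n = (h, -q)`, `q = v e - 3 f` -/
def lamF (d v s : ℚ) (x : Ht ℚ) : ℚ :=
  s * (v * x.2 1 - 3 * x.2 0 - (x.1 5 + d * x.1 0))

/-- the scalar `-s (ιx, n)` -/
def muF (d v s : ℚ) (x : Ht ℚ) : ℚ :=
  -s * ((x.1 0 + d * x.1 5) + (v * x.2 1 - 3 * x.2 0))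

/-- the isometry `ι ∘ r_n` -/
def psiF (d v s : ℚ) (x : Ht ℚ) : Ht ℚ :=
  (![x.1 5 + lamF d v s x * d, -x.1 4, x.1 3, x.1 2, -x.1 1, x.1 0 + lamF d v s x],
   ![-x.2 0 + lamF d v s x * v, -x.2 1 - 3 * lamF d v s x, -x.2 2])

/-- the inverse `r_n ∘ ι` -/
def psiInvF (d v s : ℚ) (x : Ht ℚ) : Ht ℚ :=
  (![x.1 5 + muF d v s x, -x.1 4, x.1 3, x.1 2, -x.1 1, x.1 0 + muF d v s x * d],
   ![-x.2 0 - muF d v s x * v, -x.2 1 + 3 * muF d v s x, -x.2 2])

/-- the isometry as a linear equivalence -/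
def psiE (d v s : ℚ) (hs : s = 1 ∨ s = -1) (hd : d = 3 * v + s) : Ht ℚ ≃ₗ[ℚ] Ht ℚ where
  toFun := psiF d v s
  invFun := psiInvF d v s
  map_add' x y := by
    refine Prod.ext (funext fun i => ?_) (funext fun i => ?_) <;> fin_cases i <;>
    simp [psiF, lamF] <;> ring
  map_smul' c x := by
    refine Prod.ext (funext fun i => ?_) (funext fun i => ?_) <;> fin_cases i <;>
    simp [psiF, lamF] <;> ring
  left_inv x := by
    rcases hs with rfl | rfl <;> subst hd <;>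
    refine Prod.ext (funext fun i => ?_) (funext fun i => ?_) <;> fin_cases i <;>
    simp [psiF, psiInvF, lamF, muF] <;> ring
  right_inv x := by
    rcases hs with rfl | rfl <;> subst hd <;>
    refine Prod.ext (funext fun i => ?_) (funext fun i => ?_) <;> fin_cases i <;>
    simp [psiF, psiInvF, lamF, muF] <;> ring

theorem psiE_apply (d v s : ℚ) (hs : s = 1 ∨ s = -1) (hd : d = 3 * v + s) (x : Ht ℚ) :
    psiE d v s hs hd x = psiF d v s x := rfl

theorem pair_psiF (d v s : ℚ) (hs : s = 1 ∨ s = -1) (hd : d = 3 * v + s) (x y : Ht ℚ) :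
    pair (psiF d v s x) (psiF d v s y) = pair x y := by
  rcases hs with rfl | rfl <;> subst hd <;>
  simp [pair, pairV, psiF, lamF] <;> ring

/-- multiplication on the left by `toMat ![a, 0, 0, 0, 0, b]` -/
def lm (a b : ℚ) (x : Matrix (Fin 4) (Fin 2) ℚ) : Matrix (Fin 4) (Fin 2) ℚ :=
  !![a * x 1 0, a * x 1 1; -(a * x 0 0), -(a * x 0 1); b * x 3 0, b * x 3 1;
    -(b * x 2 0), -(b * x 2 1)]

/-- multiplication on the right by `!![0, 1; v, 0]` -/
def rm (v : ℚ) (x : Matrix (Fin 4) (Fin 2) ℚ) : Matrix (Fin 4) (Fin 2) ℚ :=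
  !![v * x 0 1, x 0 0; v * x 1 1, x 1 0; v * x 2 1, x 2 0; v * x 3 1, x 3 0]

/-- the lattice automorphism -/
def gF (d v : ℚ) (z : S0) : S0 :=
  (lm 1 d z.1 - (3 : ℚ) • rm v z.2, rm v z.1 + lm d 1 z.2)

/-- its inverse -/
def gInvF (d v s : ℚ) (z : S0) : S0 :=
  (-(s • lm d 1 z.1) - (3 * s) • rm v z.2, s • rm v z.1 - s • lm 1 d z.2)

/-- the lattice automorphism as a linear equivalence -/
def gE (d v s : ℚ) (hs : s = 1 ∨ s = -1) (hd : d = 3 * v + s) : S0 ≃ₗ[ℚ] S0 where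
  toFun := gF d v
  invFun := gInvF d v s
  map_add' x y := by
    refine Prod.ext (Matrix.ext fun i j => ?_) (Matrix.ext fun i j => ?_) <;> fin_cases i <;> fin_cases j <;>
    simp [gF, lm, rm] <;> ring
  map_smul' c x := by
    refine Prod.ext (Matrix.ext fun i j => ?_) (Matrix.ext fun i j => ?_) <;> fin_cases i <;> fin_cases j <;>
    simp [gF, lm, rm] <;> ring
  left_inv x := by
    rcases hs with rfl | rfl <;> subst hd <;>
    refine Prod.ext (Matrix.ext fun i j => ?_) (Matrix.ext fun i j => ?_) <;> fin_cases i <;> fin_cases j <;>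
    simp [gF, gInvF, lm, rm] <;> ring
  right_inv x := by
    rcases hs with rfl | rfl <;> subst hd <;>
    refine Prod.ext (Matrix.ext fun i j => ?_) (Matrix.ext fun i j => ?_) <;> fin_cases i <;> fin_cases j <;>
    simp [gF, gInvF, lm, rm] <;> ring

theorem gE_apply (d v s : ℚ) (hs : s = 1 ∨ s = -1) (hd : d = 3 * v + s) (x : S0) :
    gE d v s hs hd x = gF d v x := rfl

theorem ent1 (x y : Ht ℚ) (z : S0) (i : Fin 4) (j : Fin 2) : (kapFun x y z).1 i j =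
  -(∑ k, (∑ l, toMat (dualV x.1) i l * toMat y.1 l k) * z.1 k j)
    - 3 * (∑ k, z.1 i k * (∑ l, mW y.2 k l * mW x.2 l j))
      - 3 * (∑ l, (∑ k, toMat (dualV x.1) i k * z.2 k l) * mW y.2 l j)
      + 3 * (∑ l, (∑ k, toMat (dualV y.1) i k * z.2 k l) * mW x.2 l j) := by
  simp only [kapFun, Matrix.mul_apply, Matrix.add_apply,
    Matrix.sub_apply, Matrix.neg_apply, Matrix.smul_apply, smul_eq_mul]

theorem ent2 (x y : Ht ℚ) (z : S0) (i : Fin 4) (j : Fin 2) : (kapFun x y z).2 i j =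
  -(∑ k, (∑ l, toMat x.1 i l * toMat (dualV y.1) l k) * z.2 k j)
    - 3 * (∑ k, z.2 i k * (∑ l, mW y.2 k l * mW x.2 l j))
      + (∑ l, (∑ k, toMat x.1 i k * z.1 k l) * mW y.2 l j)
      - (∑ l, (∑ k, toMat y.1 i k * z.1 k l) * mW x.2 l j) := by
  simp only [kapFun, Matrix.mul_apply, Matrix.add_apply,
    Matrix.sub_apply, Matrix.neg_apply, Matrix.smul_apply, smul_eq_mul]

theorem gF_kap1 (d v s : ℚ) (hs : s = 1 ∨ s = -1) (hd : d = 3 * v + s) (x y : Ht ℚ) (z : S0) :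
    (gF d v (kapFun x y z)).1 = (kapFun (psiF d v s x) (psiF d v s y) (gF d v z)).1 := by
  obtain ⟨z1, z2⟩ := z
  obtain ⟨p, w⟩ := x
  obtain ⟨p', w'⟩ := y
  rcases hs with rfl | rfl <;> subst hd <;>
  refine (Matrix.ext fun i j => ?_) <;> fin_cases i <;> fin_cases j <;>
  simp only [ent1, Fin.sum_univ_four, Fin.sum_univ_two] <;>
  simp [gF, lm, rm] <;>
  simp only [ent1, ent2, Fin.sum_univ_four, Fin.sum_univ_two] <;>
  simp [psiF, lamF, toMat, dualV, mW] <;>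
  ring

theorem gF_kap2 (d v s : ℚ) (hs : s = 1 ∨ s = -1) (hd : d = 3 * v + s) (x y : Ht ℚ) (z : S0) :
    (gF d v (kapFun x y z)).2 = (kapFun (psiF d v s x) (psiF d v s y) (gF d v z)).2 := by
  obtain ⟨z1, z2⟩ := z
  obtain ⟨p, w⟩ := x
  obtain ⟨p', w'⟩ := y
  rcases hs with rfl | rfl <;> subst hd <;>
  refine (Matrix.ext fun i j => ?_) <;> fin_cases i <;> fin_cases j <;>
  simp only [ent2, Fin.sum_univ_four, Fin.sum_univ_two] <;>
  simp [gF, lm, rm] <;>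
  simp only [ent1, ent2, Fin.sum_univ_four, Fin.sum_univ_two] <;>
  simp [psiF, lamF, toMat, dualV, mW] <;>
  ring

theorem pairC_psiF (d : ℕ) (v s : ℚ) (σ : Fin 6 → ℂ)
    (hN : pairC ![1, 0, 0, 0, 0, (d : ℚ)] σ = 0) (x : Ht ℚ) :
    pairC (psiF d v s x).1 (dualV σ) = 1 * pairC x.1 σ := by
  have h0 : (σ 5 + d * σ 0 : ℂ) = 0 := by
    have := hN
    simp [pairC, pairV] at this
    linear_combination this
  have h1 : σ 5 = - (d * σ 0 : ℂ) := by linear_combination h0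
  simp [pairC, pairV, psiF, dualV, h1]
  ring

/-- membership of the integral lattice -/
def IsInt (s : S0) : Prop :=
  (∀ i j, ∃ n : ℤ, s.1 i j = n) ∧ (∀ i j, ∃ n : ℤ, s.2 i j = n)

theorem sharp_aux (d : ℕ) (h3 : ¬ 3 ∣ d) (σ : Fin 6 → ℂ) (hN : NeronSeveri σ d)
    (M : Submodule ℤ S0) (hM : ∀ s : S0, s ∈ M ↔ IsInt s) :
    DerivedIso kap0 M σ (dualV σ) := by
  obtain ⟨v, s, hs, hd⟩ : ∃ v s : ℤ, (s = 1 ∨ s = -1) ∧ (d : ℤ) = 3 * v + s := by
    have h : d % 3 = 1 ∨ d % 3 = 2 := by omega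
    rcases h with h | h
    · exact ⟨d / 3, 1, Or.inl rfl, by omega⟩
    · exact ⟨d / 3 + 1, -1, Or.inr rfl, by omega⟩
  have hs' : (s : ℚ) = 1 ∨ (s : ℚ) = -1 := by
    rcases hs with rfl | rfl <;> simp
  have hd' : (d : ℚ) = 3 * (v : ℚ) + (s : ℚ) := by exact_mod_cast hd
  have hh : pairC ![1, 0, 0, 0, 0, (d : ℚ)] σ = 0 := (hN _).2 ⟨1, by simp⟩
  have hint : ∀ z : S0, IsInt z → IsInt (gF d v z) := by
    rintro z ⟨h1, h2⟩
    choose a ha using h1
    choose b hb using h2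
    constructor
    · intro i j
      fin_cases i <;> fin_cases j
      · exact ⟨a 1 0 - 3 * (v * b 0 1), by simp [gF, lm, rm, ha, hb]⟩
      · exact ⟨a 1 1 - 3 * b 0 0, by simp [gF, lm, rm, ha, hb]⟩
      · exact ⟨-a 0 0 - 3 * (v * b 1 1), by simp [gF, lm, rm, ha, hb]⟩
      · exact ⟨-a 0 1 - 3 * b 1 0, by simp [gF, lm, rm, ha, hb]⟩
      · exact ⟨d * a 3 0 - 3 * (v * b 2 1), by simp [gF, lm, rm, ha, hb]⟩
      · exact ⟨d * a 3 1 - 3 * b 2 0, by simp [gF, lm, rm, ha, hb]⟩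
      · exact ⟨-(d * a 2 0) - 3 * (v * b 3 1), by simp [gF, lm, rm, ha, hb]⟩
      · exact ⟨-(d * a 2 1) - 3 * b 3 0, by simp [gF, lm, rm, ha, hb]⟩
    · intro i j
      fin_cases i <;> fin_cases j
      · exact ⟨v * a 0 1 + d * b 1 0, by simp [gF, lm, rm, ha, hb]⟩
      · exact ⟨a 0 0 + d * b 1 1, by simp [gF, lm, rm, ha, hb]⟩
      · exact ⟨v * a 1 1 + -(d * b 0 0), by simp [gF, lm, rm, ha, hb]⟩
      · exact ⟨a 1 0 + -(d * b 0 1), by simp [gF, lm, rm, ha, hb]⟩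
      · exact ⟨v * a 2 1 + b 3 0, by simp [gF, lm, rm, ha, hb]⟩
      · exact ⟨a 2 0 + b 3 1, by simp [gF, lm, rm, ha, hb]⟩
      · exact ⟨v * a 3 1 + -b 2 0, by simp [gF, lm, rm, ha, hb]⟩
      · exact ⟨a 3 0 + -b 2 1, by simp [gF, lm, rm, ha, hb]⟩
  have hintInv : ∀ z : S0, IsInt z → IsInt (gInvF d v s z) := by
    rintro z ⟨h1, h2⟩
    choose a ha using h1
    choose b hb using h2
    constructor
    · intro i j
      fin_cases i <;> fin_cases j
      · exact ⟨-(s * (d * a 1 0)) - 3 * s * (v * b 0 1), by simp [gInvF, lm, rm, ha, hb]⟩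
      · exact ⟨-(s * (d * a 1 1)) - 3 * s * b 0 0, by simp [gInvF, lm, rm, ha, hb]⟩
      · exact ⟨s * (d * a 0 0) - 3 * s * (v * b 1 1), by simp [gInvF, lm, rm, ha, hb]⟩
      · exact ⟨s * (d * a 0 1) - 3 * s * b 1 0, by simp [gInvF, lm, rm, ha, hb]⟩
      · exact ⟨-(s * a 3 0) - 3 * s * (v * b 2 1), by simp [gInvF, lm, rm, ha, hb]⟩
      · exact ⟨-(s * a 3 1) - 3 * s * b 2 0, by simp [gInvF, lm, rm, ha, hb]⟩
      · exact ⟨s * a 2 0 - 3 * s * (v * b 3 1), by simp [gInvF, lm, rm, ha, hb]⟩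
      · exact ⟨s * a 2 1 - 3 * s * b 3 0, by simp [gInvF, lm, rm, ha, hb]⟩
    · intro i j
      fin_cases i <;> fin_cases j
      · exact ⟨s * (v * a 0 1) - s * b 1 0, by simp [gInvF, lm, rm, ha, hb]⟩
      · exact ⟨s * a 0 0 - s * b 1 1, by simp [gInvF, lm, rm, ha, hb]⟩
      · exact ⟨s * (v * a 1 1) + s * b 0 0, by simp [gInvF, lm, rm, ha, hb]⟩
      · exact ⟨s * a 1 0 + s * b 0 1, by simp [gInvF, lm, rm, ha, hb]⟩
      · exact ⟨s * (v * a 2 1) - s * (d * b 3 0), by simp [gInvF, lm, rm, ha, hb]⟩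
      · exact ⟨s * a 2 0 - s * (d * b 3 1), by simp [gInvF, lm, rm, ha, hb]⟩
      · exact ⟨s * (v * a 3 1) + s * (d * b 2 0), by simp [gInvF, lm, rm, ha, hb]⟩
      · exact ⟨s * a 3 0 + s * (d * b 2 1), by simp [gInvF, lm, rm, ha, hb]⟩
  refine ⟨gE d v s hs' hd', psiE d v s hs' hd', ?_, ?_, ?_, 1, ?_⟩
  · intro z
    rw [hM, hM, gE_apply]
    constructor
    · intro h
      have := hintInv _ h
      have h2 : gInvF d v s (gF d v z) = z := (gE d v s hs' hd').left_inv z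
      rwa [h2] at this
    · exact hint z
  · intro x y
    exact pair_psiF _ _ _ hs' hd' x y
  · intro x y z
    rw [kap0_apply, kap0_apply, gE_apply, gE_apply, psiE_apply, psiE_apply]
    exact Prod.ext (gF_kap1 _ _ _ hs' hd' x y z) (gF_kap2 _ _ _ hs' hd' x y z)
  · intro x
    rw [psiE_apply]
    exact pairC_psiF d v s σ hh x

end Pool.Agent.H.MP_072fb1_ag
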