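import Pool.Agent.H.MP_072fb1_ag.Data
import Pool.Agent.H.MP_072fb1_ag.Transfer
import Pool.Agent.H.MP_072fb1_ag.Shape
import Pool.Agent.H.MP_072fb1_ag.Hodge
import Pool.Agent.H.MP_072fb1_ag.Rel
import Pool.Agent.H.MP_072fb1_ag.Final
import Pool.Agent.H.MP_072fb1_ag.Exist
import Pool.Agent.H.MP_072fb1_ag.Spin0b
import Pool.Agent.H.MP_072fb1_ag.Sharp

/-! # The main theorem -/

namespace Pool.Agent.H.MP_072fb1_ag

open Matrix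

theorem not_derivedIso {S : Type*} [AddCommGroup S] [Module ℚ S]
    (κ : Ht ℚ →ₗ[ℚ] Ht ℚ →ₗ[ℚ] Module.End ℚ S) (M : Submodule ℤ S) (h : IsOddK κ M)
    (d : ℕ) (hd : 0 < d) (h3 : 3 ∣ d) (σ : Fin 6 → ℂ) (hσ : IsPeriod σ) (hN : NeronSeveri σ d) :
    ¬ DerivedIso κ M σ (dualV σ) := by
  intro hi
  obtain ⟨M', hK, g, ψ, hgM, hψ, hg, c, hc⟩ := transfer h hi
  obtain ⟨P, μ, hμ, hfg, hspan, hM⟩ := shape hK
  obtain ⟨⟨ε, hε, h1⟩, h2⟩ := hodge hd hσ hN ψ hψ c hc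
  obtain ⟨A, B, C, e, he, hG⟩ := rel d hd g ψ hg ε hε h1 h2
  exact final d h3 P μ hμ hfg hspan M' hM A B C e he g hG hgM

theorem sharp (d : ℕ) (h3 : ¬ 3 ∣ d) (σ : Fin 6 → ℂ) (hN : NeronSeveri σ d) :
    DerivedIso kap0 M0 σ (dualV σ) := sharp_aux d h3 σ hN M0 mem_M0

theorem not_kIsomorphic {S : Type} [AddCommGroup S] [Module ℚ S]
    (κ : Ht ℚ → Ht ℚ → S → S) (M : Submodule ℤ S) (h : OddKTheory κ M)
    (d : ℕ) (hd : 0 < d) (h3 : 3 ∣ d) (σ : Fin 6 → ℂ) (hσ : IsPeriod σ) (hN : NeronSeveri σ d) :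
    ¬ KIsomorphic κ M σ (dualV σ) := fun hk =>
  not_derivedIso h.spin.linear.toLin M h.toIsOddK d hd h3 σ hσ hN (hk.toDerivedIso h.spin.linear)

theorem main :
    (∀ d : ℕ, 0 < d → ∃ σ : Fin 6 → ℂ, IsPeriod σ ∧ NeronSeveri σ d) ∧
    (∀ (d : ℕ) (σ : Fin 6 → ℂ), 0 < d → IsPeriod σ → NeronSeveri σ d →
      IsPeriod (dualV σ) ∧ HodgeIsometric σ (dualV σ) ∧
      (3 ∣ d → ∀ (S : Type) [AddCommGroup S] [Module ℚ S] (κ : Ht ℚ → Ht ℚ → S → S)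
        (M : Submodule ℤ S), OddKTheory κ M → ¬ KIsomorphic κ M σ (dualV σ))) ∧
    (∃ (κ : Ht ℚ → Ht ℚ → Matrix (Fin 4) (Fin 2) ℚ × Matrix (Fin 4) (Fin 2) ℚ →
          Matrix (Fin 4) (Fin 2) ℚ × Matrix (Fin 4) (Fin 2) ℚ)
        (M : Submodule ℤ (Matrix (Fin 4) (Fin 2) ℚ × Matrix (Fin 4) (Fin 2) ℚ)), OddKTheory κ M ∧
      ∀ (d : ℕ) (σ : Fin 6 → ℂ), 0 < d → IsPeriod σ → NeronSeveri σ d →
        (KIsomorphic κ M σ (dualV σ) ↔ ¬ 3 ∣ d)) :=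
  ⟨exists_period,
    fun d σ hd hσ hN => ⟨isPeriod_dual σ hσ, hodgeIsometric_dual σ,
      fun h3 _ _ _ κ M h => not_kIsomorphic κ M h d hd h3 σ hσ hN⟩,
    fun x y s => kap0 x y s, M0, isOddK0.toOddKTheory, fun d σ hd hσ hN =>
      ⟨fun h h3 => not_kIsomorphic _ M0 isOddK0.toOddKTheory d hd h3 σ hσ hN h,
        fun h3 => (sharp d h3 σ hN).toKIsomorphic⟩⟩

end Pool.Agent.H.MP_072fb1_ag
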