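import Pool.Agent.H.MP_072fb1_ag.Defs

/-! # The explicit model of the spin representation -/

namespace Pool.Agent.H.MP_072fb1_ag

open Matrix

/-- `(L ⊗ P) ⊕ (L* ⊗ P)`, `P = ℚ²`: rows are indexed by `L`, columns by `P`. -/
abbrev S0 := Matrix (Fin 4) (Fin 2) ℚ × Matrix (Fin 4) (Fin 2) ℚ

/-- `r e + s f + t δ` as a traceless matrix; `det = -t² + r s / 3`. Transposed (acts on the right). -/
def mW (w : Fin 3 → ℚ) : Matrix (Fin 2) (Fin 2) ℚ := !![w 2, -(w 1) / 3; w 0, -(w 2)]

/-- The even Clifford action, as a plain function. -/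
def kapFun (x y : Ht ℚ) (s : S0) : S0 :=
  (-(toMat (dualV x.1) * toMat y.1 * s.1) - (3 : ℚ) • (s.1 * (mW y.2 * mW x.2))
      - (3 : ℚ) • (toMat (dualV x.1) * s.2 * mW y.2) + (3 : ℚ) • (toMat (dualV y.1) * s.2 * mW x.2),
   -(toMat x.1 * toMat (dualV y.1) * s.2) - (3 : ℚ) • (s.2 * (mW y.2 * mW x.2))
      + toMat x.1 * s.1 * mW y.2 - toMat y.1 * s.1 * mW x.2)

theorem toMat_add (v w : Fin 6 → ℚ) : toMat (v + w) = toMat v + toMat w := by
  ext i j; fin_cases i <;> fin_cases j <;> simp [toMat] <;> ring

theorem toMat_smul (c : ℚ) (v : Fin 6 → ℚ) : toMat (c • v) = c • toMat v := by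
  ext i j; fin_cases i <;> fin_cases j <;> simp [toMat]

theorem dualV_add (v w : Fin 6 → ℚ) : dualV (v + w) = dualV v + dualV w := by
  ext i; fin_cases i <;> simp [dualV] <;> ring

theorem dualV_smul (c : ℚ) (v : Fin 6 → ℚ) : dualV (c • v) = c • dualV v := by
  ext i; fin_cases i <;> simp [dualV]

theorem mW_add (v w : Fin 3 → ℚ) : mW (v + w) = mW v + mW w := by
  ext i j; fin_cases i <;> fin_cases j <;> simp [mW] <;> ring

theorem mW_smul (c : ℚ) (v : Fin 3 → ℚ) : mW (c • v) = c • mW v := by
  ext i j; fin_cases i <;> fin_cases j <;> simp [mW] <;> ring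

/-- The even Clifford action of the model. -/
def kap0 : Ht ℚ →ₗ[ℚ] Ht ℚ →ₗ[ℚ] Module.End ℚ S0 :=
  LinearMap.mk₂ ℚ (fun x y =>
    { toFun := kapFun x y
      map_add' := by
        intro s t
        ext i j <;>
        simp only [kapFun, Prod.fst_add, Prod.snd_add, Matrix.mul_add, Matrix.add_mul, smul_add,
          Matrix.add_apply, Matrix.sub_apply, Matrix.neg_apply, neg_add] <;> ring
      map_smul' := by
        intro c s
        ext i j <;>
        simp only [kapFun, Prod.smul_fst, Prod.smul_snd, Matrix.mul_smul, Matrix.smul_mul,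
          Matrix.add_apply, Matrix.sub_apply, Matrix.neg_apply, Matrix.smul_apply, smul_eq_mul,
          RingHom.id_apply] <;> ring })
    (by
      intro x x' y
      refine LinearMap.ext fun s => ?_
      show kapFun (x + x') y s = kapFun x y s + kapFun x' y s
      ext i j <;>
      simp only [kapFun, Prod.fst_add, Prod.snd_add, toMat_add, dualV_add, mW_add, Matrix.mul_add,
        Matrix.add_mul, smul_add, Matrix.add_apply, Matrix.sub_apply, Matrix.neg_apply, neg_add] <;>
      ring)
    (by
      intro c x y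
      refine LinearMap.ext fun s => ?_
      show kapFun (c • x) y s = c • kapFun x y s
      ext i j <;>
      simp only [kapFun, Prod.smul_fst, Prod.smul_snd, toMat_smul, dualV_smul, mW_smul,
        Matrix.mul_smul, Matrix.smul_mul, Matrix.add_apply, Matrix.sub_apply, Matrix.neg_apply,
        Matrix.smul_apply, smul_eq_mul] <;> ring)
    (by
      intro x y y'
      refine LinearMap.ext fun s => ?_
      show kapFun x (y + y') s = kapFun x y s + kapFun x y' s
      ext i j <;>
      simp only [kapFun, Prod.fst_add, Prod.snd_add, toMat_add, dualV_add, mW_add, Matrix.mul_add,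
        Matrix.add_mul, smul_add, Matrix.add_apply, Matrix.sub_apply, Matrix.neg_apply, neg_add] <;>
      ring)
    (by
      intro c x y
      refine LinearMap.ext fun s => ?_
      show kapFun x (c • y) s = c • kapFun x y s
      ext i j <;>
      simp only [kapFun, Prod.smul_fst, Prod.smul_snd, toMat_smul, dualV_smul, mW_smul,
        Matrix.mul_smul, Matrix.smul_mul, Matrix.add_apply, Matrix.sub_apply, Matrix.neg_apply,
        Matrix.smul_apply, smul_eq_mul] <;> ring)

theorem kap0_apply (x y : Ht ℚ) (s : S0) : kap0 x y s = kapFun x y s := rfl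

end Pool.Agent.H.MP_072fb1_ag
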