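import Pool.Agent.H.MP_072fb1_ag.Car

/-! # Uniqueness of the spin representation; transport of structure -/

namespace Pool.Agent.H.MP_072fb1_ag

open Matrix

theorem pair_add_left (x x' y : Ht ℚ) : pair (x + x') y = pair x y + pair x' y := by
  simp only [pair, pairV, Prod.fst_add, Prod.snd_add, Pi.add_apply]
  ring

theorem pair_add_right (x y y' : Ht ℚ) : pair x (y + y') = pair x y + pair x y' := by
  simp only [pair, pairV, Prod.fst_add, Prod.snd_add, Pi.add_apply]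
  ring

theorem pair_comm (x y : Ht ℚ) : pair x y = pair y x := by
  simp only [pair, pairV]
  ring

/-- the vector `δ` -/
def dlt : Ht ℚ := (0, ![0, 0, 1])

/-- the isotropic vectors `a_i` -/
def hA : Fin 4 → Ht ℚ :=
  ![(![1, 0, 0, 0, 0, 0], 0), (![0, 1, 0, 0, 0, 0], 0), (![0, 0, 1, 0, 0, 0], 0), (0, ![1, 0, 0])]

/-- the isotropic vectors `b_i` -/
def hB : Fin 4 → Ht ℚ :=
  ![(![0, 0, 0, 0, 0, 1], 0), (![0, 0, 0, 0, -1, 0], 0), (![0, 0, 0, 1, 0, 0], 0), (0, ![0, 1, 0])]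

theorem pair_hA_hA (i j : Fin 4) : pair (hA i) (hA j) = 0 := by
  fin_cases i <;> fin_cases j <;> simp [pair, pairV, hA]

theorem pair_hB_hB (i j : Fin 4) : pair (hB i) (hB j) = 0 := by
  fin_cases i <;> fin_cases j <;> simp [pair, pairV, hB]

theorem pair_hA_hB (i j : Fin 4) : pair (hA i) (hB j) = if i = j then 1 else 0 := by
  fin_cases i <;> fin_cases j <;> simp [pair, pairV, hA, hB]

theorem pair_hA_dlt (i : Fin 4) : pair (hA i) dlt = 0 := by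
  fin_cases i <;> simp [pair, pairV, hA, dlt]

theorem pair_hB_dlt (i : Fin 4) : pair (hB i) dlt = 0 := by
  fin_cases i <;> simp [pair, pairV, hB, dlt]

theorem pair_dlt_dlt : pair dlt dlt = -6 := by
  simp [pair, pairV, dlt]

/-- every vector is a combination of the `a_i`, `b_i` and `δ` -/
theorem decomp (x : Ht ℚ) : x = (x.1 0 • hA 0 + x.1 1 • hA 1 + x.1 2 • hA 2 + x.2 0 • hA 3 +
    (x.1 5 • hB 0 + (-(x.1 4)) • hB 1 + x.1 3 • hB 2 + x.2 1 • hB 3)) + x.2 2 • dlt := by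
  refine Prod.ext ?_ ?_
  · ext i
    fin_cases i <;> simp [hA, hB, dlt]
  · ext i
    fin_cases i <;> simp [hA, hB, dlt]

section
variable {S : Type*} [AddCommGroup S] [Module ℚ S] {S' : Type*} [AddCommGroup S'] [Module ℚ S']

theorem IsSpin.polar {κ : Ht ℚ →ₗ[ℚ] Ht ℚ →ₗ[ℚ] Module.End ℚ S} (h : IsSpin κ) (x y : Ht ℚ) :
    κ x y + κ y x = pair x y • (1 : Module.End ℚ S) := by
  have h1 := h.kap_self (x + y)
  rw [LinearMap.map_add₂, map_add, map_add, h.kap_self x, h.kap_self y,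
    pair_add_left, pair_add_right, pair_add_right, pair_comm y x] at h1
  have h2 : κ x y + κ y x = ((pair x x + pair x y + (pair x y + pair y y)) / 2) •
      (1 : Module.End ℚ S) - (pair x x / 2) • (1 : Module.End ℚ S) -
      (pair y y / 2) • (1 : Module.End ℚ S) := by
    rw [← h1]
    abel
  rw [h2, ← sub_smul, ← sub_smul]
  congr 1
  ring

/-- orthogonal to `δ` -/
def Od (x : Ht ℚ) : Prop := pair x dlt = 0

theorem IsSpin.dlt_left {κ : Ht ℚ →ₗ[ℚ] Ht ℚ →ₗ[ℚ] Module.End ℚ S} (h : IsSpin κ) {x : Ht ℚ}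
    (hx : Od x) : κ dlt x = -κ x dlt := by
  have h1 := h.polar dlt x
  rw [pair_comm, hx, zero_smul] at h1
  exact eq_neg_of_add_eq_zero_left h1

theorem IsSpin.mul_dlt {κ : Ht ℚ →ₗ[ℚ] Ht ℚ →ₗ[ℚ] Module.End ℚ S} (h : IsSpin κ) (x : Ht ℚ)
    {y : Ht ℚ} (hy : Od y) : κ x dlt * κ y dlt = (3 : ℚ) • κ x y := by
  have h1 := h.kap_mul x dlt y
  rw [h.dlt_left hy, pair_dlt_dlt, mul_neg] at h1
  have h2 : κ x dlt * κ y dlt = -((-6 / 2 : ℚ) • κ x y) := by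
    rw [← h1, neg_neg]
  rw [h2, ← neg_smul]
  norm_num

theorem IsSpin.anti {κ : Ht ℚ →ₗ[ℚ] Ht ℚ →ₗ[ℚ] Module.End ℚ S} (h : IsSpin κ) {x y : Ht ℚ}
    (hx : Od x) (hy : Od y) : κ x dlt * κ y dlt + κ y dlt * κ x dlt =
      (3 * pair x y) • (1 : Module.End ℚ S) := by
  rw [h.mul_dlt x hy, h.mul_dlt y hx, ← smul_add, h.polar, smul_smul]

theorem IsSpin.car {κ : Ht ℚ →ₗ[ℚ] Ht ℚ →ₗ[ℚ] Module.End ℚ S} (h : IsSpin κ) :
    Car 4 (fun i => κ (hA i) dlt) (fun i => (1 / 3 : ℚ) • κ (hB i) dlt) where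
  aa i j := by
    rw [h.anti (pair_hA_dlt i) (pair_hA_dlt j), pair_hA_hA, mul_zero, zero_smul]
  bb i j := by
    rw [smul_mul_smul_comm, smul_mul_smul_comm, ← smul_add,
      h.anti (pair_hB_dlt i) (pair_hB_dlt j), pair_hB_hB, mul_zero, zero_smul, smul_zero]
  ab i j := by
    rw [mul_smul_comm, smul_mul_assoc, ← smul_add, h.anti (pair_hA_dlt i) (pair_hB_dlt j),
      pair_hA_hB]
    split_ifs
    · rw [mul_one, smul_smul]
      norm_num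
    · rw [mul_zero, zero_smul, smul_zero]

/-- the part of a vector orthogonal to `δ` -/
def od (x : Ht ℚ) : Ht ℚ := x.1 0 • hA 0 + x.1 1 • hA 1 + x.1 2 • hA 2 + x.2 0 • hA 3 +
    (x.1 5 • hB 0 + (-(x.1 4)) • hB 1 + x.1 3 • hB 2 + x.2 1 • hB 3)

theorem od_add (x : Ht ℚ) : x = od x + x.2 2 • dlt := decomp x

theorem od_od (x : Ht ℚ) : Od (od x) := by
  unfold Od od
  simp [pair, pairV, hA, hB, dlt]

theorem IsSpin.formula {κ : Ht ℚ →ₗ[ℚ] Ht ℚ →ₗ[ℚ] Module.End ℚ S} (h : IsSpin κ) (x y : Ht ℚ) :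
    κ x y = (1 / 3 : ℚ) • (κ (od x) dlt * κ (od y) dlt) + y.2 2 • κ (od x) dlt -
      x.2 2 • κ (od y) dlt - (3 * x.2 2 * y.2 2) • (1 : Module.End ℚ S) := by
  conv_lhs => rw [od_add x, od_add y]
  rw [LinearMap.map_add₂, LinearMap.map_smul₂, map_add, map_add, map_smul, map_smul,
    h.dlt_left (od_od y), h.kap_self dlt, pair_dlt_dlt, h.mul_dlt (od x) (od_od y)]
  module

/-- intertwining of the operators `κ(x, δ)`, `x ⊥ δ` -/
theorem intertwine_od {κ : Ht ℚ →ₗ[ℚ] Ht ℚ →ₗ[ℚ] Module.End ℚ S}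
    {κ' : Ht ℚ →ₗ[ℚ] Ht ℚ →ₗ[ℚ] Module.End ℚ S'} {Θ : S →ₗ[ℚ] S'}
    (hΘ : ∀ i s, Θ (κ (hA i) dlt s) = κ' (hA i) dlt (Θ s) ∧
      Θ (κ (hB i) dlt s) = κ' (hB i) dlt (Θ s)) (x : Ht ℚ) (s : S) :
    Θ (κ (od x) dlt s) = κ' (od x) dlt (Θ s) := by
  unfold od
  simp only [LinearMap.add_apply, LinearMap.smul_apply,
    map_add, map_smul, (hΘ _ _).1, (hΘ _ _).2]

theorem intertwine {κ : Ht ℚ →ₗ[ℚ] Ht ℚ →ₗ[ℚ] Module.End ℚ S}
    {κ' : Ht ℚ →ₗ[ℚ] Ht ℚ →ₗ[ℚ] Module.End ℚ S'} (h : IsSpin κ) (h' : IsSpin κ') {Θ : S →ₗ[ℚ] S'}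
    (hΘ : ∀ i s, Θ (κ (hA i) dlt s) = κ' (hA i) dlt (Θ s) ∧
      Θ (κ (hB i) dlt s) = κ' (hB i) dlt (Θ s)) (x y : Ht ℚ) (s : S) :
    Θ (κ x y s) = κ' x y (Θ s) := by
  rw [h.formula x y, h'.formula x y]
  simp only [LinearMap.add_apply, LinearMap.sub_apply, LinearMap.smul_apply, Module.End.mul_apply,
    Module.End.one_apply, map_add, map_sub, map_smul, intertwine_od hΘ]

/-- Uniqueness of the spin representation. -/
theorem IsSpin.equiv {κ : Ht ℚ →ₗ[ℚ] Ht ℚ →ₗ[ℚ] Module.End ℚ S}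
    {κ' : Ht ℚ →ₗ[ℚ] Ht ℚ →ₗ[ℚ] Module.End ℚ S'} (h : IsSpin κ) (h' : IsSpin κ') :
    ∃ Θ : S ≃ₗ[ℚ] S', ∀ x y s, Θ (κ x y s) = κ' x y (Θ s) := by
  obtain ⟨Θ, hΘ⟩ := h.car.iso h'.car (by rw [h.finrank_eq]; norm_num)
    (by rw [h'.finrank_eq]; norm_num)
  refine ⟨Θ, fun x y s => intertwine (Θ := (Θ : S →ₗ[ℚ] S')) h h' ?_ x y s⟩
  intro i t
  refine ⟨(hΘ i t).1, ?_⟩
  have h1 := (hΘ i t).2
  rw [LinearMap.smul_apply, LinearMap.smul_apply, map_smul] at h1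
  exact smul_right_injective S' (by norm_num : (1 / 3 : ℚ) ≠ 0) h1

theorem IsSpin.commutant {κ : Ht ℚ →ₗ[ℚ] Ht ℚ →ₗ[ℚ] Module.End ℚ S} (h : IsSpin κ)
    (R : Module.End ℚ S) (hR : ∀ x y s, R (κ x y s) = κ x y (R s)) :
    ∃ c : ℚ, ∀ s, R s = c • s := by
  refine h.car.commutant (by rw [h.finrank_eq]; norm_num) R ?_
  intro i s
  refine ⟨hR _ _ _, ?_⟩
  rw [LinearMap.smul_apply, LinearMap.smul_apply, map_smul, hR]

/-! ### Transport of structure -/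

/-- the transported lattice -/
def moveM (Θ : S ≃ₗ[ℚ] S') (M : Submodule ℤ S) : Submodule ℤ S' :=
  M.map ((Θ.restrictScalars ℤ : S ≃ₗ[ℤ] S') : S →ₗ[ℤ] S')

theorem mem_moveM {Θ : S ≃ₗ[ℚ] S'} {M : Submodule ℤ S} {t : S'} :
    t ∈ moveM Θ M ↔ Θ.symm t ∈ M := by
  unfold moveM
  rw [Submodule.mem_map]
  constructor
  · rintro ⟨s, hs, rfl⟩
    show Θ.symm (Θ s) ∈ M
    rwa [Θ.symm_apply_apply]
  · intro h
    exact ⟨Θ.symm t, h, Θ.apply_symm_apply t⟩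

theorem move_isOddK {κ : Ht ℚ →ₗ[ℚ] Ht ℚ →ₗ[ℚ] Module.End ℚ S}
    {κ' : Ht ℚ →ₗ[ℚ] Ht ℚ →ₗ[ℚ] Module.End ℚ S'} {M : Submodule ℤ S} (h : IsOddK κ M)
    (h' : IsSpin κ') {Θ : S ≃ₗ[ℚ] S'} (hΘ : ∀ x y s, Θ (κ x y s) = κ' x y (Θ s)) :
    IsOddK κ' (moveM Θ M) := by
  have hΘ' : ∀ x y t, Θ.symm (κ' x y t) = κ x y (Θ.symm t) := by
    intro x y t
    rw [LinearEquiv.symm_apply_eq, hΘ, Θ.apply_symm_apply]
  refine { toIsSpin := h', fg := h.fg.map _, span_eq := ?_, monodromy := ?_, selfdual := ?_ }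
  · have e : ((moveM Θ M : Submodule ℤ S') : Set S') = Θ '' (M : Set S) := rfl
    rw [e]
    have := Submodule.map_span (Θ : S →ₗ[ℚ] S') (M : Set S)
    rw [h.span_eq, Submodule.map_top, LinearEquiv.range] at this
    exact this.symm
  · intro γ
    obtain ⟨ρ, h1, h2⟩ := h.monodromy γ
    refine ⟨(Θ.symm.trans ρ).trans Θ, ?_, ?_⟩
    · intro t
      rw [mem_moveM, mem_moveM]
      show Θ.symm (Θ (ρ (Θ.symm t))) ∈ M ↔ _
      rw [Θ.symm_apply_apply]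
      exact h1 _
    · intro x y t
      show Θ (ρ (Θ.symm (κ' x y t))) = κ' (act γ x) (act γ y) (Θ (ρ (Θ.symm t)))
      rw [hΘ', h2, hΘ]
  · obtain ⟨b, h1, h2⟩ := h.selfdual
    refine ⟨b.compl₁₂ (Θ.symm : S' →ₗ[ℚ] S) (Θ.symm : S' →ₗ[ℚ] S), ?_, ?_⟩
    · intro x y s t
      show b (Θ.symm (κ' x y s)) (Θ.symm t) = b (Θ.symm s) (Θ.symm (κ' y x t))
      rw [hΘ', hΘ', h1]
    · intro t
      rw [mem_moveM, h2]
      constructor
      · intro h3 m hm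
        exact h3 _ (mem_moveM.1 hm)
      · intro h3 m hm
        have := h3 (Θ m) (by rw [mem_moveM, Θ.symm_apply_apply]; exact hm)
        simpa using this

theorem move_derivedIso {κ : Ht ℚ →ₗ[ℚ] Ht ℚ →ₗ[ℚ] Module.End ℚ S}
    {κ' : Ht ℚ →ₗ[ℚ] Ht ℚ →ₗ[ℚ] Module.End ℚ S'} {M : Submodule ℤ S} {σ τ : Fin 6 → ℂ}
    {Θ : S ≃ₗ[ℚ] S'} (hΘ : ∀ x y s, Θ (κ x y s) = κ' x y (Θ s)) (h : DerivedIso κ M σ τ) :
    DerivedIso κ' (moveM Θ M) σ τ := by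
  have hΘ' : ∀ x y t, Θ.symm (κ' x y t) = κ x y (Θ.symm t) := by
    intro x y t
    rw [LinearEquiv.symm_apply_eq, hΘ, Θ.apply_symm_apply]
  obtain ⟨g, ψ, h1, h2, h3, h4⟩ := h
  refine ⟨(Θ.symm.trans g).trans Θ, ψ, ?_, h2, ?_, h4⟩
  · intro t
    rw [mem_moveM, mem_moveM]
    show Θ.symm (Θ (g (Θ.symm t))) ∈ M ↔ _
    rw [Θ.symm_apply_apply]
    exact h1 _
  · intro x y t
    show Θ (g (Θ.symm (κ' x y t))) = κ' (ψ x) (ψ y) (Θ (g (Θ.symm t)))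
    rw [hΘ', h3, hΘ]

end

end Pool.Agent.H.MP_072fb1_ag
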